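import Mathlib

/-!
# Co-consonant spaces, the Smyth powerspace and the lower powerspace: definitions
-/

set_option autoImplicit false

open Set Topology TopologicalSpace

namespace Pool.Agent.Q150.CoCon

/-- Scott open subsets of a poset -/
def ScottOpen {P : Type} [PartialOrder P] (𝒰 : Set P) : Prop :=
  (∀ a b, a ∈ 𝒰 → a ≤ b → b ∈ 𝒰) ∧
  ∀ D : Set P, D.Nonempty → DirectedOn (· ≤ ·) D → ∀ s, IsLUB D s → s ∈ 𝒰 → (D ∩ 𝒰).Nonempty

/-- the upper topology of a poset: generated by the complements of the principal ideals -/
def upperTop (P : Type) [PartialOrder P] : TopologicalSpace P :=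
  generateFrom {S | ∃ x : P, S = (Iic x)ᶜ}

/-- `X` is co-consonant if the Scott topology and the upper topology of the lattice of its open sets
have the same open sets -/
def CoConsonant (X : Type) [TopologicalSpace X] : Prop :=
  ∀ 𝒰 : Set (Opens X), IsOpen[upperTop (Opens X)] 𝒰 ↔ ScottOpen 𝒰

/-- saturated sets: intersections of open sets -/
def Saturated {X : Type} [TopologicalSpace X] (K : Set X) : Prop :=
  K = ⋂₀ {U | IsOpen U ∧ K ⊆ U}

/-- the points of the Smyth powerspace: nonempty compact saturated sets -/
def PS (X : Type) [TopologicalSpace X] : Type :=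
  {K : Set X // K.Nonempty ∧ IsCompact K ∧ Saturated K}

/-- the basic open sets of the upper Vietoris topology -/
def box {X : Type} [TopologicalSpace X] (U : Set X) : Set (PS X) := {K | K.1 ⊆ U}

/-- the upper Vietoris topology: the topology with base the sets `box U`, `U` open -/
instance (X : Type) [TopologicalSpace X] : TopologicalSpace (PS X) where
  IsOpen W := ∀ K ∈ W, ∃ U : Set X, IsOpen U ∧ K ∈ box U ∧ box U ⊆ W
  isOpen_univ := fun _ _ => ⟨univ, isOpen_univ, subset_univ _, subset_univ _⟩
  isOpen_inter := by
    intro W W' h h' K hK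
    obtain ⟨U, hU, hKU, hUW⟩ := h K hK.1
    obtain ⟨U', hU', hKU', hUW'⟩ := h' K hK.2
    exact ⟨U ∩ U', hU.inter hU', subset_inter hKU hKU', fun L hL =>
      ⟨hUW (hL.trans inter_subset_left), hUW' (hL.trans inter_subset_right)⟩⟩
  isOpen_sUnion := by
    rintro S hS K ⟨W, hW, hK⟩
    obtain ⟨U, hU, hKU, hUW⟩ := hS W hW K hK
    exact ⟨U, hU, hKU, hUW.trans (subset_sUnion_of_mem hW)⟩

/-- the points of the lower powerspace: closed sets -/
def PH (X : Type) [TopologicalSpace X] : Type := {C : Set X // IsClosed C}

/-- the subbasic open sets of the lower Vietoris topology -/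
def diam {X : Type} [TopologicalSpace X] (U : Set X) : Set (PH X) := {C | (C.1 ∩ U).Nonempty}

/-- the lower Vietoris topology: generated by the sets `diam U`, `U` open -/
instance (X : Type) [TopologicalSpace X] : TopologicalSpace (PH X) :=
  generateFrom {W | ∃ U : Set X, IsOpen U ∧ W = diam U}

end Pool.Agent.Q150.CoCon
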