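import Pool.Agent.Q150.CoConDefs

/-!
# A co-consonant space whose powerspaces are not co-consonant
-/

set_option autoImplicit false

open Set Topology TopologicalSpace

namespace Pool.Agent.Q150.CoCon

section general

variable {X : Type} [TopologicalSpace X]

/-- the open sets that contain a given point form an open set of the upper topology -/
theorem isOpen_mem (x : X) : IsOpen[upperTop (Opens X)] {V : Opens X | x ∈ V} := by
  apply isOpen_generateFrom_of_mem
  refine ⟨⟨(closure {x})ᶜ, isClosed_closure.isOpen_compl⟩, ?_⟩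
  ext V
  constructor
  · intro hx hV
    exact (mem_Iic.mp hV : V ≤ _) hx (subset_closure rfl)
  · intro hV
    by_contra hx
    refine hV (mem_Iic.mpr fun y hy hyc => ?_)
    obtain ⟨z, hz, hzx⟩ := mem_closure_iff.mp hyc V V.isOpen hy
    rw [mem_singleton_iff] at hzx
    subst hzx
    exact hx hz

theorem scottOpen_of_upper {𝒰 : Set (Opens X)} (h : IsOpen[upperTop (Opens X)] 𝒰) : ScottOpen 𝒰 := by
  induction h with
  | basic S hS =>
    obtain ⟨x, rfl⟩ := hS
    refine ⟨fun a b ha hab hb => ha (mem_Iic.mpr (hab.trans (mem_Iic.mp hb))), fun D hne hD s hs hsx => ?_⟩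
    by_contra hcon
    refine hsx (mem_Iic.mpr (hs.2 fun d hd => ?_))
    by_contra hdx
    exact hcon ⟨d, hd, fun h => hdx (mem_Iic.mp h)⟩
  | univ => exact ⟨fun _ _ _ _ => mem_univ _, fun D hne _ _ _ _ => by simpa using hne⟩
  | inter S T _ _ h1 h2 =>
    refine ⟨fun a b ha hab => ⟨h1.1 a b ha.1 hab, h2.1 a b ha.2 hab⟩, fun D hne hD s hs hsx => ?_⟩
    obtain ⟨d, hd, hdS⟩ := h1.2 D hne hD s hs hsx.1
    obtain ⟨e, he, heT⟩ := h2.2 D hne hD s hs hsx.2
    obtain ⟨f, hf, hdf, hef⟩ := hD d hd e he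
    exact ⟨f, hf, h1.1 _ _ hdS hdf, h2.1 _ _ heT hef⟩
  | sUnion 𝒮 _ h =>
    refine ⟨fun a b ⟨S, hS, ha⟩ hab => ⟨S, hS, (h S hS).1 a b ha hab⟩, fun D hne hD s hs ⟨S, hS, hsS⟩ => ?_⟩
    obtain ⟨d, hd, hdS⟩ := (h S hS).2 D hne hD s hs hsS
    exact ⟨d, hd, S, hS, hdS⟩

/-- a criterion for co-consonance: every member `W` of a Scott open family contains a finite set `F` of
points such that every open superset of `F` belongs to the family -/
theorem coConsonant_of (h : ∀ 𝒰 : Set (Opens X), ScottOpen 𝒰 → ∀ W ∈ 𝒰, ∃ F : Set X, F.Finite ∧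
    F ⊆ (W : Set X) ∧ ∀ V : Opens X, F ⊆ (V : Set X) → V ∈ 𝒰) : CoConsonant X := by
  intro 𝒰
  refine ⟨scottOpen_of_upper, fun h𝒰 => ?_⟩
  let _ : TopologicalSpace (Opens X) := upperTop (Opens X)
  change IsOpen 𝒰
  rw [isOpen_iff_forall_mem_open]
  intro W hW
  obtain ⟨F, hF, hFW, hFU⟩ := h 𝒰 h𝒰 W hW
  refine ⟨⋂ x ∈ F, {V : Opens X | x ∈ V}, ?_, hF.isOpen_biInter fun x _ => isOpen_mem x, ?_⟩
  · intro V hV
    refine hFU V fun x hx => ?_
    exact mem_iInter₂.mp hV x hx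
  · exact mem_iInter₂.mpr fun x hx => hFW hx

/-- the converse of the criterion -/
theorem finite_of_coConsonant (hX : CoConsonant X) {𝒰 : Set (Opens X)} (h : ScottOpen 𝒰) {W : Opens X}
    (hW : W ∈ 𝒰) : ∃ F : Set X, F.Finite ∧ F ⊆ (W : Set X) ∧ ∀ V : Opens X, F ⊆ (V : Set X) → V ∈ 𝒰 := by
  have h1 : IsOpen[upperTop (Opens X)] 𝒰 := (hX 𝒰).mpr h
  clear h
  induction h1 generalizing W with
  | basic S hS =>
    obtain ⟨x, rfl⟩ := hS
    have hW' : ¬ (W : Set X) ⊆ (x : Set X) := fun h => hW (mem_Iic.mpr h)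
    obtain ⟨p, hpW, hpx⟩ := not_subset.mp hW'
    exact ⟨{p}, finite_singleton p, singleton_subset_iff.mpr hpW, fun V hV hVx =>
      hpx ((mem_Iic.mp hVx : V ≤ x) (hV rfl))⟩
  | univ => exact ⟨∅, finite_empty, empty_subset _, fun _ _ => mem_univ _⟩
  | inter S T _ _ h1 h2 =>
    obtain ⟨F, hF, hFW, hFS⟩ := h1 hW.1
    obtain ⟨G, hG, hGW, hGT⟩ := h2 hW.2
    exact ⟨F ∪ G, hF.union hG, union_subset hFW hGW, fun V hV =>
      ⟨hFS V (subset_union_left.trans hV), hGT V (subset_union_right.trans hV)⟩⟩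
  | sUnion 𝒮 _ h =>
    obtain ⟨S, hS, hWS⟩ := hW
    obtain ⟨F, hF, hFW, hFS⟩ := h S hS hWS
    exact ⟨F, hF, hFW, fun V hV => ⟨S, hS, hFS V hV⟩⟩

theorem mem_of_isLUB {D : Set (Opens X)} {s : Opens X} (hs : IsLUB D s) {x : X} (hx : x ∈ s) :
    ∃ V ∈ D, x ∈ V := by
  by_contra hcon
  push Not at hcon
  have h1 : s ≤ ⟨(closure {x})ᶜ, isClosed_closure.isOpen_compl⟩ := by
    refine hs.2 fun V hV y hy hyc => ?_
    obtain ⟨z, hz, hzx⟩ := mem_closure_iff.mp hyc V V.isOpen hy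
    rw [mem_singleton_iff] at hzx
    subst hzx
    exact hcon V hV hz
  exact h1 hx (subset_closure rfl)

end general

/-- the points of the space -/
inductive Sp where
  | a : Sp
  | y : ℕ → ℕ → Sp
  | z : (ℕ → ℕ) → Sp

namespace Sp

/-- the open sets of the space -/
def IsO (O : Set Sp) : Prop :=
  (∀ n m, y n m ∈ O → ∀ m', m ≤ m' → y n m' ∈ O) ∧
  (∀ n m, y n m ∈ O → ∀ n', ∃ m', y n' m' ∈ O) ∧
  (∀ f, z f ∈ O → ∀ n m, y n m ∈ O) ∧
  (∀ f, z f ∈ O → ∃ N : ℕ, ∀ g : ℕ → ℕ, (∀ n, n < N → g n ≤ f n) → z g ∈ O)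

instance : TopologicalSpace Sp where
  IsOpen := IsO
  isOpen_univ := ⟨fun _ _ _ _ _ => mem_univ _, fun _ _ _ _ => ⟨0, mem_univ _⟩, fun _ _ _ _ => mem_univ _,
    fun _ _ => ⟨0, fun _ _ => mem_univ _⟩⟩
  isOpen_inter := by
    rintro O O' ⟨h1, h2, h3, h4⟩ ⟨h1', h2', h3', h4'⟩
    refine ⟨fun n m h m' hm => ⟨h1 n m h.1 m' hm, h1' n m h.2 m' hm⟩, fun n m h n' => ?_,
      fun f h n m => ⟨h3 f h.1 n m, h3' f h.2 n m⟩, fun f h => ?_⟩
    · obtain ⟨p, hp⟩ := h2 n m h.1 n'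
      obtain ⟨p', hp'⟩ := h2' n m h.2 n'
      exact ⟨max p p', h1 _ _ hp _ (le_max_left _ _), h1' _ _ hp' _ (le_max_right _ _)⟩
    · obtain ⟨N, hN⟩ := h4 f h.1
      obtain ⟨N', hN'⟩ := h4' f h.2
      exact ⟨max N N', fun g hg => ⟨hN g fun n hn => hg n (lt_of_lt_of_le hn (le_max_left _ _)),
        hN' g fun n hn => hg n (lt_of_lt_of_le hn (le_max_right _ _))⟩⟩
  isOpen_sUnion := by
    intro S hS
    refine ⟨?_, ?_, ?_, ?_⟩
    · rintro n m ⟨O, hO, h⟩ m' hm
      exact ⟨O, hO, (hS O hO).1 n m h m' hm⟩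
    · rintro n m ⟨O, hO, h⟩ n'
      obtain ⟨m', hm'⟩ := (hS O hO).2.1 n m h n'
      exact ⟨m', O, hO, hm'⟩
    · rintro f ⟨O, hO, h⟩ n m
      exact ⟨O, hO, (hS O hO).2.2.1 f h n m⟩
    · rintro f ⟨O, hO, h⟩
      obtain ⟨N, hN⟩ := (hS O hO).2.2.2 f h
      exact ⟨N, fun g hg => ⟨O, hO, hN g hg⟩⟩

theorem isOpen_def {O : Set Sp} : IsOpen O ↔ IsO O := Iff.rfl

/-- a separation lemma -/
theorem isOpen_O2 (n₀ M : ℕ) : IsOpen {p : Sp | (∃ n m, p = y n m) ∨ ∃ f : ℕ → ℕ, p = z f ∧ f n₀ ≤ M} := by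
  rw [isOpen_def]
  refine ⟨fun n m _ m' _ => Or.inl ⟨_, _, rfl⟩, fun n m _ n' => ⟨0, Or.inl ⟨_, _, rfl⟩⟩,
    fun f _ n m => Or.inl ⟨_, _, rfl⟩, fun f hf => ⟨n₀ + 1, fun g hg => ?_⟩⟩
  rcases hf with ⟨n, m, h⟩ | ⟨f', h, hM⟩
  · cases h
  · cases h
    exact Or.inr ⟨g, rfl, (hg n₀ (by omega)).trans hM⟩

theorem isOpen_O1 (n₀ M : ℕ) : IsOpen {p : Sp | p = a ∨ ∃ n m, p = y n m ∧ (n = n₀ → M ≤ m)} := by
  rw [isOpen_def]
  refine ⟨fun n m h m' hm => ?_, fun n m _ n' => ⟨M, Or.inr ⟨n', M, rfl, fun _ => le_rfl⟩⟩, fun f h => ?_, fun f h => ?_⟩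
  · rcases h with h | ⟨n', m', h, h'⟩
    · cases h
    · cases h
      exact Or.inr ⟨_, _, rfl, fun h => (h' h).trans hm⟩
  · rcases h with h | ⟨n', m', h, h'⟩ <;> cases h
  · rcases h with h | ⟨n', m', h, h'⟩ <;> cases h

theorem isOpen_a : IsOpen ({a} : Set Sp) := by
  rw [isOpen_def]
  refine ⟨fun n m h => ?_, fun n m h => ?_, fun f h => ?_, fun f h => ?_⟩ <;> cases (mem_singleton_iff.mp h)

instance : T0Space Sp := by
  rw [t0Space_iff_not_inseparable]
  intro p q hpq h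
  rw [inseparable_iff_forall_isOpen] at h
  apply hpq
  cases p with
  | a =>
    have := (h _ isOpen_a).mp rfl
    exact (mem_singleton_iff.mp this).symm
  | y n m =>
    cases q with
    | a =>
      have := (h _ isOpen_a).mpr rfl
      exact (mem_singleton_iff.mp this)
    | y n' m' =>
      have h1 : ∀ k l k' l', (∀ s : Set Sp, IsOpen s → (y k l ∈ s ↔ y k' l' ∈ s)) → k = k' ∧ l ≤ l' := by
        intro k l k' l' hk
        have h2 := (hk _ (isOpen_O1 k l)).mp (Or.inr ⟨_, _, rfl, fun _ => le_rfl⟩)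
        have h3 := (hk _ (isOpen_O1 k (l + 1))).not.mp (by
          rintro (h | ⟨n, m, h, h'⟩)
          · cases h
          · cases h
            have := h' rfl
            omega)
        have hkk : k' = k := by
          by_contra hne
          exact h3 (Or.inr ⟨_, _, rfl, fun h => absurd h hne⟩)
        refine ⟨hkk.symm, ?_⟩
        rcases h2 with h | ⟨n, m, h, h'⟩
        · cases h
        · cases h
          exact h' hkk
      obtain ⟨h2, h3⟩ := h1 _ _ _ _ h
      obtain ⟨_, h4⟩ := h1 _ _ _ _ fun s hs => (h s hs).symm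
      rw [h2, le_antisymm h3 h4]
    | z f =>
      have := (h _ (isOpen_O1 0 0)).mp (Or.inr ⟨_, _, rfl, fun _ => Nat.zero_le _⟩)
      rcases this with h | ⟨n', m', h, h'⟩ <;> cases h
  | z f =>
    cases q with
    | a =>
      have := (h _ isOpen_a).mpr rfl
      exact (mem_singleton_iff.mp this)
    | y n m =>
      have := (h _ (isOpen_O1 0 0)).mpr (Or.inr ⟨_, _, rfl, fun _ => Nat.zero_le _⟩)
      rcases this with h | ⟨n', m', h, h'⟩ <;> cases h
    | z g =>
      have h1 : ∀ f g : ℕ → ℕ, (∀ s : Set Sp, IsOpen s → (z f ∈ s ↔ z g ∈ s)) → ∀ n, g n ≤ f n := by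
        intro f g hk n
        have h2 := (hk _ (isOpen_O2 n (f n))).mp (Or.inr ⟨_, rfl, le_rfl⟩)
        rcases h2 with ⟨_, _, h⟩ | ⟨f', h, h'⟩
        · cases h
        · cases h
          exact h'
      have h2 := h1 _ _ h
      have h3 := h1 _ _ fun s hs => (h s hs).symm
      congr 1
      funext n
      exact le_antisymm (h3 n) (h2 n)

/-- recursion along initial segments -/
theorem exists_seq (P : ℕ → (ℕ → ℕ) → Prop)
    (hdep : ∀ k M M', (∀ n, n < k → M n = M' n) → P k M → P k M') (h0 : ∀ M, P 0 M)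
    (hs : ∀ k M, P k M → ∃ m, P (k + 1) (Function.update M k m)) : ∃ M, ∀ k, P k M := by
  choose! c hc using hs
  let S : ℕ → (ℕ → ℕ) := fun k => Nat.rec (fun _ => 0) (fun k M => Function.update M k (c k M)) k
  have hS0 : S 0 = fun _ => 0 := rfl
  have hS1 : ∀ k, S (k + 1) = Function.update (S k) k (c k (S k)) := fun k => rfl
  have hP : ∀ k, P k (S k) := by
    intro k
    induction k with
    | zero => exact h0 _
    | succ k ih =>
      rw [hS1]
      exact hc k _ ih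
  have hst : ∀ k n, n < k → S k n = S (n + 1) n := by
    intro k
    induction k with
    | zero => intro n hn; omega
    | succ k ih =>
      intro n hn
      rcases Nat.lt_succ_iff_lt_or_eq.mp hn with h | h
      · rw [hS1, Function.update_of_ne (by omega), ih n h]
      · rw [h]
  exact ⟨fun n => S (n + 1) n, fun k => hdep k _ _ (fun n hn => hst k n hn) (hP k)⟩

theorem coConsonant : CoConsonant Sp := by
  classical
  refine coConsonant_of fun 𝒰 h𝒰 O hO => ?_
  obtain ⟨o1, o2, o3, o4⟩ := isOpen_def.mp O.isOpen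
  by_cases hz : ∃ f, z f ∈ O
  · obtain ⟨f₀, hf₀⟩ := hz
    have hy : ∀ n m, y n m ∈ O := o3 f₀ hf₀
    have o4' : ∀ f : ℕ → ℕ, ∃ N : ℕ, z f ∈ O → ∀ g : ℕ → ℕ, (∀ n, n < N → g n ≤ f n) → z g ∈ O := by
      intro f
      by_cases hf : z f ∈ O
      · obtain ⟨N, hN⟩ := o4 f hf
        exact ⟨N, fun _ => hN⟩
      · exact ⟨0, fun h => absurd h hf⟩
    choose N hN using o4'
    -- the approximations
    let A : Finset (ℕ → ℕ) → ℕ → (ℕ → ℕ) → Set Sp := fun T k M =>
      {p | (∃ n m, p = y n m) ∨ (p = a ∧ a ∈ O) ∨ ∃ g : ℕ → ℕ, p = z g ∧ ∃ f ∈ T, (∀ n, n < N f → g n ≤ f n) ∧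
        ∀ n, N f ≤ n → n < k → g n ≤ M n}
    have hA : ∀ T k M, IsOpen (A T k M) := by
      intro T k M
      rw [isOpen_def]
      refine ⟨fun n m _ m' _ => Or.inl ⟨_, _, rfl⟩, fun n m _ n' => ⟨0, Or.inl ⟨_, _, rfl⟩⟩,
        fun f _ n m => Or.inl ⟨_, _, rfl⟩, fun f hf => ?_⟩
      rcases hf with ⟨n, m, h⟩ | ⟨h, _⟩ | ⟨f', h, f1, hf1, h1, h2⟩
      · cases h
      · cases h
      · cases h
        refine ⟨max (N f1) k, fun g hg => Or.inr (Or.inr ⟨g, rfl, f1, hf1, fun n hn => ?_, fun n hn hn' => ?_⟩)⟩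
        · exact (hg n (lt_of_lt_of_le hn (le_max_left _ _))).trans (h1 n hn)
        · exact (hg n (lt_of_lt_of_le hn' (le_max_right _ _))).trans (h2 n hn hn')
    let B : Finset (ℕ → ℕ) → ℕ → (ℕ → ℕ) → Opens Sp := fun T k M => ⟨A T k M, hA T k M⟩
    -- choice of a finite set of functions
    obtain ⟨T, hTO, hT⟩ : ∃ T : Finset (ℕ → ℕ), (∀ f ∈ T, z f ∈ O) ∧ B T 0 0 ∈ 𝒰 := by
      have hlub : IsLUB {V | ∃ T : Finset (ℕ → ℕ), (∀ f ∈ T, z f ∈ O) ∧ V = B T 0 0} O := by
        constructor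
        · rintro V ⟨T, hT, rfl⟩ p hp
          rcases hp with ⟨n, m, h⟩ | ⟨h, h'⟩ | ⟨g, h, f, hf, h1, _⟩
          · rw [h]; exact hy n m
          · rw [h]; exact h'
          · rw [h]; exact hN f (hT f hf) g h1
        · intro V hV p hp
          cases p with
          | a => exact hV ⟨∅, by simp, rfl⟩ (Or.inr (Or.inl ⟨rfl, hp⟩))
          | y n m => exact hV ⟨∅, by simp, rfl⟩ (Or.inl ⟨_, _, rfl⟩)
          | z f =>
            refine hV ⟨{f}, ?_, rfl⟩ (Or.inr (Or.inr ⟨f, rfl, f, Finset.mem_singleton_self f,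
              fun _ _ => le_rfl, fun _ _ h => absurd h (Nat.not_lt_zero _)⟩))
            intro f' hf'
            rw [Finset.mem_singleton.mp hf']
            exact hp
      obtain ⟨V, ⟨T, hT, rfl⟩, hV⟩ := h𝒰.2 {V | ∃ T : Finset (ℕ → ℕ), (∀ f ∈ T, z f ∈ O) ∧ V = B T 0 0}
        ⟨B ∅ 0 0, ∅, by simp, rfl⟩ (by
        rintro _ ⟨T, hT, rfl⟩ _ ⟨T', hT', rfl⟩
        refine ⟨_, ⟨T ∪ T', ?_, rfl⟩, ?_, ?_⟩
        · intro f hf
          rcases Finset.mem_union.mp hf with h | h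
          · exact hT f h
          · exact hT' f h
        · rintro p (h | h | ⟨g, h, f, hf, h1⟩)
          · exact Or.inl h
          · exact Or.inr (Or.inl h)
          · exact Or.inr (Or.inr ⟨g, h, f, Finset.mem_union_left _ hf, h1⟩)
        · rintro p (h | h | ⟨g, h, f, hf, h1⟩)
          · exact Or.inl h
          · exact Or.inr (Or.inl h)
          · exact Or.inr (Or.inr ⟨g, h, f, Finset.mem_union_right _ hf, h1⟩)) O hlub hO
      exact ⟨T, hT, hV⟩
    obtain ⟨M, hM⟩ := exists_seq (fun k M => B T k M ∈ 𝒰)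
      (by
        intro k M M' h hk
        refine h𝒰.1 _ _ hk ?_
        rintro p (h' | h' | ⟨g, h', f, hf, h1, h2⟩)
        · exact Or.inl h'
        · exact Or.inr (Or.inl h')
        · refine Or.inr (Or.inr ⟨g, h', f, hf, h1, fun n hn hn' => ?_⟩)
          rw [← h n hn']
          exact h2 n hn hn')
      (by
        intro M
        refine h𝒰.1 _ _ hT ?_
        rintro p (h' | h' | ⟨g, h', f, hf, h1, h2⟩)
        · exact Or.inl h'
        · exact Or.inr (Or.inl h')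
        · exact Or.inr (Or.inr ⟨g, h', f, hf, h1, fun n _ hn' => absurd hn' (Nat.not_lt_zero _)⟩))
      (by
        intro k M hk
        have hlub : IsLUB (range fun m => B T (k + 1) (Function.update M k m)) (B T k M) := by
          constructor
          · rintro _ ⟨m, rfl⟩ p (h' | h' | ⟨g, h', f, hf, h1, h2⟩)
            · exact Or.inl h'
            · exact Or.inr (Or.inl h')
            · refine Or.inr (Or.inr ⟨g, h', f, hf, h1, fun n hn hn' => ?_⟩)
              have := h2 n hn (by omega)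
              rwa [Function.update_of_ne (by omega)] at this
          · rintro V hV p (h' | h' | ⟨g, h', f, hf, h1, h2⟩)
            · exact hV ⟨0, rfl⟩ (Or.inl h')
            · exact hV ⟨0, rfl⟩ (Or.inr (Or.inl h'))
            · refine hV ⟨g k, rfl⟩ (Or.inr (Or.inr ⟨g, h', f, hf, h1, fun n hn hn' => ?_⟩))
              rcases Nat.lt_succ_iff_lt_or_eq.mp hn' with h | h
              · rw [Function.update_of_ne (by omega)]
                exact h2 n hn h
              · rw [h, Function.update_self]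
        obtain ⟨V, ⟨m, rfl⟩, hV⟩ := h𝒰.2 _ (range_nonempty _) (by
          rintro _ ⟨m, rfl⟩ _ ⟨m', rfl⟩
          refine ⟨_, ⟨max m m', rfl⟩, ?_, ?_⟩
          · rintro p (h' | h' | ⟨g, h', f, hf, h1, h2⟩)
            · exact Or.inl h'
            · exact Or.inr (Or.inl h')
            · refine Or.inr (Or.inr ⟨g, h', f, hf, h1, fun n hn hn' => (h2 n hn hn').trans ?_⟩)
              by_cases h : n = k
              · rw [h, Function.update_self, Function.update_self]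
                exact le_max_left _ _
              · rw [Function.update_of_ne h, Function.update_of_ne h]
          · rintro p (h' | h' | ⟨g, h', f, hf, h1, h2⟩)
            · exact Or.inl h'
            · exact Or.inr (Or.inl h')
            · refine Or.inr (Or.inr ⟨g, h', f, hf, h1, fun n hn hn' => (h2 n hn hn').trans ?_⟩)
              by_cases h : n = k
              · rw [h, Function.update_self, Function.update_self]
                exact le_max_right _ _
              · rw [Function.update_of_ne h, Function.update_of_ne h]) _ hlub hk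
        exact ⟨m, hV⟩)
    -- the finite set
    let G : (ℕ → ℕ) → (ℕ → ℕ) := fun f n => if n < N f then f n else M n
    refine ⟨(fun f => z (G f)) '' (T : Set (ℕ → ℕ)) ∪ {z f₀} ∪ {p | p = a ∧ a ∈ O},
      ((T.finite_toSet.image _).union (finite_singleton _)).union ((finite_singleton a).subset fun p hp => hp.1), ?_, ?_⟩
    · rintro p ((⟨f, hf, rfl⟩ | h) | ⟨h, h'⟩)
      · refine hN f (hTO f hf) _ fun n hn => ?_
        simp only [G]
        rw [if_pos hn]
      · rw [mem_singleton_iff.mp h]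
        exact hf₀
      · rw [h]
        exact h'
    · intro V hV
      obtain ⟨v1, v2, v3, v4⟩ := isOpen_def.mp V.isOpen
      have hVy : ∀ n m, y n m ∈ V := v3 f₀ (hV (Or.inl (Or.inr rfl)))
      have hK : ∀ f : ℕ → ℕ, ∃ K : ℕ, f ∈ T → ∀ g : ℕ → ℕ, (∀ n, n < K → g n ≤ G f n) → z g ∈ V := by
        intro f
        by_cases hf : f ∈ T
        · obtain ⟨K, hK⟩ := v4 (G f) (hV (Or.inl (Or.inl ⟨f, hf, rfl⟩)))
          exact ⟨K, fun _ => hK⟩
        · exact ⟨0, fun h => absurd h hf⟩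
      choose K hK using hK
      refine h𝒰.1 _ _ (hM (T.sup K)) ?_
      rintro p (⟨n, m, h'⟩ | ⟨h', h''⟩ | ⟨g, h', f, hf, h1, h2⟩)
      · rw [h']; exact hVy n m
      · rw [h']; exact hV (Or.inr ⟨rfl, h''⟩)
      · rw [h']
        refine hK f hf g fun n hn => ?_
        simp only [G]
        split_ifs with h
        · exact h1 n h
        · exact h2 n (by omega) (lt_of_lt_of_le hn (Finset.le_sup hf))
  · push Not at hz
    by_cases hyO : ∃ n m, y n m ∈ O
    · obtain ⟨n₀, m₀, hnm⟩ := hyO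
      have hcol : ∀ n, ∃ m, y n m ∈ O := o2 n₀ m₀ hnm
      let f : ℕ → ℕ := fun n => Nat.find (hcol n)
      have hf : ∀ n, y n (f n) ∈ O := fun n => Nat.find_spec (hcol n)
      have hf' : ∀ n m, y n m ∈ O → f n ≤ m := fun n m h => Nat.find_min' (hcol n) h
      by_contra hcon
      push Not at hcon
      have hV : ∀ k : ℕ, ∃ V : Opens Sp, (∀ n, n ≤ k → y n (f n) ∈ V) ∧ (a ∈ O → a ∈ V) ∧ V ∉ 𝒰 := by
        intro k
        obtain ⟨V, hV1, hV2⟩ := hcon ((fun n => y n (f n)) '' {n | n ≤ k} ∪ {p | p = a ∧ a ∈ O})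
          (((finite_le_nat k).image _).union ((finite_singleton a).subset fun p hp => hp.1)) (by
            rintro p (⟨n, _, rfl⟩ | ⟨h, h'⟩)
            · exact hf n
            · rw [h]; exact h')
        exact ⟨V, fun n hn => hV1 (Or.inl ⟨n, hn, rfl⟩), fun h => hV1 (Or.inr ⟨rfl, h⟩), hV2⟩
      choose V hV1 hV2 hV3 using hV
      have hopen : ∀ k, IsOpen {p : Sp | p ∈ O ∧ ∀ k', k ≤ k' → p ∈ V k'} := by
        intro k
        rw [isOpen_def]
        refine ⟨fun n m h m' hm => ⟨o1 n m h.1 m' hm, fun k' hk' =>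
          (isOpen_def.mp (V k').isOpen).1 n m (h.2 k' hk') m' hm⟩, fun _ _ _ n => ?_,
          fun g hg => absurd hg.1 (hz g), fun g hg => absurd hg.1 (hz g)⟩
        have h1 : ∀ k', ∃ m, y n m ∈ V k' := fun k' =>
          (isOpen_def.mp (V k').isOpen).2.1 0 (f 0) (hV1 k' 0 (Nat.zero_le _)) n
        choose m hm using h1
        refine ⟨max (f n) ((Finset.range n).sup m), o1 _ _ (hf n) _ (le_max_left _ _), fun k' _ => ?_⟩
        by_cases hk : k' < n
        · exact (isOpen_def.mp (V k').isOpen).1 n _ (hm k') _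
            ((Finset.le_sup (Finset.mem_range.mpr hk)).trans (le_max_right _ _))
        · exact (isOpen_def.mp (V k').isOpen).1 n _ (hV1 k' n (by omega)) _ (le_max_left _ _)
      have hlub : IsLUB (range fun k => (⟨_, hopen k⟩ : Opens Sp)) O := by
        constructor
        · rintro _ ⟨k, rfl⟩ p hp
          exact hp.1
        · intro W hW p hp
          cases p with
          | a => exact hW ⟨0, rfl⟩ ⟨hp, fun k' _ => hV2 k' hp⟩
          | y n m =>
            refine hW ⟨n, rfl⟩ ⟨hp, fun k' hk' => ?_⟩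
            exact (isOpen_def.mp (V k').isOpen).1 n _ (hV1 k' n hk') _ (hf' n m hp)
          | z g => exact absurd hp (hz g)
      obtain ⟨_, ⟨k, rfl⟩, hk⟩ := h𝒰.2 _ (range_nonempty _) (by
        rintro _ ⟨k, rfl⟩ _ ⟨k', rfl⟩
        refine ⟨_, ⟨max k k', rfl⟩, ?_, ?_⟩
        · exact fun p hp => ⟨hp.1, fun l hl => hp.2 l ((le_max_left _ _).trans hl)⟩
        · exact fun p hp => ⟨hp.1, fun l hl => hp.2 l ((le_max_right _ _).trans hl)⟩) O hlub hO
      exact hV3 k (h𝒰.1 _ _ hk fun p hp => hp.2 k le_rfl)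
    · push Not at hyO
      refine ⟨(O : Set Sp), (finite_singleton a).subset ?_, Subset.rfl, fun V hV => h𝒰.1 _ _ hO hV⟩
      intro p hp
      cases p with
      | a => rfl
      | y n m => exact absurd hp (hyO n m)
      | z g => exact absurd hp (hz g)

/-- the evaluation family -/
theorem scottOpen_eval {T : Type} [TopologicalSpace T] (φ ψ : Sp → T) (hφ : Continuous φ) (hψ : Continuous ψ) :
    ScottOpen {𝒲 : Opens T | ∃ f : ℕ → ℕ, φ (z f) ∈ 𝒲 ∧ ∀ n m, f n ≤ m → ψ (y n m) ∈ 𝒲} := by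
  classical
  constructor
  · rintro 𝒲 𝒱 ⟨f, h1, h2⟩ h
    exact ⟨f, h h1, fun n m hm => h (h2 n m hm)⟩
  · rintro D hne hD s hs ⟨f, h1, h2⟩
    obtain ⟨𝒲₀, hW₀, h3⟩ := mem_of_isLUB hs h1
    obtain ⟨N, hN⟩ := (isOpen_def.mp (𝒲₀.isOpen.preimage hφ)).2.2.2 f h3
    have h4 : ∀ k : ℕ, ∃ 𝒲 ∈ D, 𝒲₀ ≤ 𝒲 ∧ ∀ n, n < k → ψ (y n (f n)) ∈ 𝒲 := by
      intro k
      induction k with
      | zero => exact ⟨𝒲₀, hW₀, le_rfl, fun n hn => absurd hn (Nat.not_lt_zero _)⟩
      | succ k ih =>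
        obtain ⟨𝒲, hW, hle, h5⟩ := ih
        obtain ⟨𝒱, hV, h6⟩ := mem_of_isLUB hs (h2 k (f k) le_rfl)
        obtain ⟨𝒵, hZ, hWZ, hVZ⟩ := hD 𝒲 hW 𝒱 hV
        refine ⟨𝒵, hZ, hle.trans hWZ, fun n hn => ?_⟩
        rcases Nat.lt_succ_iff_lt_or_eq.mp hn with h | h
        · exact hWZ (h5 n h)
        · rw [h]; exact hVZ h6
    obtain ⟨𝒲, hW, hle, h5⟩ := h4 (N + 1)
    obtain ⟨w1, w2, _, _⟩ := isOpen_def.mp (𝒲.isOpen.preimage hψ)
    have hcol : ∀ n, ∃ m, y n m ∈ ψ ⁻¹' (𝒲 : Set T) := w2 0 (f 0) (h5 0 (Nat.succ_pos _))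
    choose c hc using hcol
    refine ⟨𝒲, hW, fun n => if n < N + 1 then f n else c n, ?_, ?_⟩
    · refine hle (hN _ fun n hn => ?_)
      rw [if_pos (by omega)]
    · intro n m hm
      change (if n < N + 1 then f n else c n) ≤ m at hm
      split_ifs at hm with h
      · exact w1 n _ (h5 n h) m hm
      · exact w1 n _ (hc n) m hm

end Sp

end Pool.Agent.Q150.CoCon
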