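import Mathlib
import Pool.Agent.Helper639.AL

open Set Topology Filter
open Pool.Agent.Helper639.Ebl

set_option autoImplicit false

namespace Pool.Agent.Q150.EbCC

variable {X : Type} [TopologicalSpace X]

/-- countable compactness of a set of functions, by open covers -/
def CC (K : Set (X → ℝ)) : Prop :=
  ∀ U : ℕ → Set (X → ℝ), (∀ n, IsOpen (U n)) → K ⊆ ⋃ n, U n → ∃ N : ℕ, K ⊆ ⋃ n ∈ Finset.range N, U n

/-- boundedness of a subset in `X` -/
def Bdd (A : Set X) : Prop := ∀ f : X → ℝ, Continuous f → ∃ C : ℝ, ∀ x ∈ A, |f x| ≤ C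

theorem CC.cluster {K : Set (X → ℝ)} (h : CC K) (f : ℕ → X → ℝ) (hf : ∀ n, f n ∈ K) :
    ∃ g ∈ K, MapClusterPt g atTop f := by
  by_contra hcon
  push Not at hcon
  have h1 : K ⊆ ⋃ n, (closure (f '' Ici n))ᶜ := by
    intro g hg
    by_contra hg2
    simp only [mem_iUnion, mem_compl_iff, not_exists, not_not] at hg2
    refine hcon g hg ?_
    rw [mapClusterPt_iff_frequently]
    intro s hs
    rw [frequently_atTop]
    intro n
    obtain ⟨z, hz1, i, hi, hz2⟩ := mem_closure_iff_nhds.mp (hg2 n) s hs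
    exact ⟨i, hi, hz2 ▸ hz1⟩
  obtain ⟨N, hN⟩ := h _ (fun n => isClosed_closure.isOpen_compl) h1
  obtain ⟨n, hn⟩ := mem_iUnion.mp (hN (hf N))
  simp only [Finset.mem_range, mem_iUnion, mem_compl_iff, exists_prop] at hn
  exact hn.2 (subset_closure ⟨N, hn.1.le, rfl⟩)

theorem cluster_eq {Y : Type*} [TopologicalSpace Y] [T2Space Y] {u : ℕ → Y} {x y : Y}
    (h1 : MapClusterPt x atTop u) (h2 : Tendsto u atTop (𝓝 y)) : x = y := by
  have h3 : (𝓝 x ⊓ 𝓝 y).NeBot := by
    have : (𝓝 x ⊓ map u atTop).NeBot := h1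
    exact this.mono (inf_le_inf_left _ h2)
  exact eq_of_nhds_neBot h3

theorem Bdd.exists_limit {A : Set X} (hA : Bdd A) (φ : X → ℕ → ℝ) (hφ : Continuous φ) (a : ℕ → X)
    (ha : ∀ j, a j ∈ A) (c : ℕ → ℝ) (hc : Tendsto (fun j => φ (a j)) atTop (𝓝 c)) :
    ∃ x, φ x = c := by
  by_contra hcon
  push Not at hcon
  letI : MetricSpace (ℕ → ℝ) := TopologicalSpace.metrizableSpaceMetric (ℕ → ℝ)
  have hpos : ∀ x, 0 < dist (φ x) c := fun x => dist_pos.mpr (hcon x)
  have hcont : Continuous (fun x => (dist (φ x) c)⁻¹) :=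
    (hφ.dist continuous_const).inv₀ (fun x => (hpos x).ne')
  obtain ⟨C, hC⟩ := hA _ hcont
  have hlim : Tendsto (fun j => dist (φ (a j)) c) atTop (𝓝 0) := by
    have := hc.dist (tendsto_const_nhds (x := c))
    simpa using this
  have hC0 : 0 < C + 1 := by
    have := hC (a 0) (ha 0)
    have h2 := abs_nonneg ((dist (φ (a 0)) c)⁻¹)
    linarith
  have hev : ∀ᶠ j in atTop, dist (φ (a j)) c < (C + 1)⁻¹ :=
    hlim.eventually (gt_mem_nhds (by positivity))
  obtain ⟨j, hj⟩ := hev.exists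
  have h1 := hC (a j) (ha j)
  rw [abs_of_pos (by have := hpos (a j); positivity)] at h1
  have h2 : C + 1 < (dist (φ (a j)) c)⁻¹ := by
    rw [lt_inv_comm₀ hC0 (hpos _)]
    exact hj
  linarith

/-- the restriction map, squashed -/
noncomputable def rr (A : Set X) (f : X → ℝ) : A → ℝ := fun a => Helper639.Ebl.sq (f a.1)

theorem rr_continuous (A : Set X) : Continuous (rr A) :=
  continuous_pi fun a => sq_continuous.comp (continuous_apply a.1)

/-- the compact space of (limits of) restrictions -/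
def LL (K : Set (X → ℝ)) (A : Set X) : Set (A → ℝ) := closure (rr A '' K)

theorem LL_sub (K : Set (X → ℝ)) (A : Set X) : LL K A ⊆ Set.pi univ (fun _ => Icc (-1 : ℝ) 1) := by
  refine closure_minimal ?_ (isClosed_set_pi fun _ _ => isClosed_Icc)
  rintro _ ⟨f, -, rfl⟩ a -
  have := abs_le.mp (sq_le_one (f a.1))
  exact ⟨this.1, this.2⟩

theorem LL_compact (K : Set (X → ℝ)) (A : Set X) : IsCompact (LL K A) :=
  (isCompact_univ_pi fun _ => isCompact_Icc).of_isClosed_subset isClosed_closure (LL_sub K A)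

/-- evaluations on `LL` -/
def ev (K : Set (X → ℝ)) (A : Set X) (a : A) : LL K A → ℝ := fun l => l.1 a

/-- the compact space of (limits of) evaluations -/
def FF (K : Set (X → ℝ)) (A : Set X) : Set (LL K A → ℝ) := closure (range (ev K A))

theorem FF_compact (K : Set (X → ℝ)) (A : Set X) : IsCompact (FF K A) := by
  refine (isCompact_univ_pi (fun _ => isCompact_Icc (a := (-1 : ℝ)) (b := 1))).of_isClosed_subset
    isClosed_closure ?_
  refine closure_minimal ?_ (isClosed_set_pi fun _ _ => isClosed_Icc)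
  rintro _ ⟨a, rfl⟩ l -
  exact LL_sub K A l.2 a (mem_univ _)

theorem FF_continuous {K : Set (X → ℝ)} {A : Set X} (hKc : ∀ f ∈ K, Continuous f) (hK : CC K) (hA : Bdd A)
    (g : LL K A → ℝ) (hg : g ∈ FF K A) : Continuous g := by
  -- the dense subset
  let D : Set (LL K A) := {l | l.1 ∈ rr A '' K}
  have hD : Dense D := by
    intro l
    rw [mem_closure_iff_nhds]
    intro t ht
    obtain ⟨u, hu, hut⟩ := mem_nhds_subtype _ _ _ |>.mp ht
    obtain ⟨z, hz1, hz2⟩ := mem_closure_iff_nhds.mp l.2 u hu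
    exact ⟨⟨z, subset_closure hz2⟩, hut hz1, hz2⟩
  have key : ∀ l : LL K A, Tendsto (fun d : D => g d.1) (comap Subtype.val (𝓝 l)) (𝓝 (g l)) := by
    intro l
    by_contra hcon
    obtain ⟨ε, hε, hbad⟩ : ∃ ε > 0, ∀ U ∈ 𝓝 l, ∃ d ∈ D, d ∈ U ∧ ε ≤ |g d - g l| := by
      by_contra hno
      push Not at hno
      refine hcon ?_
      rw [Metric.tendsto_nhds]
      intro ε hε
      obtain ⟨U, hU, hU2⟩ := hno ε hε
      refine Filter.mem_of_superset (preimage_mem_comap hU) ?_
      intro d hd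
      exact hU2 d.1 d.2 hd
    -- inductive construction
    let P : ℕ × A × K → Prop := fun p =>
      |l.1 p.2.1 - g l| < 1 / ((p.1 : ℝ) + 1) ∧
      ε ≤ |g ⟨rr A p.2.2.1, subset_closure ⟨_, p.2.2.2, rfl⟩⟩ - g l| ∧
      |rr A p.2.2.1 p.2.1 - l.1 p.2.1| < 1 / ((p.1 : ℝ) + 1)
    let R : ℕ × A × K → ℕ × A × K → Prop := fun p q =>
      p.1 < q.1 ∧
      |rr A p.2.2.1 q.2.1 - g ⟨rr A p.2.2.1, subset_closure ⟨_, p.2.2.2, rfl⟩⟩| < 1 / ((q.1 : ℝ) + 1) ∧
      |rr A q.2.2.1 p.2.1 - l.1 p.2.1| < 1 / ((q.1 : ℝ) + 1)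
    have hstep : ∀ s : Finset (ℕ × A × K), (∀ x ∈ s, P x) → ∃ y, P y ∧ ∀ x ∈ s, R x y := by
      classical
      intro s _
      obtain ⟨k, hk⟩ : ∃ k : ℕ, ∀ p ∈ s, p.1 < k := by
        refine ⟨s.sup (fun p => p.1) + 1, fun p hp => ?_⟩
        exact Nat.lt_succ_of_le (Finset.le_sup (f := fun p : ℕ × A × K => p.1) hp)
      have hkpos : (0 : ℝ) < 1 / ((k : ℝ) + 1) := by positivity
      -- choose b
      let T : Set (LL K A) := insert l ((fun p : ℕ × A × K =>
        (⟨rr A p.2.2.1, subset_closure ⟨_, p.2.2.2, rfl⟩⟩ : LL K A)) '' (s : Set (ℕ × A × K)))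
      have hTfin : T.Finite := ((s.finite_toSet).image _).insert _
      have hnb : {g' : LL K A → ℝ | ∀ t ∈ T, |g' t - g t| < 1 / ((k : ℝ) + 1)} ∈ 𝓝 g := by
        have : {g' : LL K A → ℝ | ∀ t ∈ T, |g' t - g t| < 1 / ((k : ℝ) + 1)} =
            ⋂ t ∈ T, {g' : LL K A → ℝ | |g' t - g t| < 1 / ((k : ℝ) + 1)} := by
          ext; simp
        rw [this, biInter_mem hTfin]
        intro t ht
        have hc : ContinuousAt (fun g' : LL K A → ℝ => |g' t - g t|) g :=
          (((continuous_apply t).sub continuous_const).abs).continuousAt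
        exact hc.eventually (gt_mem_nhds (by simpa using hkpos))
      obtain ⟨_, hb1, b, rfl⟩ := mem_closure_iff_nhds.mp hg _ hnb
      -- choose d
      let S : Set A := insert b ((fun p : ℕ × A × K => p.2.1) '' (s : Set (ℕ × A × K)))
      have hSfin : S.Finite := ((s.finite_toSet).image _).insert _
      have hnb2 : {l' : LL K A | ∀ a ∈ S, |l'.1 a - l.1 a| < 1 / ((k : ℝ) + 1)} ∈ 𝓝 l := by
        have : {l' : LL K A | ∀ a ∈ S, |l'.1 a - l.1 a| < 1 / ((k : ℝ) + 1)} =
            ⋂ a ∈ S, {l' : LL K A | |l'.1 a - l.1 a| < 1 / ((k : ℝ) + 1)} := by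
          ext; simp
        rw [this, biInter_mem hSfin]
        intro t ht
        have hc : ContinuousAt (fun l' : LL K A => |l'.1 t - l.1 t|) l :=
          ((((continuous_apply t).comp continuous_subtype_val).sub continuous_const).abs).continuousAt
        exact hc.eventually (gt_mem_nhds (by simpa using hkpos))
      obtain ⟨⟨_, hdL⟩, ⟨f', hf', rfl⟩, hd2, hd3⟩ := hbad _ hnb2
      refine ⟨(k, b, ⟨f', hf'⟩), ⟨?_, hd3, ?_⟩, ?_⟩
      · exact hb1 l (mem_insert _ _)
      · exact hd2 b (mem_insert _ _)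
      · intro p hp
        refine ⟨hk p hp, ?_, ?_⟩
        · exact hb1 _ (mem_insert_of_mem _ ⟨p, hp, rfl⟩)
        · exact hd2 _ (mem_insert_of_mem _ ⟨p, hp, rfl⟩)
    obtain ⟨q, hq1, hq2⟩ := exists_seq_of_forall_finset_exists P R hstep
    have hmono : StrictMono (fun n => (q n).1) := fun m n hmn => (hq2 m n hmn).1
    have hlim0 : Tendsto (fun n => 1 / (((q n).1 : ℝ) + 1)) atTop (𝓝 0) :=
      (tendsto_one_div_add_atTop_nhds_zero_nat (𝕜 := ℝ)).comp hmono.tendsto_atTop
    set a : ℕ → A := fun n => (q n).2.1 with ha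
    set f : ℕ → X → ℝ := fun n => (q n).2.2.1 with hf
    have hfK : ∀ n, f n ∈ K := fun n => (q n).2.2.2
    -- cluster point
    obtain ⟨F, hFK, hF⟩ := hK.cluster f hfK
    have hFa : ∀ m, Helper639.Ebl.sq (F (a m).1) = l.1 (a m) := by
      intro m
      have h1 : MapClusterPt (Helper639.Ebl.sq (F (a m).1)) atTop (fun n => Helper639.Ebl.sq (f n (a m).1)) := by
        have hc : Continuous (fun F : X → ℝ => Helper639.Ebl.sq (F (a m).1)) :=
          sq_continuous.comp (continuous_apply _)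
        exact MapClusterPt.continuousAt_comp (f := fun F : X → ℝ => Helper639.Ebl.sq (F (a m).1))
          (hc.continuousAt (x := F)) hF
      refine cluster_eq h1 ?_
      rw [tendsto_iff_dist_tendsto_zero]
      refine squeeze_zero' (Eventually.of_forall fun _ => dist_nonneg) ?_ hlim0
      filter_upwards [eventually_gt_atTop m] with n hn
      exact (hq2 m n hn).2.2.le
    let φ : X → ℕ → ℝ := fun x n => Nat.casesOn n (Helper639.Ebl.sq (F x)) (fun m => Helper639.Ebl.sq (f m x))
    have hφ : Continuous φ := by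
      refine continuous_pi fun n => ?_
      cases n with
      | zero => exact sq_continuous.comp (hKc F hFK)
      | succ m => exact sq_continuous.comp (hKc (f m) (hfK m))
    let c : ℕ → ℝ := fun n => Nat.casesOn n (g l) (fun m => g ⟨rr A (f m), subset_closure ⟨_, hfK m, rfl⟩⟩)
    have hlim : Tendsto (fun j => φ (a j).1) atTop (𝓝 c) := by
      rw [tendsto_pi_nhds]
      intro n
      cases n with
      | zero =>
        have : (fun j => φ (a j).1 0) = fun j => l.1 (a j) := by
          funext j; exact hFa j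
        rw [this, tendsto_iff_dist_tendsto_zero]
        refine squeeze_zero' (Eventually.of_forall fun _ => dist_nonneg) ?_ hlim0
        exact Eventually.of_forall fun n => (hq1 n).1.le
      | succ m =>
        rw [tendsto_iff_dist_tendsto_zero]
        refine squeeze_zero' (Eventually.of_forall fun _ => dist_nonneg) ?_ hlim0
        filter_upwards [eventually_gt_atTop m] with n hn
        exact (hq2 m n hn).2.1.le
    obtain ⟨x, hx⟩ := hA.exists_limit φ hφ (fun j => (a j).1) (fun j => (a j).2) c hlim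
    have hx0 : Helper639.Ebl.sq (F x) = g l := congrFun hx 0
    have hxm : ∀ m, Helper639.Ebl.sq (f m x) = g ⟨rr A (f m), subset_closure ⟨_, hfK m, rfl⟩⟩ := fun m => congrFun hx (m + 1)
    have h1 : MapClusterPt (Helper639.Ebl.sq (F x)) atTop (fun n => Helper639.Ebl.sq (f n x)) := by
      have hc : Continuous (fun F : X → ℝ => Helper639.Ebl.sq (F x)) := sq_continuous.comp (continuous_apply _)
      exact MapClusterPt.continuousAt_comp (f := fun F : X → ℝ => Helper639.Ebl.sq (F x))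
        (hc.continuousAt (x := F)) hF
    rw [mapClusterPt_iff_frequently] at h1
    obtain ⟨n, hn⟩ := (h1 _ (Metric.ball_mem_nhds _ hε)).exists
    rw [Metric.mem_ball, Real.dist_eq, hxm, hx0] at hn
    exact absurd (hq1 n).2.1 (not_le.mpr hn)
  have hdi : IsDenseInducing (Subtype.val : D → LL K A) :=
    ⟨IsInducing.subtypeVal, by simpa [DenseRange] using hD⟩
  have h1 : Continuous (hdi.extend (fun d : D => g d.1)) := hdi.continuous_extend fun b => ⟨g b, key b⟩
  have h2 : hdi.extend (fun d : D => g d.1) = g := by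
    funext b
    exact hdi.extend_eq_of_tendsto (key b)
  rw [← h2]
  exact h1

/-- for a bounded set `A`, the restrictions to `A` embed in an Eberlein compact space -/
theorem exists_c0 {K : Set (X → ℝ)} {A : Set X} (hKc : ∀ f ∈ K, Continuous f) (hK : CC K) (hA : Bdd A) :
    ∃ (Γ : Type) (h : LL K A → Γ → ℝ), C0 h ∧ Function.Injective h := by
  haveI : CompactSpace (LL K A) := isCompact_iff_compactSpace.mp (LL_compact K A)
  haveI : CompactSpace (FF K A) := isCompact_iff_compactSpace.mp (FF_compact K A)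
  refine al (K := LL K A) (F := FF K A) (fun l g => g.1 l) ?_ ?_ ?_
  · intro g
    exact FF_continuous hKc hK hA g.1 g.2
  · intro l
    exact (continuous_apply l).comp continuous_subtype_val
  · intro x y hxy
    apply Subtype.ext
    funext a
    exact hxy ⟨ev K A a, subset_closure ⟨a, rfl⟩⟩

theorem main {A : ℕ → Set X} (hA : ∀ n, Bdd (A n)) (hd : Dense (⋃ n, A n)) {K : Set (X → ℝ)}
    (hKc : ∀ f ∈ K, Continuous f) (hK : CC K) :
    IsCompact K ∧ ∃ (Γ : Type) (e : K → (Γ → ℝ)), Topology.IsEmbedding e ∧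
      ∀ k : K, ∀ ε : ℝ, 0 < ε → {γ : Γ | ε ≤ |e k γ|}.Finite := by
  choose Γ h hC0 hinj using fun n => exists_c0 hKc hK (hA n)
  haveI : ∀ n, CompactSpace (LL K (A n)) := fun n => isCompact_iff_compactSpace.mp (LL_compact K (A n))
  let L := ∀ n, LL K (A n)
  have hv : ∀ n, C0 (fun (x : L) (γ : Γ n) => h n (x n) γ) := fun n =>
    ⟨fun γ => ((hC0 n).cont γ).comp (continuous_apply n), fun x γ => (hC0 n).bd _ _, fun x ε hε => (hC0 n).fin _ ε hε⟩
  have hE := C0.sigma hv
  set E : L → (Σ n, Γ n) → ℝ := fun (x : L) (p : Σ n, Γ n) => h p.1 (x p.1) p.2 / ((p.1 : ℝ) + 1) with hEdef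
  have hEc : Continuous E := continuous_pi fun p => hE.cont p
  have hEinj : Function.Injective E := by
    intro x y hxy
    funext n
    apply hinj n
    funext γ
    have h1 := congrFun hxy ⟨n, γ⟩
    simp only [hEdef] at h1
    have h2 : ((n : ℝ) + 1) ≠ 0 := by positivity
    exact (div_left_inj' h2).mp h1
  let r : K → L := fun f n => ⟨rr (A n) f.1, subset_closure ⟨_, f.2, rfl⟩⟩
  have hr : Continuous r := by
    refine continuous_pi fun n => ?_
    exact Continuous.subtype_mk ((rr_continuous (A n)).comp continuous_subtype_val) _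
  have hrinj : Function.Injective r := by
    intro f g hfg
    apply Subtype.ext
    refine Continuous.ext_on hd (hKc _ f.2) (hKc _ g.2) ?_
    intro x hx
    obtain ⟨n, hn⟩ := mem_iUnion.mp hx
    have h1 := congrArg Subtype.val (congrFun hfg n)
    have h2 := congrFun h1 ⟨x, hn⟩
    exact sq_inj h2
  set e : K → (Σ n, Γ n) → ℝ := fun k => E (r k) with he
  have hec : Continuous e := hEc.comp hr
  have heinj : Function.Injective e := hEinj.comp hrinj
  have hefin : ∀ k : K, ∀ ε : ℝ, 0 < ε → {γ | ε ≤ |e k γ|}.Finite := fun k ε hε => hE.fin (r k) ε hε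
  -- closedness
  have hcl : ∀ C : Set K, IsClosed C → ∀ y : (Σ n, Γ n) → ℝ, (∀ ε : ℝ, 0 < ε → {γ | ε ≤ |y γ|}.Finite) →
      y ∈ closure (e '' C) → y ∈ e '' C := by
    intro C hC y hy hycl
    let P : ℕ × K → Prop := fun p => p.2 ∈ C ∧
      ∀ γ, 1 / ((p.1 : ℝ) + 1) ≤ |y γ| → |e p.2 γ - y γ| < 1 / ((p.1 : ℝ) + 1)
    let R : ℕ × K → ℕ × K → Prop := fun p q => p.1 < q.1 ∧
      ∀ γ, 1 / ((q.1 : ℝ) + 1) ≤ |e p.2 γ| → |e q.2 γ - y γ| < 1 / ((q.1 : ℝ) + 1)
    have hstep : ∀ s : Finset (ℕ × K), (∀ x ∈ s, P x) → ∃ y, P y ∧ ∀ x ∈ s, R x y := by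
      classical
      intro s _
      obtain ⟨k, hk⟩ : ∃ k : ℕ, ∀ p ∈ s, p.1 < k := by
        refine ⟨s.sup (fun p => p.1) + 1, fun p hp => ?_⟩
        exact Nat.lt_succ_of_le (Finset.le_sup (f := fun p : ℕ × K => p.1) hp)
      have hkpos : (0 : ℝ) < 1 / ((k : ℝ) + 1) := by positivity
      let T : Set (Σ n, Γ n) := {γ | 1 / ((k : ℝ) + 1) ≤ |y γ|} ∪ ⋃ p ∈ s, {γ | 1 / ((k : ℝ) + 1) ≤ |e p.2 γ|}
      have hTfin : T.Finite := (hy _ hkpos).union (s.finite_toSet.biUnion fun p _ => hefin p.2 _ hkpos)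
      have hnb : {z : (Σ n, Γ n) → ℝ | ∀ t ∈ T, |z t - y t| < 1 / ((k : ℝ) + 1)} ∈ 𝓝 y := by
        have : {z : (Σ n, Γ n) → ℝ | ∀ t ∈ T, |z t - y t| < 1 / ((k : ℝ) + 1)} =
            ⋂ t ∈ T, {z : (Σ n, Γ n) → ℝ | |z t - y t| < 1 / ((k : ℝ) + 1)} := by
          ext; simp
        rw [this, biInter_mem hTfin]
        intro t ht
        have hc : ContinuousAt (fun z : (Σ n, Γ n) → ℝ => |z t - y t|) y :=
          (((continuous_apply t).sub continuous_const).abs).continuousAt
        exact hc.eventually (gt_mem_nhds (by simpa using hkpos))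
      obtain ⟨_, hb1, c, hcC, rfl⟩ := mem_closure_iff_nhds.mp hycl _ hnb
      refine ⟨(k, c), ⟨hcC, fun γ hγ => hb1 γ (Or.inl hγ)⟩, fun p hp => ⟨hk p hp, fun γ hγ => ?_⟩⟩
      exact hb1 γ (Or.inr (mem_biUnion hp hγ))
    obtain ⟨q, hq1, hq2⟩ := exists_seq_of_forall_finset_exists P R hstep
    have hmono : StrictMono (fun n => (q n).1) := fun m n hmn => (hq2 m n hmn).1
    have hlim0 : Tendsto (fun n => 1 / (((q n).1 : ℝ) + 1)) atTop (𝓝 0) :=
      (tendsto_one_div_add_atTop_nhds_zero_nat (𝕜 := ℝ)).comp hmono.tendsto_atTop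
    obtain ⟨F, hFK, hF⟩ := hK.cluster (fun n => ((q n).2 : X → ℝ)) (fun n => (q n).2.2)
    have hF' : MapClusterPt (⟨F, hFK⟩ : K) atTop (fun n => (q n).2) := by
      rw [mapClusterPt_iff_frequently] at hF ⊢
      intro s hs
      obtain ⟨u, hu, hus⟩ := (mem_nhds_subtype _ _ _).mp hs
      exact (hF u hu).mono fun n hn => hus hn
    have hFC : (⟨F, hFK⟩ : K) ∈ C := by
      rw [← hC.closure_eq, mem_closure_iff_nhds]
      intro t ht
      rw [mapClusterPt_iff_frequently] at hF'
      obtain ⟨n, hn⟩ := (hF' t ht).exists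
      exact ⟨_, hn, (hq1 n).1⟩
    refine ⟨⟨F, hFK⟩, hFC, ?_⟩
    have hlim : Tendsto (fun n => e (q n).2) atTop (𝓝 y) := by
      rw [tendsto_pi_nhds]
      intro γ
      rw [tendsto_iff_dist_tendsto_zero]
      by_cases hy0 : y γ = 0 ∧ ∀ n, e (q n).2 γ = 0
      · simp [hy0.1, hy0.2]
      · have hev : ∀ᶠ n in atTop, dist (e (q n).2 γ) (y γ) ≤ 1 / (((q n).1 : ℝ) + 1) := by
          by_cases hyz : y γ = 0
          · have : ∃ m, e (q m).2 γ ≠ 0 := by
              by_contra hno
              push Not at hno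
              exact hy0 ⟨hyz, hno⟩
            obtain ⟨m, hm⟩ := this
            have h1 : ∀ᶠ n in atTop, 1 / (((q n).1 : ℝ) + 1) < |e (q m).2 γ| :=
              hlim0.eventually (gt_mem_nhds (abs_pos.mpr hm))
            filter_upwards [h1, eventually_gt_atTop m] with n hn hmn
            exact ((hq2 m n hmn).2 γ hn.le).le
          · have h1 : ∀ᶠ n in atTop, 1 / (((q n).1 : ℝ) + 1) < |y γ| :=
              hlim0.eventually (gt_mem_nhds (abs_pos.mpr hyz))
            filter_upwards [h1] with n hn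
            exact ((hq1 n).2 γ hn.le).le
        exact squeeze_zero' (Eventually.of_forall fun _ => dist_nonneg) hev hlim0
    exact cluster_eq (MapClusterPt.continuousAt_comp hec.continuousAt hF') hlim
  have hind : IsInducing e := by
    rw [isInducing_iff]
    refine le_antisymm hec.le_induced ?_
    rw [TopologicalSpace.le_def]
    intro U hU
    refine isOpen_induced_iff.mpr ⟨(closure (e '' Uᶜ))ᶜ, isClosed_closure.isOpen_compl, ?_⟩
    ext k
    simp only [preimage_compl, mem_compl_iff, mem_preimage]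
    constructor
    · intro hk
      by_contra hkU
      exact hk (subset_closure ⟨k, hkU, rfl⟩)
    · intro hkU hk
      obtain ⟨c, hc, hck⟩ := hcl Uᶜ hU.isClosed_compl (e k) (hefin k) hk
      exact hc (heinj hck ▸ hkU)
  have hcpt : IsCompact (range e) := by
    have h1 : IsCompact (range E) := isCompact_range hEc
    refine h1.of_isClosed_subset ?_ ?_
    · rw [← image_univ, ← closure_subset_iff_isClosed]
      intro y hy
      have h2 : y ∈ range E := by
        have h3 : closure (e '' univ) ⊆ range E := by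
          refine closure_minimal ?_ h1.isClosed
          rintro _ ⟨k, -, rfl⟩
          exact ⟨r k, rfl⟩
        exact h3 hy
      obtain ⟨x, rfl⟩ := h2
      exact hcl univ isClosed_univ (E x) (fun ε hε => hE.fin x ε hε) hy
    · rintro _ ⟨k, rfl⟩
      exact ⟨r k, rfl⟩
  refine ⟨?_, _, e, ⟨hind, heinj⟩, hefin⟩
  rw [isCompact_iff_compactSpace, ← isCompact_univ_iff, hind.isCompact_iff, image_univ]
  exact hcpt

end Pool.Agent.Q150.EbCC
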