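import Mathlib

/-!
# Homogeneous non-Hausdorff manifolds: definitions
-/

set_option autoImplicit false

namespace Pool.Agent.Q150.HNH

/-- `NH z`: the points different from `z` that cannot be separated from `z` by open sets -/
def NH {M : Type} [TopologicalSpace M] (z : M) : Set M :=
  {y | y ≠ z ∧ ∀ U V : Set M, IsOpen U → IsOpen V → y ∈ U → z ∈ V → (U ∩ V).Nonempty}

/-- an `n`-manifold, not necessarily Hausdorff, second countable or paracompact: a connected space in
which every point has an open neighbourhood homeomorphic to `ℝⁿ` -/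
def IsManifold (n : ℕ) (M : Type) [TopologicalSpace M] : Prop :=
  ConnectedSpace M ∧
    ∀ x : M, ∃ U : Set M, IsOpen U ∧ x ∈ U ∧ Nonempty (U ≃ₜ EuclideanSpace ℝ (Fin n))

/-- homogeneity: every point can be moved to every point by a self-homeomorphism -/
def IsHomogeneous (M : Type) [TopologicalSpace M] : Prop :=
  ∀ x y : M, ∃ h : M ≃ₜ M, h x = y

/-- an HNH-`n`-manifold: a homogeneous non-Hausdorff `n`-manifold -/
def IsHNH (n : ℕ) (M : Type) [TopologicalSpace M] : Prop :=
  IsManifold n M ∧ IsHomogeneous M ∧ ¬ T2Space M

end Pool.Agent.Q150.HNH
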