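import Pool.Agent.Q150.FeatherFun
import Pool.Agent.Q150.HNHDefs

/-!
# Feather bundles: the space, its charts, its non-separated pairs
-/

set_option autoImplicit false
set_option linter.unusedSectionVars false

open Set Topology Filter

namespace Pool.Agent.Q150.Feather

section

variable {F : Type} [AddCommGroup F] [TopologicalSpace F]

/-- the points of the feather bundle -/
@[ext] structure Pt (ι : ℝ →+ F) where
  x : ℝ
  S : Finset ℝ
  y : F
  hS : ∀ s ∈ S, x ≤ s

/-- the accumulated twist -/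
noncomputable def H (A : Finset ℝ) (x : ℝ) : ℝ := ∑ a ∈ A, h (x - a)

theorem H_eq_zero {A : Finset ℝ} {x : ℝ} (hA : ∀ a ∈ A, x ≤ a) : H A x = 0 :=
  Finset.sum_eq_zero fun a ha => h_nonpos (by linarith [hA a ha])

variable (ι : ℝ →+ F)

/-- the chart with index `A` -/
noncomputable def chart (A : Finset ℝ) (q : ℝ × F) : Pt ι :=
  ⟨q.1, A.filter (q.1 ≤ ·), q.2 - ι (H A q.1), fun _ hs => (Finset.mem_filter.mp hs).2⟩

noncomputable instance : TopologicalSpace (Pt ι) :=
  ⨆ A : Finset ℝ, TopologicalSpace.coinduced (chart ι A) inferInstance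

theorem isOpen_iff {U : Set (Pt ι)} : IsOpen U ↔ ∀ A, IsOpen (chart ι A ⁻¹' U) := by
  rw [isOpen_iSup_iff]
  exact Iff.rfl

theorem chart_continuous (A : Finset ℝ) : Continuous (chart ι A) :=
  continuous_iff_coinduced_le.mpr (le_iSup (fun A => TopologicalSpace.coinduced (chart ι A) inferInstance) A)

theorem continuous_of_charts {Y : Type} [TopologicalSpace Y] {f : Pt ι → Y}
    (hf : ∀ A, Continuous (f ∘ chart ι A)) : Continuous f := by
  rw [continuous_def]
  intro U hU
  rw [isOpen_iff]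
  intro A
  exact hU.preimage (hf A)

theorem chart_injective (A : Finset ℝ) : Function.Injective (chart ι A) := by
  rintro ⟨x, y⟩ ⟨x', y'⟩ hxy
  have h1 : x = x' := congrArg Pt.x hxy
  subst h1
  have h2 : y - ι (H A x) = y' - ι (H A x) := congrArg Pt.y hxy
  rw [sub_left_inj] at h2
  rw [h2]

theorem filter_eq_iff {A B : Finset ℝ} {x : ℝ} :
    A.filter (x ≤ ·) = B.filter (x ≤ ·) ↔ ∀ c ∈ symmDiff A B, c < x := by
  constructor
  · intro h c hc
    by_contra hx
    rw [not_lt] at hx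
    rw [Finset.mem_symmDiff] at hc
    have := Finset.ext_iff.mp h c
    rw [Finset.mem_filter, Finset.mem_filter] at this
    tauto
  · intro h
    ext c
    rw [Finset.mem_filter, Finset.mem_filter]
    by_cases hc : c ∈ symmDiff A B
    · have := h c hc
      constructor <;> rintro ⟨_, h2⟩ <;> exact absurd this (not_lt.mpr h2)
    · rw [Finset.mem_symmDiff] at hc
      tauto

theorem isOpen_region (A B : Finset ℝ) : IsOpen {x : ℝ | ∀ c ∈ symmDiff A B, c < x} := by
  have : {x : ℝ | ∀ c ∈ symmDiff A B, c < x} = ⋂ c ∈ symmDiff A B, Ioi c := by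
    ext x
    simp
  rw [this]
  exact isOpen_biInter_finset fun c _ => isOpen_Ioi

theorem H_sub_continuousOn (A B : Finset ℝ) :
    ContinuousOn (fun x => H A x - H B x) {x | ∀ c ∈ symmDiff A B, c < x} := by
  intro x hx
  apply ContinuousAt.continuousWithinAt
  have e : (fun x => H A x - H B x) = fun x => ∑ a ∈ A \ B, h (x - a) - ∑ b ∈ B \ A, h (x - b) := by
    funext x
    exact Finset.sum_sdiff_sub_sum_sdiff.symm
  rw [e]
  have key : ∀ a, a < x → ContinuousAt (fun x => h (x - a)) x := by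
    intro a ha
    exact ContinuousAt.comp (f := fun x => x - a) (h_continuousAt (sub_ne_zero.mpr ha.ne'))
      (continuous_id.sub continuous_const).continuousAt
  apply ContinuousAt.sub
  · exact tendsto_finsetSum _ fun a ha => key a (hx a (Finset.mem_symmDiff.mpr (Or.inl (Finset.mem_sdiff.mp ha))))
  · exact tendsto_finsetSum _ fun a ha => key a (hx a (Finset.mem_symmDiff.mpr (Or.inr (Finset.mem_sdiff.mp ha))))

theorem chart_eq_iff {A B : Finset ℝ} {q r : ℝ × F} : chart ι A q = chart ι B r ↔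
    q.1 = r.1 ∧ (∀ c ∈ symmDiff A B, c < r.1) ∧ q.2 = r.2 + ι (H A r.1 - H B r.1) := by
  obtain ⟨x, y⟩ := q
  obtain ⟨x', y'⟩ := r
  rw [Pt.ext_iff]
  simp only [chart]
  constructor
  · rintro ⟨h1, h2, h3⟩
    subst h1
    refine ⟨rfl, filter_eq_iff.mp h2, ?_⟩
    rw [map_sub, ← sub_eq_iff_eq_add, sub_sub_eq_add_sub] at *
    rw [sub_eq_iff_eq_add] at h3
    rw [h3]
    abel
  · rintro ⟨h1, h2, h3⟩
    subst h1
    refine ⟨rfl, filter_eq_iff.mpr h2, ?_⟩
    rw [h3, map_sub]
    abel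

variable [IsTopologicalAddGroup F] {ι}

theorem chart_isOpenMap (hι : Continuous ι) (A : Finset ℝ) : IsOpenMap (chart ι A) := by
  intro V hV
  rw [isOpen_iff]
  intro B
  have hreg : IsOpen {r : ℝ × F | ∀ c ∈ symmDiff A B, c < r.1} := (isOpen_region A B).preimage continuous_fst
  have hcont : ContinuousOn (fun r : ℝ × F => ((r.1, r.2 + ι (H A r.1 - H B r.1)) : ℝ × F))
      {r : ℝ × F | ∀ c ∈ symmDiff A B, c < r.1} := by
    refine continuousOn_fst.prodMk (continuousOn_snd.add (hι.comp_continuousOn ?_))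
    exact (H_sub_continuousOn A B).comp continuousOn_fst fun r hr => hr
  have : chart ι B ⁻¹' (chart ι A '' V) = {r : ℝ × F | ∀ c ∈ symmDiff A B, c < r.1} ∩
      (fun r : ℝ × F => ((r.1, r.2 + ι (H A r.1 - H B r.1)) : ℝ × F)) ⁻¹' V := by
    ext r
    constructor
    · rintro ⟨q, hq, hqr⟩
      rw [chart_eq_iff] at hqr
      obtain ⟨h1, h2, h3⟩ := hqr
      refine ⟨h2, ?_⟩
      change ((r.1, r.2 + ι (H A r.1 - H B r.1)) : ℝ × F) ∈ V
      rw [← (Prod.ext h1 h3 : q = (r.1, r.2 + ι (H A r.1 - H B r.1)))]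
      exact hq
    · rintro ⟨h1, h2⟩
      exact ⟨_, h2, (chart_eq_iff ι).mpr ⟨rfl, h1, rfl⟩⟩
  rw [this]
  exact hcont.isOpen_inter_preimage hreg hV

theorem chart_isOpenEmbedding (hι : Continuous ι) (A : Finset ℝ) : IsOpenEmbedding (chart ι A) :=
  .of_continuous_injective_isOpenMap (chart_continuous ι A) (chart_injective ι A) (chart_isOpenMap hι A)

omit [TopologicalSpace F] [IsTopologicalAddGroup F] in
theorem chart_self (p : Pt ι) : chart ι p.S (p.x, p.y) = p := by
  apply Pt.ext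
  · rfl
  · exact Finset.filter_true_of_mem p.hS
  · change p.y - ι (H p.S p.x) = p.y
    rw [H_eq_zero p.hS, map_zero, sub_zero]

theorem x_continuous : Continuous (Pt.x : Pt ι → ℝ) :=
  continuous_of_charts ι fun _ => continuous_fst

/-- open sets around a point contain images of small open sets -/
theorem exists_box (hι : Continuous ι) {U : Set (Pt ι)} (hU : IsOpen U) {p : Pt ι} (hp : p ∈ U) :
    ∃ δ > 0, ∃ O : Set F, IsOpen O ∧ p.y ∈ O ∧ ∀ x y, |x - p.x| < δ → y ∈ O → chart ι p.S (x, y) ∈ U := by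
  have h1 : IsOpen (chart ι p.S ⁻¹' U) := hU.preimage (chart_continuous ι _)
  have h2 : (p.x, p.y) ∈ chart ι p.S ⁻¹' U := by
    rw [mem_preimage, chart_self]
    exact hp
  rw [isOpen_prod_iff] at h1
  obtain ⟨I, O, hI, hO, hxI, hyO, hIO⟩ := h1 _ _ h2
  obtain ⟨δ, hδ, hδI⟩ := Metric.isOpen_iff.mp hI _ hxI
  refine ⟨δ, hδ, O, hO, hyO, fun x y hx hy => hIO ⟨hδI ?_, hy⟩⟩
  rw [Metric.mem_ball, Real.dist_eq]
  exact hx

/-- separated by the base coordinate -/
theorem sep_of_x_ne {p q : Pt ι} (hpq : p.x ≠ q.x) :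
    ∃ U V : Set (Pt ι), IsOpen U ∧ IsOpen V ∧ p ∈ U ∧ q ∈ V ∧ Disjoint U V := by
  obtain ⟨U, V, hU, hV, hpU, hqV, hUV⟩ := t2_separation hpq
  exact ⟨Pt.x ⁻¹' U, Pt.x ⁻¹' V, hU.preimage x_continuous, hV.preimage x_continuous, hpU, hqV, hUV.preimage _⟩

theorem sep_of_S_eq [T2Space F] (hι : Continuous ι) {p q : Pt ι} (hpq : p ≠ q) (hS : p.S = q.S) :
    ∃ U V : Set (Pt ι), IsOpen U ∧ IsOpen V ∧ p ∈ U ∧ q ∈ V ∧ Disjoint U V := by
  have h1 : ((p.x, p.y) : ℝ × F) ≠ (q.x, q.y) := by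
    intro h
    apply hpq
    rw [← chart_self p, ← chart_self q, hS, h]
  obtain ⟨U, V, hU, hV, hpU, hqV, hUV⟩ := t2_separation h1
  refine ⟨chart ι p.S '' U, chart ι p.S '' V, chart_isOpenMap hι _ _ hU, chart_isOpenMap hι _ _ hV,
    ⟨_, hpU, chart_self p⟩, ⟨_, hqV, ?_⟩, ?_⟩
  · rw [hS]
    exact chart_self q
  · exact (disjoint_image_iff (chart_injective ι _)).mpr hUV

theorem sep_of_mem (hι : Continuous ι) {p q : Pt ι} {c : ℝ} (hc : c ∈ symmDiff p.S q.S) (hp : p.x < c)
    (hq : q.x < c) :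
    ∃ U V : Set (Pt ι), IsOpen U ∧ IsOpen V ∧ p ∈ U ∧ q ∈ V ∧ Disjoint U V := by
  have ho : IsOpen {r : ℝ × F | r.1 < c} := isOpen_lt continuous_fst continuous_const
  refine ⟨chart ι p.S '' {r | r.1 < c}, chart ι q.S '' {r | r.1 < c}, chart_isOpenMap hι _ _ ho,
    chart_isOpenMap hι _ _ ho, ⟨_, hp, chart_self p⟩, ⟨_, hq, chart_self q⟩, ?_⟩
  rw [Set.disjoint_left]
  rintro _ ⟨r, hr, rfl⟩ ⟨r', hr', he⟩
  rw [chart_eq_iff] at he
  have := he.2.1 c (by rwa [symmDiff_comm])
  have hr2 : r.1 < c := hr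
  linarith

/-- the non-separated pairs -/
theorem not_sep (hι : Continuous ι) (hd : DenseRange ι) {p q : Pt ι} (hx : p.x = q.x)
    (hS : p.S = insert p.x q.S) (hm : p.x ∉ q.S) {U V : Set (Pt ι)} (hU : IsOpen U) (hV : IsOpen V)
    (hp : p ∈ U) (hq : q ∈ V) : (U ∩ V).Nonempty := by
  obtain ⟨δ, hδ, O, hO, hyO, h1⟩ := exists_box hι hU hp
  obtain ⟨δ', hδ', O', hO', hyO', h2⟩ := exists_box hι hV hq
  have hopen : IsOpen {z : F | z + q.y ∈ O} := hO.preimage (continuous_id.add continuous_const)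
  obtain ⟨r, hr⟩ := hd.exists_mem_open hopen ⟨p.y - q.y, by
    change p.y - q.y + q.y ∈ O
    rwa [sub_add_cancel]⟩
  have hr' : ι r + q.y ∈ O := hr
  obtain ⟨u, hu0, hu1, hu⟩ := h_surj (lt_min hδ hδ') r
  have hu2 : u < δ := lt_of_lt_of_le hu1 (min_le_left _ _)
  have hu3 : u < δ' := lt_of_lt_of_le hu1 (min_le_right _ _)
  refine ⟨chart ι p.S (p.x + u, ι r + q.y), h1 _ _ ?_ hr', ?_⟩
  · rw [add_sub_cancel_left, abs_of_pos hu0]
    exact hu2
  · have h3 : chart ι p.S (p.x + u, ι r + q.y) = chart ι q.S (q.x + u, q.y) := by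
      rw [chart_eq_iff]
      refine ⟨by simp only [hx], ?_, ?_⟩
      · intro c hc
        simp only
        rw [hS, Finset.mem_symmDiff] at hc
        simp only [Finset.mem_insert] at hc
        have : c = p.x := by tauto
        rw [this, hx]
        linarith
      · simp only
        have h4 : H p.S (q.x + u) - H q.S (q.x + u) = r := by
          unfold H
          rw [hS, Finset.sum_insert hm, hx, add_sub_cancel_left, hu]
          ring
        rw [h4, add_comm]
    rw [h3]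
    apply h2 _ _ _ hyO'
    rw [add_sub_cancel_left, abs_of_pos hu0]
    exact hu3

end

open Pool.Agent.Q150.HNH

section

variable {F : Type} [AddCommGroup F] [TopologicalSpace F] [IsTopologicalAddGroup F] {ι : ℝ →+ F}

theorem toggle_ge (z : Pt ι) : ∀ s ∈ symmDiff z.S {z.x}, z.x ≤ s := by
  intro s hs
  rw [Finset.mem_symmDiff, Finset.mem_singleton] at hs
  rcases hs with ⟨h1, _⟩ | ⟨h1, _⟩
  · exact z.hS s h1
  · exact h1.ge

theorem chart_toggle (z : Pt ι) (y : F) : chart ι (symmDiff z.S {z.x}) (z.x, y) = ⟨z.x, symmDiff z.S {z.x}, y, toggle_ge z⟩ := by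
  apply Pt.ext
  · rfl
  · exact Finset.filter_true_of_mem (toggle_ge z)
  · change y - ι (H _ z.x) = y
    rw [H_eq_zero (toggle_ge z), map_zero, sub_zero]

theorem NH_eq [T2Space F] (hι : Continuous ι) (hd : DenseRange ι) (z : Pt ι) :
    NH z = range fun y : F => chart ι (symmDiff z.S {z.x}) (z.x, y) := by
  ext q
  constructor
  · rintro ⟨hne, hq⟩
    have nsep : ¬ ∃ U V : Set (Pt ι), IsOpen U ∧ IsOpen V ∧ q ∈ U ∧ z ∈ V ∧ Disjoint U V := by
      rintro ⟨U, V, hU, hV, hqU, hzV, hUV⟩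
      exact (hq U V hU hV hqU hzV).ne_empty hUV.inter_eq
    have hx : q.x = z.x := by
      by_contra h
      exact nsep (sep_of_x_ne h)
    have hS : q.S ≠ z.S := fun h => nsep (sep_of_S_eq hι hne h)
    have hB : q.S = symmDiff z.S {z.x} := by
      by_contra hB
      have : ∃ c ∈ symmDiff q.S z.S, c ≠ z.x := by
        by_contra hcon
        push Not at hcon
        have hsub : symmDiff q.S z.S ⊆ {z.x} := fun c hc => Finset.mem_singleton.mpr (hcon c hc)
        rcases Finset.subset_singleton_iff.mp hsub with h1 | h1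
        · exact hS (symmDiff_eq_bot.mp h1)
        · apply hB
          rw [← h1, symmDiff_comm q.S, symmDiff_symmDiff_cancel_left]
      obtain ⟨c, hc, hcz⟩ := this
      have hle : z.x ≤ c := by
        rw [Finset.mem_symmDiff] at hc
        rcases hc with ⟨h1, _⟩ | ⟨h1, _⟩
        · rw [← hx]
          exact q.hS c h1
        · exact z.hS c h1
      have hlt : z.x < c := lt_of_le_of_ne hle hcz.symm
      exact nsep (sep_of_mem hι hc (by rw [hx]; exact hlt) hlt)
    refine ⟨q.y, ?_⟩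
    change chart ι (symmDiff z.S {z.x}) (z.x, q.y) = q
    rw [chart_toggle]
    exact Pt.ext hx.symm hB.symm rfl
  · rintro ⟨y, rfl⟩
    change chart ι (symmDiff z.S {z.x}) (z.x, y) ∈ NH z
    rw [chart_toggle]
    have hne : symmDiff z.S {z.x} ≠ z.S := by
      intro h
      have := symmDiff_eq_left.mp h
      exact Finset.singleton_ne_empty _ this
    refine ⟨fun h => hne (congrArg Pt.S h), fun U V hU hV hyU hzV => ?_⟩
    by_cases hm : z.x ∈ z.S
    · rw [inter_comm]
      refine not_sep hι hd (p := z) (q := ⟨z.x, symmDiff z.S {z.x}, y, toggle_ge z⟩) rfl ?_ ?_ hV hU hzV hyU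
      · ext c
        simp only [Finset.mem_insert, Finset.mem_symmDiff, Finset.mem_singleton]
        constructor
        · intro hc
          by_cases h : c = z.x
          · exact Or.inl h
          · exact Or.inr (Or.inl ⟨hc, h⟩)
        · rintro (h | ⟨h, _⟩ | ⟨h, _⟩)
          · rwa [h]
          · exact h
          · rwa [h]
      · simp only [Finset.mem_symmDiff, Finset.mem_singleton]
        tauto
    · refine not_sep hι hd (p := ⟨z.x, symmDiff z.S {z.x}, y, toggle_ge z⟩) (q := z) rfl ?_ hm hU hV hyU hzV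
      ext c
      simp only [Finset.mem_insert, Finset.mem_symmDiff, Finset.mem_singleton]
      constructor
      · rintro (⟨h, _⟩ | ⟨h, _⟩)
        · exact Or.inr h
        · exact Or.inl h
      · rintro (h | h)
        · exact Or.inr ⟨h, by rwa [h]⟩
        · exact Or.inl ⟨h, fun h1 => hm (by rwa [← h1])⟩

theorem NH_homeo [T2Space F] (hι : Continuous ι) (hd : DenseRange ι) (z : Pt ι) :
    Nonempty (NH z ≃ₜ F) := by
  rw [NH_eq hι hd]
  have h1 : IsEmbedding fun y : F => ((z.x, y) : ℝ × F) := isEmbedding_prodMkRight z.x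
  have h2 := (chart_isOpenEmbedding hι (symmDiff z.S {z.x})).isEmbedding.comp h1
  exact ⟨h2.toHomeomorph.symm⟩

theorem connectedSpace [ConnectedSpace F] : ConnectedSpace (Pt ι) := by
  have hpre : ∀ A, IsPreconnected (range (chart ι A)) := fun A => isPreconnected_range (chart_continuous ι A)
  have : IsPreconnected (univ : Set (Pt ι)) := by
    apply isPreconnected_of_forall (⟨0, ∅, 0, by simp⟩ : Pt ι)
    intro p _
    refine ⟨range (chart ι ∅) ∪ range (chart ι p.S), subset_univ _, Or.inl ⟨(0, 0), ?_⟩,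
      Or.inr ⟨_, chart_self p⟩, ?_⟩
    · apply Pt.ext
      · rfl
      · rfl
      · change (0 : F) - ι (H ∅ 0) = 0
        rw [H_eq_zero (by simp), map_zero, sub_zero]
    · refine IsPreconnected.union' ?_ (hpre _) (hpre _)
      obtain ⟨x, hx⟩ : ∃ x : ℝ, ∀ c ∈ p.S, c < x := by
        obtain ⟨m, hm⟩ := p.S.exists_le
        exact ⟨m + 1, fun c hc => by linarith [hm c hc]⟩
      refine ⟨chart ι ∅ (x, 0), ⟨_, rfl⟩, ⟨(x, 0 + ι (H p.S x - H ∅ x)), ?_⟩⟩
      rw [chart_eq_iff]
      refine ⟨rfl, ?_, rfl⟩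
      intro c hc
      apply hx
      simpa [Finset.mem_symmDiff] using hc
  exact { isPreconnected_univ := this, toNonempty := ⟨⟨0, ∅, 0, by simp⟩⟩ }

theorem homeo_of_charts (hι : Continuous ι) (f : Pt ι → Pt ι) (hb : Function.Bijective f)
    (hf : ∀ A, ∃ B, ∃ Θ : ℝ × F ≃ₜ ℝ × F, ∀ q, f (chart ι A q) = chart ι B (Θ q)) :
    ∃ e : Pt ι ≃ₜ Pt ι, ∀ p, e p = f p := by
  have hc : Continuous f := continuous_of_charts ι fun A => by
    obtain ⟨B, Θ, h⟩ := hf A
    have : f ∘ chart ι A = chart ι B ∘ Θ := funext h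
    rw [this]
    exact (chart_continuous ι B).comp Θ.continuous
  have ho : IsOpenMap f := by
    intro U hU
    have : f '' U = ⋃ A : Finset ℝ, f '' (chart ι A '' (chart ι A ⁻¹' U)) := by
      ext q
      constructor
      · rintro ⟨p, hp, rfl⟩
        refine mem_iUnion.mpr ⟨p.S, _, ⟨(p.x, p.y), ?_, rfl⟩, by rw [chart_self]⟩
        rw [mem_preimage, chart_self]
        exact hp
      · intro hq
        obtain ⟨A, _, ⟨r, hr, rfl⟩, rfl⟩ := mem_iUnion.mp hq
        exact ⟨_, hr, rfl⟩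
    rw [this]
    apply isOpen_iUnion
    intro A
    obtain ⟨B, Θ, h⟩ := hf A
    have : f '' (chart ι A '' (chart ι A ⁻¹' U)) = chart ι B '' (Θ '' (chart ι A ⁻¹' U)) := by
      rw [← image_comp, ← image_comp]
      exact image_congr' h
    rw [this]
    exact chart_isOpenMap hι B _ (Θ.isOpenMap _ (hU.preimage (chart_continuous ι A)))
  exact ⟨(Equiv.ofBijective f hb).toHomeomorphOfContinuousOpen hc ho, fun p => rfl⟩

/-! ### translations -/

/-- vertical translation -/
def vt (c : F) (p : Pt ι) : Pt ι := ⟨p.x, p.S, p.y + c, p.hS⟩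

theorem vt_homeo (hι : Continuous ι) (c : F) : ∃ e : Pt ι ≃ₜ Pt ι, ∀ p, e p = vt c p := by
  apply homeo_of_charts hι
  · constructor
    · intro p q hpq
      have h1 : p.x = q.x := congrArg (Pt.x (ι := ι)) (a₁ := vt c p) (a₂ := vt c q) hpq
      have h2 : p.S = q.S := congrArg (Pt.S (ι := ι)) (a₁ := vt c p) (a₂ := vt c q) hpq
      have h3 : p.y + c = q.y + c := congrArg (Pt.y (ι := ι)) (a₁ := vt c p) (a₂ := vt c q) hpq
      exact Pt.ext h1 h2 (add_right_cancel h3)
    · intro p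
      exact ⟨⟨p.x, p.S, p.y - c, p.hS⟩, Pt.ext rfl rfl (sub_add_cancel _ _)⟩
  · intro A
    refine ⟨A, (Homeomorph.refl ℝ).prodCongr (Homeomorph.addRight c), fun q => ?_⟩
    apply Pt.ext
    · rfl
    · rfl
    · change q.2 - ι (H A q.1) + c = q.2 + c - ι (H A q.1)
      abel

/-- translating a finite set -/
def tS (t : ℝ) (S : Finset ℝ) : Finset ℝ := S.map (addRightEmbedding t)

theorem mem_tS {t : ℝ} {S : Finset ℝ} {s : ℝ} : s ∈ tS t S ↔ s - t ∈ S := by
  unfold tS
  rw [Finset.mem_map]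
  constructor
  · rintro ⟨a, ha, rfl⟩
    change a + t - t ∈ S
    rwa [add_sub_cancel_right]
  · intro h
    exact ⟨s - t, h, sub_add_cancel s t⟩

theorem H_tS (t : ℝ) (A : Finset ℝ) (x : ℝ) : H (tS t A) (x + t) = H A x := by
  unfold H tS
  rw [Finset.sum_map]
  apply Finset.sum_congr rfl
  intro a _
  change h (x + t - (a + t)) = h (x - a)
  congr 1
  ring

/-- horizontal translation -/
def ht (t : ℝ) (p : Pt ι) : Pt ι := ⟨p.x + t, tS t p.S, p.y, fun s hs => by
  have := p.hS _ (mem_tS.mp hs)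
  linarith⟩

theorem ht_homeo (hι : Continuous ι) (t : ℝ) : ∃ e : Pt ι ≃ₜ Pt ι, ∀ p, e p = ht t p := by
  apply homeo_of_charts hι
  · constructor
    · intro p q hpq
      have h1 : p.x + t = q.x + t := congrArg Pt.x hpq
      have h2 : tS t p.S = tS t q.S := congrArg Pt.S hpq
      have h3 : p.y = q.y := congrArg (Pt.y (ι := ι)) (a₁ := ht t p) (a₂ := ht t q) hpq
      exact Pt.ext (add_right_cancel h1) (Finset.map_injective _ h2) h3
    · intro p
      refine ⟨⟨p.x - t, tS (-t) p.S, p.y, fun s hs => ?_⟩, Pt.ext (sub_add_cancel _ _) ?_ rfl⟩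
      · have := p.hS _ (mem_tS.mp hs)
        linarith
      · change tS t (tS (-t) p.S) = p.S
        ext s
        rw [mem_tS, mem_tS, sub_neg_eq_add, sub_add_cancel]
  · intro A
    refine ⟨tS t A, (Homeomorph.addRight t).prodCongr (Homeomorph.refl F), fun q => ?_⟩
    apply Pt.ext
    · rfl
    · change tS t (A.filter (q.1 ≤ ·)) = (tS t A).filter (q.1 + t ≤ ·)
      ext s
      rw [mem_tS, Finset.mem_filter, Finset.mem_filter, mem_tS, le_sub_iff_add_le]
    · change q.2 - ι (H A q.1) = q.2 - ι (H (tS t A) (q.1 + t))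
      rw [H_tS]

/-! ### the toggle -/

/-- the fibrewise model of the toggle -/
def theta (σ : ℝ ≃ₜ ℝ) (τ : ℝ → F) (hτ : Continuous τ) : ℝ × F ≃ₜ ℝ × F where
  toFun q := (σ q.1, -q.2 + τ q.1)
  invFun q := (σ.symm q.1, -q.2 + τ (σ.symm q.1))
  left_inv q := by
    ext
    · simp
    · simp
  right_inv q := by
    ext
    · simp
    · simp
  continuous_toFun := by fun_prop
  continuous_invFun := by fun_prop

/-- image of a finite set under the reparametrisation -/
noncomputable def xS (S : Finset ℝ) : Finset ℝ := S.map xiIso.toEquiv.toEmbedding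

theorem mem_xS {S : Finset ℝ} {s : ℝ} : xiIso s ∈ xS S ↔ s ∈ S := Finset.mem_map' _

theorem xiIso_nonpos {x : ℝ} : xiIso x ≤ 0 ↔ x ≤ 0 := by
  rw [← xiIso_zero, xiIso.le_iff_le]
  rw [xiIso_zero]

theorem xiIso_eq_zero {x : ℝ} : xiIso x = 0 ↔ x = 0 := by
  constructor
  · intro h
    exact xiIso.injective (h.trans xiIso_zero.symm)
  · rintro rfl
    exact xiIso_zero

theorem zero_mem_xS {S : Finset ℝ} : (0 : ℝ) ∈ xS S ↔ (0 : ℝ) ∈ S := by
  have := mem_xS (S := S) (s := 0)
  rwa [xiIso_zero] at this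

/-- the toggle at zero -/
noncomputable def tog (p : Pt ι) : Pt ι :=
  ⟨xiIso p.x, if p.x ≤ 0 then symmDiff (xS p.S) {0} else xS p.S, -p.y - ι (h p.x), by
    intro s hs
    obtain ⟨s', rfl⟩ := xiIso.surjective s
    rw [xiIso.le_iff_le]
    split_ifs at hs with hx
    · rw [Finset.mem_symmDiff, mem_xS, Finset.mem_singleton, xiIso_eq_zero] at hs
      rcases hs with ⟨h1, _⟩ | ⟨h1, _⟩
      · exact p.hS _ h1
      · rwa [h1]
    · exact p.hS _ (mem_xS.mp hs)⟩

theorem H_tog_continuous (A : Finset ℝ) :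
    Continuous fun x => H A x - h x + H (symmDiff (xS A) {0}) (xiIso x) := by
  by_cases h0 : (0 : ℝ) ∈ A
  · have e1 : symmDiff (xS A) {0} = xS (A.erase 0) := by
      ext s
      obtain ⟨s', rfl⟩ := xiIso.surjective s
      rw [Finset.mem_symmDiff, mem_xS, mem_xS, Finset.mem_singleton, xiIso_eq_zero, Finset.mem_erase]
      constructor
      · rintro (⟨h1, h2⟩ | ⟨h1, h2⟩)
        · exact ⟨h2, h1⟩
        · exact absurd (by rwa [h1]) h2
      · rintro ⟨h1, h2⟩
        exact Or.inl ⟨h2, h1⟩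
    have e2 : (fun x => H A x - h x + H (symmDiff (xS A) {0}) (xiIso x)) =
        fun x => ∑ a ∈ A.erase 0, (h (xiIso x - xiIso a) + h (x - a)) := by
      funext x
      rw [e1]
      unfold H xS
      rw [Finset.sum_map, Finset.sum_add_distrib, ← Finset.add_sum_erase _ _ h0, sub_zero]
      change h x + ∑ a ∈ A.erase 0, h (x - a) - h x + ∑ a ∈ A.erase 0, h (xiIso x - xiIso a) = _
      ring
    rw [e2]
    exact continuous_finsetSum _ fun a ha => R_continuous (Finset.ne_of_mem_erase ha)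
  · have h0' : (0 : ℝ) ∉ xS A := fun h => h0 (zero_mem_xS.mp h)
    have e1 : symmDiff (xS A) {0} = insert 0 (xS A) := by
      ext s
      rw [Finset.mem_symmDiff, Finset.mem_singleton, Finset.mem_insert]
      constructor
      · tauto
      · rintro (h1 | h1)
        · exact Or.inr ⟨h1, by rwa [h1]⟩
        · exact Or.inl ⟨h1, fun h2 => h0' (by rwa [← h2])⟩
    have e2 : (fun x => H A x - h x + H (symmDiff (xS A) {0}) (xiIso x)) =
        fun x => (∑ a ∈ A, (h (xiIso x - xiIso a) + h (x - a))) + (h (xiIso x) - h x) := by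
      funext x
      rw [e1]
      unfold H
      rw [Finset.sum_insert h0', sub_zero]
      unfold xS
      rw [Finset.sum_map, Finset.sum_add_distrib]
      change ∑ a ∈ A, h (x - a) - h x + (h (xiIso x) + ∑ a ∈ A, h (xiIso x - xiIso a)) = _
      ring
    rw [e2]
    refine Continuous.add (continuous_finsetSum _ fun a ha => R_continuous ?_) D_continuous
    rintro rfl
    exact h0 ha

theorem tog_homeo (hι : Continuous ι) : ∃ e : Pt ι ≃ₜ Pt ι, ∀ p, e p = tog p := by
  apply homeo_of_charts hι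
  · constructor
    · intro p q hpq
      have h1 : xiIso p.x = xiIso q.x := congrArg Pt.x hpq
      have h1' : p.x = q.x := xiIso.injective h1
      have h2 : (if p.x ≤ 0 then symmDiff (xS p.S) {0} else xS p.S) =
        (if q.x ≤ 0 then symmDiff (xS q.S) {0} else xS q.S) := congrArg Pt.S hpq
      have h3 : -p.y - ι (h p.x) = -q.y - ι (h q.x) := congrArg Pt.y hpq
      rw [h1'] at h2 h3
      refine Pt.ext h1' ?_ (neg_injective (sub_left_injective h3))
      apply Finset.map_injective xiIso.toEquiv.toEmbedding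
      change xS p.S = xS q.S
      split_ifs at h2
      · exact symmDiff_left_injective _ h2
      · exact h2
    · intro p
      let x := xiIso.symm p.x
      have hx : xiIso x = p.x := xiIso.apply_symm_apply p.x
      let T : Finset ℝ := if p.x ≤ 0 then symmDiff p.S {0} else p.S
      let S : Finset ℝ := T.map xiIso.symm.toEquiv.toEmbedding
      have hS : ∀ s, s ∈ S ↔ xiIso s ∈ T := by
        intro s
        rw [Finset.mem_map]
        constructor
        · rintro ⟨a, ha, rfl⟩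
          change xiIso (xiIso.symm a) ∈ T
          rwa [xiIso.apply_symm_apply]
        · intro hs
          exact ⟨xiIso s, hs, xiIso.symm_apply_apply s⟩
      have hT : ∀ s ∈ T, p.x ≤ s := by
        intro s hs
        simp only [T] at hs
        split_ifs at hs with h0
        · rw [Finset.mem_symmDiff, Finset.mem_singleton] at hs
          rcases hs with ⟨h1, _⟩ | ⟨h1, _⟩
          · exact p.hS _ h1
          · rwa [h1]
        · exact p.hS _ hs
      refine ⟨⟨x, S, -p.y - ι (h x), ?_⟩, Pt.ext hx ?_ ?_⟩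
      · intro s hs
        rw [hS] at hs
        rw [← xiIso.le_iff_le, hx]
        exact hT _ hs
      · change (if x ≤ 0 then symmDiff (xS S) {0} else xS S) = p.S
        have hxS : xS S = T := by
          ext s
          obtain ⟨s', rfl⟩ := xiIso.surjective s
          rw [mem_xS, hS]
        rw [hxS]
        have h4 : x ≤ 0 ↔ p.x ≤ 0 := by rw [← xiIso_nonpos, hx]
        by_cases h0 : p.x ≤ 0
        · rw [if_pos (h4.mpr h0)]
          simp only [T]
          rw [if_pos h0, symmDiff_symmDiff_cancel_right]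
        · rw [if_neg (fun h => h0 (h4.mp h))]
          simp only [T]
          rw [if_neg h0]
      · change -(-p.y - ι (h x)) - ι (h x) = p.y
        abel
  · intro A
    refine ⟨symmDiff (xS A) {0}, theta xiIso.toHomeomorph
      (fun x => ι (H A x - h x + H (symmDiff (xS A) {0}) (xiIso x))) (hι.comp (H_tog_continuous A)), fun q => ?_⟩
    apply Pt.ext
    · rfl
    · change (if q.1 ≤ 0 then symmDiff (xS (A.filter (q.1 ≤ ·))) {0} else xS (A.filter (q.1 ≤ ·))) =
        (symmDiff (xS A) {0}).filter (xiIso q.1 ≤ ·)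
      ext s
      obtain ⟨s', rfl⟩ := xiIso.surjective s
      split_ifs with h0
      · rw [Finset.mem_filter, Finset.mem_symmDiff, Finset.mem_symmDiff, mem_xS, mem_xS, Finset.mem_filter,
          Finset.mem_singleton, xiIso_eq_zero, xiIso.le_iff_le]
        constructor
        · rintro (⟨⟨h1, h2⟩, h3⟩ | ⟨h1, h2⟩)
          · exact ⟨Or.inl ⟨h1, h3⟩, h2⟩
          · subst h1
            exact ⟨Or.inr ⟨rfl, fun h => h2 ⟨h, h0⟩⟩, h0⟩
        · rintro ⟨⟨h1, h2⟩ | ⟨h1, h2⟩, h3⟩
          · exact Or.inl ⟨⟨h1, h3⟩, h2⟩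
          · exact Or.inr ⟨h1, fun h => h2 h.1⟩
      · rw [Finset.mem_filter, Finset.mem_symmDiff, mem_xS, mem_xS, Finset.mem_filter,
          Finset.mem_singleton, xiIso_eq_zero, xiIso.le_iff_le]
        constructor
        · rintro ⟨h1, h2⟩
          refine ⟨Or.inl ⟨h1, fun h => h0 ?_⟩, h2⟩
          rwa [h] at h2
        · rintro ⟨⟨h1, h2⟩ | ⟨h1, h2⟩, h3⟩
          · exact ⟨h1, h3⟩
          · exact absurd (by rwa [h1] at h3) h0
    · change -(q.2 - ι (H A q.1)) - ι (h q.1) =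
        -q.2 + ι (H A q.1 - h q.1 + H (symmDiff (xS A) {0}) (xiIso q.1)) - ι (H (symmDiff (xS A) {0}) (xiIso q.1))
      rw [map_add, map_sub]
      abel

/-! ### homogeneity -/

/-- the base point -/
def base : Pt ι := ⟨0, ∅, 0, by simp⟩

theorem to_base (hι : Continuous ι) : ∀ (n : ℕ) (p : Pt ι), p.S.card = n → ∃ e : Pt ι ≃ₜ Pt ι, e p = base := by
  intro n
  induction n with
  | zero =>
    intro p hp
    obtain ⟨e1, h1⟩ := ht_homeo hι (-p.x)
    obtain ⟨e2, h2⟩ := vt_homeo hι (-p.y)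
    refine ⟨e1.trans e2, ?_⟩
    rw [Homeomorph.trans_apply, h1, h2]
    apply Pt.ext
    · exact add_neg_cancel _
    · change tS (-p.x) p.S = ∅
      rw [Finset.card_eq_zero.mp hp]
      rfl
    · exact add_neg_cancel _
  | succ n ih =>
    intro p hp
    obtain ⟨s, hs⟩ : p.S.Nonempty := by
      rw [← Finset.card_pos]
      omega
    obtain ⟨e1, h1⟩ := ht_homeo hι (-s)
    obtain ⟨e2, h2⟩ := tog_homeo hι
    have h0 : (0 : ℝ) ∈ (ht (-s) p).S := by
      change (0 : ℝ) ∈ tS (-s) p.S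
      rw [mem_tS]
      simpa using hs
    have hx : (ht (-s) p).x ≤ 0 := by
      change p.x + -s ≤ 0
      have := p.hS s hs
      linarith
    have hcard : (tog (ht (-s) p)).S.card = n := by
      change (if (ht (-s) p).x ≤ 0 then symmDiff (xS (ht (-s) p).S) {0} else xS (ht (-s) p).S).card = n
      rw [if_pos hx]
      have e1 : symmDiff (xS (ht (-s) p).S) {0} = (xS (ht (-s) p).S).erase 0 := by
        have h3 := zero_mem_xS.mpr h0
        ext c
        rw [Finset.mem_symmDiff, Finset.mem_singleton, Finset.mem_erase]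
        constructor
        · rintro (⟨h1, h2⟩ | ⟨h1, h2⟩)
          · exact ⟨h2, h1⟩
          · exact absurd (by rwa [h1]) h2
        · rintro ⟨h1, h2⟩
          exact Or.inl ⟨h2, h1⟩
      rw [e1, Finset.card_erase_of_mem (zero_mem_xS.mpr h0)]
      have : (xS (ht (-s) p).S).card = n + 1 := by
        change ((p.S.map _).map _).card = n + 1
        rw [Finset.card_map, Finset.card_map, hp]
      rw [this]
      rfl
    obtain ⟨e3, h3⟩ := ih _ hcard
    refine ⟨(e1.trans e2).trans e3, ?_⟩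
    rw [Homeomorph.trans_apply, Homeomorph.trans_apply, h1, h2, h3]

theorem homogeneous (hι : Continuous ι) (p q : Pt ι) : ∃ e : Pt ι ≃ₜ Pt ι, e p = q := by
  obtain ⟨e1, h1⟩ := to_base hι _ p rfl
  obtain ⟨e2, h2⟩ := to_base hι _ q rfl
  refine ⟨e1.trans e2.symm, ?_⟩
  rw [Homeomorph.trans_apply, h1, ← h2, e2.symm_apply_apply]

/-! ### locally Euclidean -/

theorem locallyEuclidean (hι : Continuous ι) {E : Type} [NormedAddCommGroup E] [NormedSpace ℝ E]
    [FiniteDimensional ℝ E] {k : ℕ} (hk : Module.finrank ℝ E = k)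
    (hF : ∀ y : F, ∃ O : Set F, IsOpen O ∧ y ∈ O ∧ Nonempty (O ≃ₜ E)) (p : Pt ι) :
    ∃ U : Set (Pt ι), IsOpen U ∧ p ∈ U ∧ Nonempty (U ≃ₜ EuclideanSpace ℝ (Fin (k + 1))) := by
  obtain ⟨O, hO, hyO, ⟨e⟩⟩ := hF p.y
  have hemb := chart_isOpenEmbedding hι p.S
  refine ⟨chart ι p.S '' (univ ×ˢ O), hemb.isOpenMap _ (isOpen_univ.prod hO),
    ⟨(p.x, p.y), ⟨mem_univ _, hyO⟩, chart_self p⟩, ?_⟩
  have e1 : (univ ×ˢ O : Set (ℝ × F)) ≃ₜ chart ι p.S '' (univ ×ˢ O) := hemb.isEmbedding.homeomorphImage _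
  have e2 : (univ ×ˢ O : Set (ℝ × F)) ≃ₜ ℝ × E :=
    (Homeomorph.Set.prod _ _).trans ((Homeomorph.Set.univ ℝ).prodCongr e)
  have hfr : Module.finrank ℝ (ℝ × E) = Module.finrank ℝ (EuclideanSpace ℝ (Fin (k + 1))) := by
    rw [Module.finrank_prod, finrank_euclideanSpace_fin, hk, Module.finrank_self, add_comm]
  have e3 : (ℝ × E) ≃ₜ EuclideanSpace ℝ (Fin (k + 1)) :=
    (ContinuousLinearEquiv.ofFinrankEq hfr).toHomeomorph
  exact ⟨e1.symm.trans (e2.trans e3)⟩

/-- the main construction -/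
theorem main [T2Space F] [ConnectedSpace F] (hι : Continuous ι) (hd : DenseRange ι) {E : Type}
    [NormedAddCommGroup E] [NormedSpace ℝ E] [FiniteDimensional ℝ E] {k : ℕ} (hk : Module.finrank ℝ E = k)
    (hF : ∀ y : F, ∃ O : Set F, IsOpen O ∧ y ∈ O ∧ Nonempty (O ≃ₜ E)) :
    ∃ (M : Type) (_ : TopologicalSpace M), IsHNH (k + 1) M ∧ ∀ z : M, Nonempty (NH z ≃ₜ F) := by
  refine ⟨Pt ι, inferInstance, ⟨⟨connectedSpace, locallyEuclidean hι hk hF⟩, homogeneous hι, ?_⟩, NH_homeo hι hd⟩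
  intro hT2
  obtain ⟨e⟩ := NH_homeo hι hd (base : Pt ι)
  obtain ⟨y, hy1, hy2⟩ := e.symm 0
  obtain ⟨U, V, hU, hV, hyU, hzV, hUV⟩ := t2_separation hy1
  exact (hy2 U V hU hV hyU hzV).ne_empty hUV.inter_eq

theorem circle_chart (y : AddCircle (1 : ℝ)) : ∃ O : Set (AddCircle (1 : ℝ)), IsOpen O ∧ y ∈ O ∧ Nonempty (O ≃ₜ ℝ) := by
  obtain ⟨a, ha⟩ : ∃ a : ℝ, y ≠ (a : AddCircle (1 : ℝ)) := by
    obtain ⟨b, rfl⟩ := QuotientAddGroup.mk_surjective y
    refine ⟨b + 1 / 2, fun h => ?_⟩
    have h1 := (QuotientAddGroup.eq).mp h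
    rw [AddSubgroup.mem_zmultiples_iff] at h1
    obtain ⟨n, hn⟩ := h1
    rw [zsmul_eq_mul, mul_one] at hn
    have h2 : (2 * n : ℝ) = 1 := by linarith
    have h3 : 2 * n = 1 := by exact_mod_cast h2
    omega
  obtain ⟨e1, hs, ht⟩ : ∃ e1 : OpenPartialHomeomorph ℝ ℝ, e1.source = univ ∧ e1.target = Ioo a (a + 1) := by
    refine ⟨OpenPartialHomeomorph.univBall (a + 1 / 2) (1 / 2), OpenPartialHomeomorph.univBall_source _ _, ?_⟩
    rw [OpenPartialHomeomorph.univBall_target _ (by norm_num), Real.ball_eq_Ioo]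
    congr 1 <;> ring
  obtain ⟨e2, hs2, ht2⟩ : ∃ e2 : OpenPartialHomeomorph ℝ (AddCircle (1 : ℝ)), e2.source = Ioo a (a + 1) ∧
      e2.target = {(a : AddCircle (1 : ℝ))}ᶜ := ⟨AddCircle.openPartialHomeomorphCoe (1 : ℝ) a, rfl, rfl⟩
  have f1 : e1.source ≃ₜ e1.target := e1.toHomeomorphSourceTarget
  have f2 : e2.source ≃ₜ e2.target := e2.toHomeomorphSourceTarget
  rw [hs, ht] at f1
  rw [hs2, ht2] at f2
  exact ⟨_, isOpen_compl_singleton, ha, ⟨(f1.trans f2).symm.trans (Homeomorph.Set.univ ℝ)⟩⟩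

end

end Pool.Agent.Q150.Feather
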