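import Mathlib

/-!
# Feather bundles: the oscillating function and the reparametrisation
-/

set_option autoImplicit false

open Set Topology Filter

namespace Pool.Agent.Q150.Feather

/-- the oscillating function in the logarithmic scale -/
noncomputable def g (s : ℝ) : ℝ := Real.sqrt s * Real.sin (Real.pi * s)

/-- the oscillating function -/
noncomputable def h (u : ℝ) : ℝ := if 0 < u then g (-Real.log u) else 0

theorem g_continuous : Continuous g :=
  Real.continuous_sqrt.mul (Real.continuous_sin.comp (continuous_const.mul continuous_id))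

theorem h_pos {u : ℝ} (hu : 0 < u) : h u = g (-Real.log u) := if_pos hu

theorem h_nonpos {u : ℝ} (hu : u ≤ 0) : h u = 0 := if_neg (not_lt.mpr hu)

theorem h_continuousAt {u : ℝ} (hu : u ≠ 0) : ContinuousAt h u := by
  rcases lt_or_gt_of_ne hu with h0 | h0
  · have : (fun _ => (0 : ℝ)) =ᶠ[𝓝 u] h := by
      filter_upwards [gt_mem_nhds h0] with x hx
      exact (h_nonpos hx.le).symm
    exact continuousAt_const.congr this
  · have : (fun x => g (-Real.log x)) =ᶠ[𝓝 u] h := by
      filter_upwards [lt_mem_nhds h0] with x hx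
      exact (h_pos hx).symm
    exact (g_continuous.continuousAt.comp (Real.continuousAt_log h0.ne').neg).congr this

theorem g_shift : Tendsto (fun s => g (s + 1) + g s) atTop (𝓝 0) := by
  have h1 : Tendsto (fun s : ℝ => 1 / Real.sqrt s) atTop (𝓝 0) :=
    tendsto_const_nhds.div_atTop (Real.tendsto_sqrt_atTop)
  refine squeeze_zero_norm' ?_ h1
  filter_upwards [eventually_gt_atTop 0] with s hs
  have h2 : g (s + 1) + g s = (Real.sqrt s - Real.sqrt (s + 1)) * Real.sin (Real.pi * s) := by
    unfold g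
    rw [mul_add, mul_one, Real.sin_add_pi]
    ring
  have hs0 : 0 < Real.sqrt s := Real.sqrt_pos.mpr hs
  have hs1 : Real.sqrt s ≤ Real.sqrt (s + 1) := Real.sqrt_le_sqrt (by linarith)
  have e1 : Real.sqrt s * Real.sqrt s = s := Real.mul_self_sqrt hs.le
  have e2 : Real.sqrt (s + 1) * Real.sqrt (s + 1) = s + 1 := Real.mul_self_sqrt (by linarith)
  rw [h2, Real.norm_eq_abs, abs_mul, abs_of_nonpos (by linarith)]
  have h3 : |Real.sin (Real.pi * s)| ≤ 1 := Real.abs_sin_le_one _
  have h4 : -(Real.sqrt s - Real.sqrt (s + 1)) ≤ 1 / Real.sqrt s := by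
    rw [le_div_iff₀ hs0]
    nlinarith
  have h5 : 0 ≤ -(Real.sqrt s - Real.sqrt (s + 1)) := by linarith
  calc -(Real.sqrt s - Real.sqrt (s + 1)) * |Real.sin (Real.pi * s)| ≤ -(Real.sqrt s - Real.sqrt (s + 1)) * 1 :=
        mul_le_mul_of_nonneg_left h3 h5
    _ ≤ _ := by rw [mul_one]; exact h4

theorem neg_log_tendsto : Tendsto (fun u : ℝ => -Real.log u) (𝓝[>] 0) atTop :=
  tendsto_neg_atBot_atTop.comp Real.tendsto_log_nhdsGT_zero

theorem h_scale_inv : Tendsto (fun u => h (Real.exp (-1) * u) + h u) (𝓝[>] 0) (𝓝 0) := by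
  refine (g_shift.comp neg_log_tendsto).congr' ?_
  filter_upwards [self_mem_nhdsWithin] with u hu
  have hu' : (0 : ℝ) < u := hu
  have e1 : -Real.log (Real.exp (-1) * u) = -Real.log u + 1 := by
    rw [Real.log_mul (Real.exp_ne_zero _) hu'.ne', Real.log_exp]; ring
  rw [h_pos hu', h_pos (by positivity), e1]
  rfl

theorem h_scale : Tendsto (fun u => h (Real.exp 1 * u) + h u) (𝓝[>] 0) (𝓝 0) := by
  have h1 : Tendsto (fun u : ℝ => -Real.log u - 1) (𝓝[>] 0) atTop :=
    tendsto_atTop_add_const_right _ (-1) neg_log_tendsto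
  refine (g_shift.comp h1).congr' ?_
  filter_upwards [self_mem_nhdsWithin] with u hu
  have hu' : (0 : ℝ) < u := hu
  have e1 : -Real.log (Real.exp 1 * u) = -Real.log u - 1 := by
    rw [Real.log_mul (Real.exp_ne_zero _) hu'.ne', Real.log_exp]; ring
  rw [h_pos hu', h_pos (by positivity), e1]
  simp only [Function.comp]
  rw [sub_add_cancel, add_comm]

theorem h_surj {δ : ℝ} (hδ : 0 < δ) (r : ℝ) : ∃ u, 0 < u ∧ u < δ ∧ h u = r := by
  obtain ⟨n, hn⟩ := exists_nat_gt (max (r ^ 2) (-Real.log δ))
  have hn1 : r ^ 2 < n := lt_of_le_of_lt (le_max_left _ _) hn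
  have hn2 : -Real.log δ < n := lt_of_le_of_lt (le_max_right _ _) hn
  have hn0 : (0 : ℝ) ≤ n := Nat.cast_nonneg n
  have e1 : g (2 * n + 1 / 2) = Real.sqrt (2 * n + 1 / 2) := by
    unfold g
    have : Real.pi * (2 * n + 1 / 2) = Real.pi / 2 + n * (2 * Real.pi) := by ring
    rw [this, Real.sin_add_nat_mul_two_pi, Real.sin_pi_div_two, mul_one]
  have e2 : g (2 * n + 3 / 2) = -Real.sqrt (2 * n + 3 / 2) := by
    unfold g
    have : Real.pi * (2 * n + 3 / 2) = (Real.pi / 2 + Real.pi) + n * (2 * Real.pi) := by ring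
    rw [this, Real.sin_add_nat_mul_two_pi, Real.sin_add_pi, Real.sin_pi_div_two]
    ring
  have hr1 : |r| ≤ Real.sqrt (2 * n + 1 / 2) := by
    rw [← Real.sqrt_sq_eq_abs]
    exact Real.sqrt_le_sqrt (by linarith)
  have hr2 : |r| ≤ Real.sqrt (2 * n + 3 / 2) := hr1.trans (Real.sqrt_le_sqrt (by linarith))
  have hmem : r ∈ Icc (g (2 * n + 3 / 2)) (g (2 * n + 1 / 2)) := by
    rw [e1, e2]
    constructor
    · have := neg_abs_le r
      linarith
    · have := le_abs_self r
      linarith
  obtain ⟨s, hs, hsr⟩ := intermediate_value_Icc' (show (2 * n + 1 / 2 : ℝ) ≤ 2 * n + 3 / 2 by linarith)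
    g_continuous.continuousOn hmem
  refine ⟨Real.exp (-s), Real.exp_pos _, ?_, ?_⟩
  · rw [← Real.lt_log_iff_exp_lt hδ]
    have := hs.1
    linarith
  · rw [h_pos (Real.exp_pos _), Real.log_exp, neg_neg, hsr]

/-! ### the reparametrisation -/

/-- the asymmetric norm -/
noncomputable def w (t : ℝ) : ℝ := max ((Real.exp 1 - 1) * t) (-(1 - Real.exp (-1)) * t)

/-- the break points -/
noncomputable def pp : ℕ → ℝ
  | 0 => 0
  | k + 1 => 1 / ((k : ℝ) + 1)

theorem pp_nonneg (k : ℕ) : 0 ≤ pp k := by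
  cases k with
  | zero => exact le_rfl
  | succ k => exact div_nonneg zero_le_one (by positivity)

theorem c1_pos : 0 < Real.exp 1 - 1 := by
  have := Real.add_one_lt_exp (one_ne_zero (α := ℝ))
  linarith

theorem c2_pos : 0 < 1 - Real.exp (-1) := by
  have : Real.exp (-1) < 1 := by
    rw [← Real.exp_zero]
    exact Real.exp_lt_exp.mpr (by norm_num)
  linarith

theorem w_pos {t : ℝ} (ht : 0 ≤ t) : w t = (Real.exp 1 - 1) * t := by
  unfold w
  apply max_eq_left
  have := c1_pos
  have := c2_pos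
  nlinarith

theorem w_neg {t : ℝ} (ht : t ≤ 0) : w t = -(1 - Real.exp (-1)) * t := by
  unfold w
  apply max_eq_right
  have := c1_pos
  have := c2_pos
  nlinarith

theorem w_nonneg (t : ℝ) : 0 ≤ w t := by
  rcases le_total 0 t with ht | ht
  · rw [w_pos ht]; exact mul_nonneg c1_pos.le ht
  · rw [w_neg ht]
    have := c2_pos
    nlinarith

theorem w_add (s t : ℝ) : w (s + t) ≤ w s + w t := by
  unfold w
  apply max_le
  · rw [mul_add]
    exact add_le_add (le_max_left _ _) (le_max_left _ _)
  · rw [mul_add]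
    exact add_le_add (le_max_right _ _) (le_max_right _ _)

/-- the sawtooth -/
noncomputable def FF (x : ℝ) : ℝ := ⨅ k : ℕ, w (x - pp k)

theorem bdd (x : ℝ) : BddBelow (range fun k : ℕ => w (x - pp k)) := ⟨0, by rintro _ ⟨k, rfl⟩; exact w_nonneg _⟩

theorem FF_le (x : ℝ) (k : ℕ) : FF x ≤ w (x - pp k) := ciInf_le (bdd x) k

theorem FF_nonneg (x : ℝ) : 0 ≤ FF x := le_ciInf fun k => w_nonneg _

theorem FF_lip (x y : ℝ) : FF x ≤ FF y + w (x - y) := by
  have : FF x - w (x - y) ≤ FF y := le_ciInf fun k => by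
    have h1 := FF_le x k
    have h2 := w_add (y - pp k) (x - y)
    have h3 : y - pp k + (x - y) = x - pp k := by ring
    rw [h3] at h2
    linarith
  linarith

theorem FF_zero : FF 0 = 0 := le_antisymm (by
  have := FF_le 0 0
  have h1 : w ((0 : ℝ) - pp 0) = 0 := by
    change w (0 - 0) = 0
    rw [sub_zero, w_pos le_rfl, mul_zero]
  linarith) (FF_nonneg 0)

/-- the reparametrisation as a function -/
noncomputable def xi (x : ℝ) : ℝ := x + FF x

theorem xi_zero : xi 0 = 0 := by unfold xi; rw [FF_zero, add_zero]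

theorem xi_lower {x y : ℝ} (hxy : y ≤ x) : Real.exp (-1) * (x - y) ≤ xi x - xi y := by
  have h1 := FF_lip y x
  rw [w_neg (by linarith)] at h1
  unfold xi
  nlinarith

theorem xi_upper {x y : ℝ} (hxy : y ≤ x) : xi x - xi y ≤ Real.exp 1 * (x - y) := by
  have h1 := FF_lip x y
  rw [w_pos (by linarith)] at h1
  unfold xi
  nlinarith

theorem xi_strictMono : StrictMono xi := by
  intro y x hxy
  have h1 := xi_lower hxy.le
  have h2 : 0 < Real.exp (-1) * (x - y) := mul_pos (Real.exp_pos _) (by linarith)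
  linarith

theorem xi_continuous : Continuous xi := by
  have hlip : LipschitzWith (Real.toNNReal (Real.exp 1)) xi := by
    apply LipschitzWith.of_dist_le_mul
    intro x y
    rw [Real.dist_eq, Real.dist_eq, Real.coe_toNNReal _ (Real.exp_pos 1).le]
    rcases le_total y x with hxy | hxy
    · rw [abs_of_nonneg (sub_nonneg.mpr (xi_strictMono.monotone hxy)), abs_of_nonneg (sub_nonneg.mpr hxy)]
      exact xi_upper hxy
    · rw [abs_sub_comm, abs_sub_comm x y, abs_of_nonneg (sub_nonneg.mpr (xi_strictMono.monotone hxy)),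
        abs_of_nonneg (sub_nonneg.mpr hxy)]
      exact xi_upper hxy
  exact hlip.continuous

theorem xi_surjective : Function.Surjective xi := by
  apply xi_continuous.surjective
  · refine tendsto_atTop_mono' atTop ?_ (tendsto_id.const_mul_atTop (Real.exp_pos (-1)))
    filter_upwards [eventually_ge_atTop 0] with x hx
    have := xi_lower hx
    rw [xi_zero] at this
    simpa using this
  · refine tendsto_atBot_mono' atBot ?_ (tendsto_id.const_mul_atBot (Real.exp_pos (-1)))
    filter_upwards [eventually_le_atBot 0] with x hx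
    have := xi_lower hx
    rw [xi_zero] at this
    simp only [id]
    linarith

/-- the finite approximations of the sawtooth -/
noncomputable def FN : ℕ → ℝ → ℝ
  | 0, x => w (x - pp 0)
  | n + 1, x => min (FN n x) (w (x - pp (n + 1)))

theorem FN_le {n k : ℕ} (hk : k ≤ n) (x : ℝ) : FN n x ≤ w (x - pp k) := by
  induction n with
  | zero =>
    have : k = 0 := by omega
    subst this
    exact le_rfl
  | succ n ih =>
    rcases Nat.le_succ_iff.mp hk with h1 | h1
    · exact (min_le_left _ _).trans (ih h1)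
    · subst h1
      exact min_le_right _ _

theorem FF_le_FN (n : ℕ) (x : ℝ) : FF x ≤ FN n x := by
  induction n with
  | zero => exact FF_le x 0
  | succ n ih => exact le_min ih (FF_le x _)

theorem pp_anti {n k : ℕ} (hk : n + 1 ≤ k) : pp k ≤ pp (n + 1) := by
  obtain ⟨m, rfl⟩ : ∃ m, k = m + 1 := ⟨k - 1, by omega⟩
  change 1 / ((m : ℝ) + 1) ≤ 1 / ((n : ℝ) + 1)
  apply one_div_le_one_div_of_le (by positivity)
  have : (n : ℝ) ≤ m := by exact_mod_cast (by omega : n ≤ m)
  linarith

theorem FF_eq_FN {n : ℕ} {x : ℝ} (hx : pp (n + 1) ≤ x) : FF x = FN (n + 1) x := by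
  refine le_antisymm (FF_le_FN _ _) (le_ciInf fun k => ?_)
  rcases le_total k (n + 1) with hk | hk
  · exact FN_le hk x
  · have h1 := pp_anti hk
    calc FN (n + 1) x ≤ w (x - pp (n + 1)) := FN_le le_rfl x
      _ ≤ w (x - pp k) := by
        rw [w_pos (by linarith), w_pos (by linarith)]
        exact mul_le_mul_of_nonneg_left (by linarith) c1_pos.le

/-- right-linearity with one of the two slopes -/
def RL (f : ℝ → ℝ) (a : ℝ) : Prop :=
  ∃ σ : ℝ, (σ = Real.exp 1 - 1 ∨ σ = -(1 - Real.exp (-1))) ∧ ∀ᶠ x in 𝓝[>] a, f x = f a + σ * (x - a)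

theorem RL_w (p a : ℝ) : RL (fun x => w (x - p)) a := by
  rcases le_or_gt p a with hp | hp
  · refine ⟨_, Or.inl rfl, ?_⟩
    filter_upwards [self_mem_nhdsWithin] with x hx
    have hx' : a < x := hx
    rw [w_pos (by linarith), w_pos (by linarith)]
    ring
  · refine ⟨_, Or.inr rfl, ?_⟩
    filter_upwards [nhdsWithin_le_nhds (gt_mem_nhds hp)] with x hx
    rw [w_neg (by linarith), w_neg (by linarith)]
    ring

theorem RL_min {f g : ℝ → ℝ} {a : ℝ} (hf : RL f a) (hg : RL g a) : RL (fun x => min (f x) (g x)) a := by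
  obtain ⟨σ, hσ, h1⟩ := hf
  obtain ⟨τ, hτ, h2⟩ := hg
  have key : ∀ (c d s t : ℝ), c < d → ∀ᶠ x in 𝓝[>] a, c + s * (x - a) < d + t * (x - a) := by
    intro c d s t hcd
    have l1 : Tendsto (fun x => c + s * (x - a)) (𝓝 a) (𝓝 (c + s * (a - a))) :=
      (Continuous.tendsto (by fun_prop) a)
    have l2 : Tendsto (fun x => d + t * (x - a)) (𝓝 a) (𝓝 (d + t * (a - a))) :=
      (Continuous.tendsto (by fun_prop) a)
    refine nhdsWithin_le_nhds (l1.eventually_lt l2 (by simpa using hcd))
  rcases lt_trichotomy (f a) (g a) with hab | hab | hab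
  · refine ⟨σ, hσ, ?_⟩
    filter_upwards [h1, h2, key _ _ σ τ hab] with x hx1 hx2 hx3
    rw [hx1, hx2, min_eq_left hx3.le, min_eq_left hab.le]
  · refine ⟨min σ τ, ?_, ?_⟩
    · rcases min_choice σ τ with h | h <;> rw [h] <;> assumption
    · filter_upwards [h1, h2, self_mem_nhdsWithin] with x hx1 hx2 hx3
      have hx3' : 0 ≤ x - a := by
        have : a < x := hx3
        linarith
      rw [hx1, hx2, ← hab, min_self, min_add_add_left, min_mul_of_nonneg _ _ hx3']
  · refine ⟨τ, hτ, ?_⟩
    filter_upwards [h1, h2, key _ _ τ σ hab] with x hx1 hx2 hx3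
    rw [hx1, hx2, min_eq_right hx3.le, min_eq_right hab.le]

theorem RL_FN (n : ℕ) (a : ℝ) : RL (FN n) a := by
  induction n with
  | zero => exact RL_w _ _
  | succ n ih => exact RL_min ih (RL_w _ _)

theorem xi_right {a : ℝ} (ha : a ≠ 0) : ∃ σ : ℝ, (σ = Real.exp 1 ∨ σ = Real.exp (-1)) ∧
    ∀ᶠ x in 𝓝[>] a, xi x - xi a = σ * (x - a) := by
  rcases lt_or_gt_of_ne ha with ha | ha
  · have hF : ∀ x ≤ 0, FF x = -(1 - Real.exp (-1)) * x := by
      intro x hx
      refine le_antisymm ?_ (le_ciInf fun k => ?_)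
      · have := FF_le x 0
        rw [show pp 0 = 0 from rfl, sub_zero, w_neg hx] at this
        exact this
      · have h1 := pp_nonneg k
        rw [w_neg (by linarith)]
        have := c2_pos
        nlinarith
    refine ⟨_, Or.inr rfl, ?_⟩
    filter_upwards [nhdsWithin_le_nhds (gt_mem_nhds ha)] with x hx
    unfold xi
    rw [hF x hx.le, hF a ha.le]
    ring
  · obtain ⟨n, hn⟩ := exists_nat_one_div_lt ha
    obtain ⟨σ, hσ, h1⟩ := RL_FN (n + 1) a
    have hn' : pp (n + 1) < a := hn
    refine ⟨σ + 1, ?_, ?_⟩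
    · rcases hσ with h | h
      · left; rw [h]; ring
      · right; rw [h]; ring
    · filter_upwards [h1, nhdsWithin_le_nhds (lt_mem_nhds hn')] with x hx1 hx2
      unfold xi
      rw [FF_eq_FN hx2.le, FF_eq_FN hn'.le, hx1]
      ring

theorem FF_small {x : ℝ} (h0 : 0 < x) (h1 : x ≤ 1) : FF x ≤ 4 * x ^ 2 := by
  have hexp : Real.exp 1 < 3 := by
    have := Real.exp_one_lt_d9
    linarith
  obtain ⟨k, hk1, hk2⟩ : ∃ k : ℕ, 1 ≤ k ∧ ((k : ℝ) ≤ 1 / x ∧ 1 / x < k + 1) := by
    refine ⟨⌊1 / x⌋₊, ?_, Nat.floor_le (by positivity), Nat.lt_floor_add_one _⟩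
    rw [Nat.one_le_floor_iff]
    rw [le_div_iff₀ h0]
    linarith
  have hk : (1 : ℝ) ≤ k := by exact_mod_cast hk1
  have a1 : x * k ≤ 1 := by
    have := mul_le_mul_of_nonneg_left hk2.1 h0.le
    rwa [mul_one_div_cancel h0.ne'] at this
  have a2 : 1 < x * (k + 1) := by
    have := mul_lt_mul_of_pos_left hk2.2 h0
    rwa [mul_one_div_cancel h0.ne'] at this
  have a3 := FF_le x (k + 1)
  have a4 : pp (k + 1) = 1 / ((k : ℝ) + 1) := rfl
  have a5 : 1 / ((k : ℝ) + 1) ≤ x := by
    rw [div_le_iff₀ (by positivity)]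
    linarith
  rw [a4, w_pos (by linarith)] at a3
  have a6 : x - 1 / ((k : ℝ) + 1) ≤ 2 * x ^ 2 := by
    rw [sub_le_iff_le_add, ← sub_le_iff_le_add', le_div_iff₀ (by positivity)]
    nlinarith
  calc FF x ≤ (Real.exp 1 - 1) * (x - 1 / ((k : ℝ) + 1)) := a3
    _ ≤ 2 * (2 * x ^ 2) := by
      apply mul_le_mul (by linarith) a6 (by linarith) (by norm_num)
    _ = _ := by ring

theorem g_diff {s t : ℝ} (ht : 0 ≤ t) (hst : t ≤ s) : |g s - g t| ≤ Real.sqrt (s - t) + Real.pi * (s - t) * Real.sqrt s := by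
  have e : g s - g t = (Real.sqrt s - Real.sqrt t) * Real.sin (Real.pi * s) +
      Real.sqrt t * (Real.sin (Real.pi * s) - Real.sin (Real.pi * t)) := by
    unfold g; ring
  have h1 : |Real.sqrt s - Real.sqrt t| ≤ Real.sqrt (s - t) := by
    rw [abs_of_nonneg (sub_nonneg.mpr (Real.sqrt_le_sqrt hst))]
    apply Real.le_sqrt_of_sq_le
    have e1 : Real.sqrt s ^ 2 = s := Real.sq_sqrt (ht.trans hst)
    have e2 : Real.sqrt t ^ 2 = t := Real.sq_sqrt ht
    have e3 : Real.sqrt t ≤ Real.sqrt s := Real.sqrt_le_sqrt hst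
    have e4 : 0 ≤ Real.sqrt t := Real.sqrt_nonneg t
    nlinarith
  have h2 : |Real.sin (Real.pi * s) - Real.sin (Real.pi * t)| ≤ Real.pi * (s - t) := by
    have := Real.abs_sin_sub_sin_le (Real.pi * s) (Real.pi * t)
    rw [← mul_sub, abs_of_nonneg (mul_nonneg Real.pi_pos.le (sub_nonneg.mpr hst))] at this
    exact this
  rw [e]
  refine (abs_add_le _ _).trans (add_le_add ?_ ?_)
  · rw [abs_mul]
    calc |Real.sqrt s - Real.sqrt t| * |Real.sin (Real.pi * s)| ≤ Real.sqrt (s - t) * 1 :=
          mul_le_mul h1 (Real.abs_sin_le_one _) (abs_nonneg _) (Real.sqrt_nonneg _)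
      _ = _ := mul_one _
  · rw [abs_mul, abs_of_nonneg (Real.sqrt_nonneg t), mul_comm]
    exact mul_le_mul h2 (Real.sqrt_le_sqrt hst) (Real.sqrt_nonneg _)
      (mul_nonneg Real.pi_pos.le (sub_nonneg.mpr hst))

theorem D_right : Tendsto (fun x => h (xi x) - h x) (𝓝[>] 0) (𝓝 0) := by
  have hb : Tendsto (fun x : ℝ => (2 + 4 * Real.pi) * Real.sqrt x) (𝓝[>] 0) (𝓝 0) := by
    have : Tendsto (fun x : ℝ => (2 + 4 * Real.pi) * Real.sqrt x) (𝓝 0) (𝓝 ((2 + 4 * Real.pi) * Real.sqrt 0)) :=
      (Continuous.tendsto (by fun_prop) 0)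
    rw [Real.sqrt_zero, mul_zero] at this
    exact this.mono_left nhdsWithin_le_nhds
  refine squeeze_zero_norm' ?_ hb
  filter_upwards [self_mem_nhdsWithin, nhdsWithin_le_nhds (gt_mem_nhds (show (0 : ℝ) < 1 / 5 by norm_num))] with x hx hx1
  have hx0 : (0 : ℝ) < x := hx
  have f1 := FF_nonneg x
  have f2 := FF_small hx0 (by linarith)
  have hxi : 0 < xi x := by unfold xi; linarith
  rw [h_pos hxi, h_pos hx0, Real.norm_eq_abs, abs_sub_comm]
  have q1 : Real.log x ≤ Real.log (xi x) := Real.log_le_log hx0 (by unfold xi; linarith)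
  have q2 : xi x ≤ 1 := by unfold xi; nlinarith
  have q3 : 0 ≤ -Real.log (xi x) := by
    have := Real.log_nonpos hxi.le q2
    linarith
  have q4 : Real.log (xi x) - Real.log x ≤ 4 * x := by
    rw [← Real.log_div hxi.ne' hx0.ne']
    have := Real.log_le_sub_one_of_pos (div_pos hxi hx0)
    have e : xi x / x - 1 = FF x / x := by unfold xi; field_simp; ring
    rw [e] at this
    refine this.trans ?_
    rw [div_le_iff₀ hx0]
    linarith
  have q5 : -Real.log x ≤ 1 / x := by
    have := Real.log_le_sub_one_of_pos (show 0 < 1 / x by positivity)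
    rw [one_div, Real.log_inv] at this
    rw [one_div]
    linarith
  have q6 : Real.sqrt (-Real.log x) ≤ 1 / Real.sqrt x := by
    have := Real.sqrt_le_sqrt q5
    rwa [Real.sqrt_div zero_le_one, Real.sqrt_one] at this
  refine (g_diff q3 (by linarith)).trans ?_
  have sx : 0 < Real.sqrt x := Real.sqrt_pos.mpr hx0
  have sx2 : Real.sqrt x * Real.sqrt x = x := Real.mul_self_sqrt hx0.le
  have r1 : Real.sqrt (-Real.log x - -Real.log (xi x)) ≤ 2 * Real.sqrt x := by
    have : Real.sqrt (-Real.log x - -Real.log (xi x)) ≤ Real.sqrt (4 * x) := Real.sqrt_le_sqrt (by linarith)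
    refine this.trans (le_of_eq ?_)
    rw [Real.sqrt_mul (by norm_num)]
    congr 1
    rw [show (4 : ℝ) = 2 ^ 2 by norm_num, Real.sqrt_sq (by norm_num)]
  have r2 : Real.pi * (-Real.log x - -Real.log (xi x)) * Real.sqrt (-Real.log x) ≤ 4 * Real.pi * Real.sqrt x := by
    calc Real.pi * (-Real.log x - -Real.log (xi x)) * Real.sqrt (-Real.log x)
        ≤ Real.pi * (4 * x) * (1 / Real.sqrt x) := by
          apply mul_le_mul _ q6 (Real.sqrt_nonneg _) (by positivity)
          exact mul_le_mul_of_nonneg_left (by linarith) Real.pi_pos.le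
      _ = 4 * Real.pi * Real.sqrt x := by
        rw [mul_one_div, div_eq_iff sx.ne']
        linear_combination (-4 * Real.pi) * sx2
  calc _ ≤ 2 * Real.sqrt x + 4 * Real.pi * Real.sqrt x := add_le_add r1 r2
    _ = _ := by ring

/-- the reparametrisation as an order isomorphism -/
noncomputable def xiIso : ℝ ≃o ℝ := xi_strictMono.orderIsoOfSurjective xi xi_surjective

theorem xiIso_apply (x : ℝ) : xiIso x = xi x := rfl

theorem R_continuous {a : ℝ} (ha : a ≠ 0) : Continuous fun x => h (xiIso x - xiIso a) + h (x - a) := by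
  simp only [xiIso_apply]
  rw [continuous_iff_continuousAt]
  intro x
  by_cases hxa : x = a
  · subst hxa
    have h0 : h (xi x - xi x) + h (x - x) = 0 := by
      rw [sub_self, sub_self, h_nonpos le_rfl, add_zero]
    rw [continuousAt_iff_continuous_left'_right']
    constructor
    · unfold ContinuousWithinAt
      simp only []
      rw [h0]
      refine tendsto_const_nhds.congr' ?_
      filter_upwards [self_mem_nhdsWithin] with y hy
      have hy' : y < x := hy
      have := xi_strictMono hy'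
      rw [h_nonpos (by linarith), h_nonpos (by linarith), add_zero]
    · unfold ContinuousWithinAt
      simp only []
      rw [h0]
      obtain ⟨σ, hσ, h1⟩ := xi_right ha
      have hlim : Tendsto (fun y : ℝ => y - x) (𝓝[>] x) (𝓝[>] 0) := by
        rw [tendsto_nhdsWithin_iff]
        constructor
        · have : Tendsto (fun y : ℝ => y - x) (𝓝 x) (𝓝 (x - x)) := (Continuous.tendsto (by fun_prop) x)
          rw [sub_self] at this
          exact this.mono_left nhdsWithin_le_nhds
        · filter_upwards [self_mem_nhdsWithin] with y hy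
          have hy' : x < y := hy
          exact mem_Ioi.mpr (by linarith)
      have h2 : Tendsto (fun u => h (σ * u) + h u) (𝓝[>] 0) (𝓝 0) := by
        rcases hσ with rfl | rfl
        · exact h_scale
        · exact h_scale_inv
      refine (h2.comp hlim).congr' ?_
      filter_upwards [h1] with y hy
      simp only [Function.comp]
      rw [hy]
  · have h1 : xi x - xi a ≠ 0 := sub_ne_zero.mpr fun h => hxa (xi_strictMono.injective h)
    have h2 : x - a ≠ 0 := sub_ne_zero.mpr hxa
    exact ((h_continuousAt h1).comp (f := fun x => xi x - xi a) (xi_continuous.sub continuous_const).continuousAt).add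
      ((h_continuousAt h2).comp (f := fun x => x - a) (continuous_id.sub continuous_const).continuousAt)

theorem D_continuous : Continuous fun x => h (xiIso x) - h x := by
  simp only [xiIso_apply]
  rw [continuous_iff_continuousAt]
  intro x
  by_cases hx : x = 0
  · subst hx
    have h0 : h (xi 0) - h 0 = 0 := by rw [xi_zero, sub_self]
    rw [continuousAt_iff_continuous_left'_right']
    constructor
    · unfold ContinuousWithinAt
      simp only []
      rw [h0]
      refine tendsto_const_nhds.congr' ?_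
      filter_upwards [self_mem_nhdsWithin] with y hy
      have hy' : y < 0 := hy
      have := xi_strictMono hy'
      rw [xi_zero] at this
      rw [h_nonpos this.le, h_nonpos hy'.le, sub_zero]
    · unfold ContinuousWithinAt
      simp only []
      rw [h0]
      exact D_right
  · have h1 : xi x ≠ 0 := fun h => hx (xi_strictMono.injective (h.trans xi_zero.symm))
    exact ((h_continuousAt h1).comp xi_continuous.continuousAt).sub (h_continuousAt hx)

theorem xiIso_zero : xiIso 0 = 0 := xi_zero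

end Pool.Agent.Q150.Feather
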