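import Mathlib

/-!
# Ray spaces of order trees: monotone normality, and products with ray spaces of Aronszajn trees
-/

set_option autoImplicit false

namespace Pool.Agent.Q150.RaySpace

open Set Topology

universe u v w

/-- order tree: a poset with a least element all of whose principal down-sets are well-ordered -/
def IsOrderTree (T : Type u) [PartialOrder T] : Prop :=
  (∃ r : T, ∀ t, r ≤ t) ∧
    ∀ t : T, IsChain (· ≤ ·) (Iic t) ∧ (Iic t).WellFoundedOn (· < ·)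

/-- ray: downward closed chain without maximal element -/
def IsRay {T : Type u} [PartialOrder T] (R : Set T) : Prop :=
  IsLowerSet R ∧ IsChain (· ≤ ·) R ∧ ∀ t ∈ R, ∃ s ∈ R, t < s

/-- The set of rays. The empty chain counts as a ray exactly if `E` holds. -/
def Ray (E : Prop) (T : Type u) [PartialOrder T] : Type u :=
  {R : Set T // IsRay R ∧ (E ∨ R.Nonempty)}

/-- The subspace topology from `2^T` with the product topology. -/
noncomputable instance (E : Prop) (T : Type u) [PartialOrder T] : TopologicalSpace (Ray E T) :=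
  TopologicalSpace.induced
    (fun (R : Ray E T) (t : T) => @decide (t ∈ R.1) (Classical.propDecidable _))
    (inferInstance : TopologicalSpace (T → Bool))

/-- A union of countably many antichains. -/
def IsSpecial (T : Type u) [PartialOrder T] : Prop :=
  ∃ A : ℕ → Set T, (∀ n, IsAntichain (· ≤ ·) (A n)) ∧ ⋃ n, A n = univ

/-- Aronszajn tree: an order tree of height `ω₁` whose levels and chains are all countable.
The height of a node `t` is the ordinal `ht t` with `Iio t` isomorphic to `Iio (ht t)`. -/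
def IsAronszajn (T : Type u) [PartialOrder T] : Prop :=
  IsOrderTree T ∧ (∀ C : Set T, IsChain (· ≤ ·) C → C.Countable) ∧
    ∃ ht : T → Ordinal.{0}, (∀ t, Nonempty (Iio t ≃o Iio (ht t))) ∧
      (∀ t, ht t < Ordinal.omega 1) ∧
      ∀ α < Ordinal.omega 1, {t | ht t = α}.Nonempty ∧ {t | ht t = α}.Countable

/-! ### The topology -/

section Top

variable {E : Prop} {T : Type u} [PartialOrder T]

theorem isOpen_iff (U : Set (Ray E T)) :
    IsOpen U ↔ ∀ R ∈ U, ∃ F : Set T, F.Finite ∧ ∀ R' : Ray E T, (∀ t ∈ F, t ∈ R'.1 ↔ t ∈ R.1) →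
      R' ∈ U := by
  classical
  let f : Ray E T → T → Bool := fun R t => @decide (t ∈ R.1) (Classical.propDecidable _)
  have hf : ∀ (R R' : Ray E T) (t : T), f R t = f R' t ↔ (t ∈ R.1 ↔ t ∈ R'.1) := by
    intro R R' t
    simp only [f, decide_eq_decide]
  constructor
  · intro hU R hR
    obtain ⟨V, hV, rfl⟩ := isOpen_induced_iff.1 hU
    have hR' : f R ∈ V := hR
    obtain ⟨I, u, hu, huV⟩ := isOpen_pi_iff.1 hV (f R) hR'
    refine ⟨(I : Set T), I.finite_toSet, fun R' h => ?_⟩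
    apply huV
    intro t ht
    have h1 : f R' t = f R t := (hf R' R t).2 (h t ht)
    show f R' t ∈ u t
    rw [h1]
    exact (hu t ht).2
  · intro h
    rw [isOpen_iff_mem_nhds]
    intro R hR
    obtain ⟨F, hF, hFU⟩ := h R hR
    have h1 : IsOpen {x : T → Bool | ∀ t ∈ F, x t = f R t} := by
      have : {x : T → Bool | ∀ t ∈ F, x t = f R t} = F.pi (fun t => {f R t}) := by
        ext x
        simp [Set.mem_pi]
      rw [this]
      exact isOpen_set_pi hF (fun t _ => isOpen_discrete _)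
    have h2 : IsOpen (f ⁻¹' {x : T → Bool | ∀ t ∈ F, x t = f R t}) :=
      isOpen_induced_iff.2 ⟨_, h1, rfl⟩
    refine Filter.mem_of_superset (h2.mem_nhds (fun t _ => rfl)) ?_
    intro R' hR'
    refine hFU R' fun t ht => ?_
    exact (hf R' R t).1 (hR' t ht)

/-- The basic open sets. -/
def nb (E : Prop) {T : Type u} [PartialOrder T] (C F : Set T) : Set (Ray E T) :=
  {R | C ⊆ R.1 ∧ ∀ s ∈ F, s ∉ R.1}

theorem isOpen_nb {C F : Set T} (hC : C.Finite) (hF : F.Finite) : IsOpen (nb E C F) := by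
  rw [isOpen_iff]
  intro R hR
  refine ⟨C ∪ F, hC.union hF, fun R' h => ⟨fun c hc => ?_, fun s hs => ?_⟩⟩
  · exact (h c (Or.inl hc)).2 (hR.1 hc)
  · rw [h s (Or.inr hs)]
    exact hR.2 s hs

theorem mem_nb (R : Ray E T) {C F : Set T} (hC : C ⊆ R.1) (hF : ∀ s ∈ F, Iio s = R.1) :
    R ∈ nb E C F := by
  refine ⟨hC, fun s hs h => ?_⟩
  rw [← hF s hs] at h
  exact lt_irrefl _ (mem_Iio.1 h)

theorem basis (hT : IsOrderTree T) (R : Ray E T) (U : Set (Ray E T)) (hU : IsOpen U)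
    (hR : R ∈ U) : ∃ C F : Set T, C.Finite ∧ F.Finite ∧ C ⊆ R.1 ∧ (∀ s ∈ F, Iio s = R.1) ∧
      nb E C F ⊆ U := by
  classical
  obtain ⟨F0, hF0, hF0U⟩ := (isOpen_iff U).1 hU R hR
  have key : ∀ b : T, ∃ c : T, (b ∉ R.1 →
      (c ∈ R.1 ∧ ∀ R' : Ray E T, c ∈ R'.1 → b ∉ R'.1) ∨
      (Iio c = R.1 ∧ ∀ R' : Ray E T, c ∉ R'.1 → b ∉ R'.1)) ∧ (b ∈ R.1 → c ∈ R.1) := by
    intro b
    by_cases hb : b ∈ R.1
    · exact ⟨b, fun h => absurd hb h, fun h => h⟩
    by_cases h1 : ∃ r ∈ R.1, ¬ r ≤ b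
    · obtain ⟨r, hr, hrb⟩ := h1
      refine ⟨r, fun _ => Or.inl ⟨hr, fun R' hR' hbR' => ?_⟩, fun h => absurd h hb⟩
      have hch := R'.2.1.2.1
      rcases hch.total hR' hbR' with h | h
      · exact hrb h
      · exact hb (R.2.1.1 h hr)
    · push Not at h1
      have hwf := (hT.2 b).2
      have hwf' : (Iic b \ R.1).WellFoundedOn (· < ·) := hwf.subset sdiff_subset
      obtain ⟨s, hs, hmin⟩ : ∃ s ∈ Iic b \ R.1, ∀ x ∈ Iic b \ R.1, ¬ x < s := by
        obtain ⟨m, -, hm⟩ := WellFounded.has_min hwf' univ ⟨⟨b, mem_Iic.2 le_rfl, hb⟩, mem_univ _⟩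
        exact ⟨m.1, m.2, fun x hx h => hm ⟨x, hx⟩ (mem_univ _) h⟩
      refine ⟨s, fun _ => Or.inr ⟨?_, fun R' hR' hbR' => ?_⟩, fun h => absurd h hb⟩
      · ext x
        constructor
        · intro hx
          by_contra hxR
          exact hmin x ⟨mem_Iic.2 ((mem_Iio.1 hx).le.trans (mem_Iic.1 hs.1)), hxR⟩ hx
        · intro hx
          rcases (hT.2 b).1.total (mem_Iic.2 (h1 x hx)) hs.1 with h | h
          · refine mem_Iio.2 (lt_of_le_of_ne h ?_)
            rintro rfl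
            exact hs.2 hx
          · exact absurd (R.2.1.1 h hx) hs.2
      · exact hR' (R'.2.1.1 (mem_Iic.1 hs.1) hbR')
  choose c hc using key
  refine ⟨(F0 ∩ R.1) ∪ (c '' F0 ∩ R.1), c '' F0 ∩ {s | Iio s = R.1}, ?_, ?_, ?_, ?_, ?_⟩
  · exact (hF0.subset inter_subset_left).union ((hF0.image c).subset inter_subset_left)
  · exact (hF0.image c).subset inter_subset_left
  · intro x hx
    rcases hx with hx | hx
    · exact hx.2
    · exact hx.2
  · intro s hs
    exact hs.2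
  · intro R' hR'
    refine hF0U R' fun t ht => ⟨fun h => ?_, fun h => ?_⟩
    · by_contra hcon
      rcases (hc t).1 hcon with h1 | h1
      · exact h1.2 R' (hR'.1 (Or.inr ⟨mem_image_of_mem c ht, h1.1⟩)) h
      · exact h1.2 R' (hR'.2 _ ⟨mem_image_of_mem c ht, h1.1⟩) h
    · exact hR'.1 (Or.inl ⟨ht, h⟩)

end Top

/-! ### Monotone normality -/

/-- Monotone normality (Borges' characterisation; for T1 spaces). -/
def MNormal (X : Type u) [TopologicalSpace X] : Prop :=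
  ∃ μ : X → Set X → Set X, ∀ x U, IsOpen U → x ∈ U →
    IsOpen (μ x U) ∧ x ∈ μ x U ∧ μ x U ⊆ U ∧
      ∀ y V, IsOpen V → y ∈ V → (μ x U ∩ μ y V).Nonempty → y ∈ U ∨ x ∈ V

theorem MNormal.homeo {X : Type u} {Y : Type v} [TopologicalSpace X] [TopologicalSpace Y]
    (h : X ≃ₜ Y) (hY : MNormal Y) : MNormal X := by
  obtain ⟨μ, hμ⟩ := hY
  refine ⟨fun x U => h ⁻¹' (μ (h x) (h.symm ⁻¹' U)), fun x U hU hx => ?_⟩
  have hU' : IsOpen (h.symm ⁻¹' U) := hU.preimage h.symm.continuous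
  have hx' : h x ∈ h.symm ⁻¹' U := by simpa using hx
  obtain ⟨h1, h2, h3, h4⟩ := hμ (h x) _ hU' hx'
  refine ⟨h1.preimage h.continuous, h2, ?_, ?_⟩
  · intro z hz
    have := h3 hz
    simpa using this
  · intro y V hV hy hne
    have hV' : IsOpen (h.symm ⁻¹' V) := hV.preimage h.symm.continuous
    have hy' : h y ∈ h.symm ⁻¹' V := by simpa using hy
    obtain ⟨z, hz1, hz2⟩ := hne
    rcases h4 (h y) _ hV' hy' ⟨h z, hz1, hz2⟩ with h5 | h5
    · left; simpa using h5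
    · right; simpa using h5

theorem nb_disjoint {E : Prop} {T : Type u} [PartialOrder T] (R R' P : Ray E T)
    {C F C' F' : Set T} (hC : C ⊆ R.1) (hF : ∀ s ∈ F, Iio s = R.1)
    (hC' : C' ⊆ R'.1) (hF' : ∀ s ∈ F', Iio s = R'.1)
    (hP : P ∈ nb E C F) (hP' : P ∈ nb E C' F') : R' ∈ nb E C F ∨ R ∈ nb E C' F' := by
  by_contra hcon
  push Not at hcon
  obtain ⟨h1, h2⟩ := hcon
  have h1' : (∃ c ∈ C, c ∉ R'.1) ∨ ∃ s ∈ F, s ∈ R'.1 := by
    by_contra h
    push Not at h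
    exact h1 ⟨fun c hc => h.1 c hc, h.2⟩
  have h2' : (∃ c ∈ C', c ∉ R.1) ∨ ∃ s ∈ F', s ∈ R.1 := by
    by_contra h
    push Not at h
    exact h2 ⟨fun c hc => h.1 c hc, h.2⟩
  rcases h1' with ⟨c, hc, hcR⟩ | ⟨s, hs, hsR⟩
  · rcases h2' with ⟨c', hc', hcR'⟩ | ⟨s', hs', hsR'⟩
    · rcases P.2.1.2.1.total (hP.1 hc) (hP'.1 hc') with h | h
      · exact hcR (R'.2.1.1 h (hC' hc'))
      · exact hcR' (R.2.1.1 h (hC hc))
    · rcases R.2.1.2.1.total (hC hc) hsR' with h | h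
      · rcases eq_or_lt_of_le h with rfl | h
        · exact hP'.2 _ hs' (hP.1 hc)
        · apply hcR
          rw [← hF' s' hs']
          exact h
      · exact hP'.2 _ hs' (P.2.1.1 h (hP.1 hc))
  · rcases h2' with ⟨c', hc', hcR'⟩ | ⟨s', hs', hsR'⟩
    · rcases R'.2.1.2.1.total (hC' hc') hsR with h | h
      · rcases eq_or_lt_of_le h with rfl | h
        · exact hP.2 _ hs (hP'.1 hc')
        · apply hcR'
          rw [← hF s hs]
          exact h
      · exact hP.2 _ hs (P.2.1.1 h (hP'.1 hc'))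
    · have h3 : s < s' := by
        have : s ∈ Iio s' := by rw [hF' s' hs']; exact hsR
        exact this
      have h4 : s' < s := by
        have : s' ∈ Iio s := by rw [hF s hs]; exact hsR'
        exact this
      exact lt_asymm h3 h4

/-- **Every ray space is monotonically normal.** -/
theorem mnormal_ray (E : Prop) {T : Type u} [PartialOrder T] (hT : IsOrderTree T) :
    MNormal (Ray E T) := by
  classical
  have key : ∀ (R : Ray E T) (U : Set (Ray E T)), ∃ C F : Set T, IsOpen U → R ∈ U →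
      C.Finite ∧ F.Finite ∧ C ⊆ R.1 ∧ (∀ s ∈ F, Iio s = R.1) ∧ nb E C F ⊆ U := by
    intro R U
    by_cases h : IsOpen U ∧ R ∈ U
    · obtain ⟨C, F, hCF⟩ := basis hT R U h.1 h.2
      exact ⟨C, F, fun _ _ => hCF⟩
    · exact ⟨∅, ∅, fun h1 h2 => absurd ⟨h1, h2⟩ h⟩
  choose C F hCF using key
  refine ⟨fun R U => nb E (C R U) (F R U), fun R U hU hR => ?_⟩
  obtain ⟨h1, h2, h3, h4, h5⟩ := hCF R U hU hR
  refine ⟨isOpen_nb h1 h2, mem_nb R h3 h4, h5, ?_⟩
  intro R' V hV hR' hne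
  obtain ⟨h1', h2', h3', h4', h5'⟩ := hCF R' V hV hR'
  obtain ⟨P, hP, hP'⟩ := hne
  rcases nb_disjoint R R' P h3 h4 h3' h4' hP hP' with h | h
  · exact Or.inl (h5 h)
  · exact Or.inr (h5' h)

/-- A monotonically normal product gives a semi-stratification of the second factor. -/
theorem semistrat_of_prod {X : Type u} {Y : Type v} [TopologicalSpace X] [TopologicalSpace Y]
    [T1Space X] (hXY : MNormal (X × Y)) (p : X) (a : ℕ → X) (ha : ∀ n, a n ≠ p)
    (hp : p ∈ closure (range a)) :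
    ∃ g : ℕ → Y → Set Y, (∀ n y, IsOpen (g n y) ∧ y ∈ g n y) ∧
      ∀ (y : Y) (W : Set Y), IsOpen W → y ∈ W → ∃ n, ∀ y', y ∈ g n y' → y' ∈ W := by
  obtain ⟨μ, hμ⟩ := hXY
  have hO : IsOpen (({p}ᶜ : Set X) ×ˢ (univ : Set Y)) := isOpen_compl_singleton.prod isOpen_univ
  have hO' : ∀ n (y : Y), ((a n, y) : X × Y) ∈ ({p}ᶜ : Set X) ×ˢ (univ : Set Y) := by
    intro n y
    exact ⟨ha n, mem_univ _⟩
  refine ⟨fun n y => (fun y' => ((a n, y') : X × Y)) ⁻¹' μ (a n, y) (({p}ᶜ : Set X) ×ˢ univ),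
    fun n y => ⟨?_, ?_⟩, ?_⟩
  · exact ((hμ _ _ hO (hO' n y)).1).preimage (by fun_prop)
  · exact (hμ _ _ hO (hO' n y)).2.1
  · intro y W hW hy
    have hV : IsOpen ((univ : Set X) ×ˢ W) := isOpen_univ.prod hW
    have hyV : ((p, y) : X × Y) ∈ (univ : Set X) ×ˢ W := ⟨mem_univ _, hy⟩
    obtain ⟨h1, h2, -, -⟩ := hμ (p, y) _ hV hyV
    have h3 : IsOpen ((fun x => ((x, y) : X × Y)) ⁻¹' μ (p, y) ((univ : Set X) ×ˢ W)) :=
      h1.preimage (by fun_prop)
    obtain ⟨x, hx, n, rfl⟩ := mem_closure_iff.1 hp _ h3 h2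
    refine ⟨n, fun y' hy' => ?_⟩
    have h4 := (hμ (a n, y') _ hO (hO' n y')).2.2.2 (p, y) _ hV hyV ⟨(a n, y), hy', hx⟩
    rcases h4 with h5 | h5
    · exact absurd rfl h5.1
    · exact h5.2

end Pool.Agent.Q150.RaySpace
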