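import Mathlib
import Pool.Agent.Q150.RaySpace

/-!
# Open subspaces of ray spaces are quasi-ray spaces
-/

set_option autoImplicit false

namespace Pool.Agent.Q150.RaySpace

open Set Topology

universe u v w

/-- The set of nonempty rays. -/
def Rays (S : Type u) [PartialOrder S] : Set (Set S) := {R | IsRay R ∧ R.Nonempty}

/-- All principal down-sets are well-ordered. -/
def IsForest (S : Type u) [PartialOrder S] : Prop :=
  ∀ t : S, IsChain (· ≤ ·) (Iic t) ∧ (Iic t).WellFoundedOn (· < ·)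

/-- Coordinates for a continuous bijection from `V` onto a ray space. -/
def QR {X : Type u} [TopologicalSpace X] (V : Set X) : Prop :=
  ∃ (S : Type u) (_ : PartialOrder S) (e : X → Set S), IsOrderTree S ∧ BijOn e V (Rays S) ∧
    ∀ s, IsOpen {x | x ∈ V ∧ s ∈ e x} ∧ IsOpen {x | x ∈ V ∧ s ∉ e x}

theorem wf_of_forest {S : Type u} [PartialOrder S] (h : IsForest S) :
    WellFounded ((· < ·) : S → S → Prop) := by
  rw [WellFounded.wellFounded_iff_has_min]
  rintro s ⟨x, hx⟩
  have h1 := (h x).2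
  have h2 : (Iic x ∩ s).WellFoundedOn (· < ·) := h1.subset inter_subset_left
  obtain ⟨m, -, hm⟩ := WellFounded.has_min h2 univ ⟨⟨x, mem_Iic.2 le_rfl, hx⟩, mem_univ _⟩
  refine ⟨m.1, m.2.2, fun y hy hlt => hm ⟨y, ?_, hy⟩ (mem_univ _) hlt⟩
  exact mem_Iic.2 (hlt.le.trans (mem_Iic.1 m.2.1))

theorem forest_of_wf {S : Type u} [PartialOrder S] (h : WellFounded ((· < ·) : S → S → Prop))
    (h' : ∀ t : S, IsChain (· ≤ ·) (Iic t)) : IsForest S :=
  fun t => ⟨h' t, h.wellFoundedOn⟩

/-! ### Grafting -/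

/-- Graft the forest `B` on top of the lower set `D` of `A`. -/
inductive Gr {A : Type u} [PartialOrder A] (D : LowerSet A) (B : Type u) : Type u
  | l : A → Gr D B
  | r : B → Gr D B

section Graft

variable {A B : Type u} [PartialOrder A] [PartialOrder B] (D : LowerSet A)

def Gr.le : Gr D B → Gr D B → Prop
  | .l x, .l y => x ≤ y
  | .l x, .r _ => x ∈ D
  | .r _, .l _ => False
  | .r x, .r y => x ≤ y

instance : PartialOrder (Gr D B) where
  le := Gr.le D
  le_refl p := by
    cases p with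
    | l x => exact le_refl x
    | r x => exact le_refl x
  le_trans p q s h1 h2 := by
    cases p with
    | l x => cases q with
      | l y => cases s with
        | l z => exact le_trans (show x ≤ y from h1) (show y ≤ z from h2)
        | r z => exact D.lower (show x ≤ y from h1) (show y ∈ D from h2)
      | r y => cases s with
        | l z => exact h2.elim
        | r z => exact h1
    | r x => cases q with
      | l y => exact h1.elim
      | r y => cases s with
        | l z => exact h2.elim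
        | r z => exact le_trans (show x ≤ y from h1) (show y ≤ z from h2)
  le_antisymm p q h1 h2 := by
    cases p with
    | l x => cases q with
      | l y => exact congrArg _ (le_antisymm (show x ≤ y from h1) (show y ≤ x from h2))
      | r y => exact h2.elim
    | r x => cases q with
      | l y => exact h1.elim
      | r y => exact congrArg _ (le_antisymm (show x ≤ y from h1) (show y ≤ x from h2))

theorem Gr.ll {x y : A} : (Gr.l x : Gr D B) ≤ Gr.l y ↔ x ≤ y := Iff.rfl
theorem Gr.lr {x : A} {y : B} : (Gr.l x : Gr D B) ≤ Gr.r y ↔ x ∈ D := Iff.rfl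
theorem Gr.rl {x : B} {y : A} : ¬ (Gr.r x : Gr D B) ≤ Gr.l y := fun h => h
theorem Gr.rr {x y : B} : (Gr.r x : Gr D B) ≤ Gr.r y ↔ x ≤ y := Iff.rfl
theorem Gr.ll' {x y : A} : (Gr.l x : Gr D B) < Gr.l y ↔ x < y := by
  rw [lt_iff_le_not_ge, lt_iff_le_not_ge, Gr.ll, Gr.ll]
theorem Gr.rr' {x y : B} : (Gr.r x : Gr D B) < Gr.r y ↔ x < y := by
  rw [lt_iff_le_not_ge, lt_iff_le_not_ge, Gr.rr, Gr.rr]
theorem Gr.lr' {x : A} {y : B} : (Gr.l x : Gr D B) < Gr.r y ↔ x ∈ D := by
  rw [lt_iff_le_not_ge, Gr.lr]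
  exact ⟨fun h => h.1, fun h => ⟨h, Gr.rl D⟩⟩

theorem gr_tree (hA : IsOrderTree A) (hB : IsForest B) (hD : IsChain (· ≤ ·) (D : Set A))
    (hDn : (D : Set A).Nonempty) : IsOrderTree (Gr D B) := by
  have hA' : IsForest A := hA.2
  have hwA := wf_of_forest hA'
  have hwB := wf_of_forest hB
  have hwf : WellFounded ((· < ·) : Gr D B → Gr D B → Prop) := by
    rw [WellFounded.wellFounded_iff_has_min]
    rintro s ⟨x, hx⟩
    by_cases h : ∃ a, (Gr.l a : Gr D B) ∈ s
    · obtain ⟨m, hm, hmin⟩ := hwA.has_min {a | (Gr.l a : Gr D B) ∈ s} h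
      refine ⟨Gr.l m, hm, fun y hy hlt => ?_⟩
      cases y with
      | l y => exact hmin y hy ((Gr.ll' D).1 hlt)
      | r y => exact Gr.rl D hlt.le
    · cases x with
      | l x => exact absurd ⟨x, hx⟩ h
      | r x =>
        obtain ⟨m, hm, hmin⟩ := hwB.has_min {a | (Gr.r a : Gr D B) ∈ s} ⟨x, hx⟩
        refine ⟨Gr.r m, hm, fun y hy hlt => ?_⟩
        cases y with
        | l y => exact h ⟨y, hy⟩
        | r y => exact hmin y hy ((Gr.rr' D).1 hlt)
  refine ⟨?_, forest_of_wf hwf ?_⟩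
  · obtain ⟨⟨r, hr⟩, -⟩ := hA
    obtain ⟨d, hd⟩ := hDn
    refine ⟨Gr.l r, fun t => ?_⟩
    cases t with
    | l t => exact hr t
    | r t => exact D.lower (hr d) hd
  · intro t x hx y hy _
    cases t with
    | l t =>
      cases x with
      | l x => cases y with
        | l y => exact (hA' t).1.total (show x ∈ Iic t from hx) (show y ∈ Iic t from hy)
        | r y => exact absurd (show (Gr.r y : Gr D B) ≤ Gr.l t from hy) (Gr.rl D)
      | r x => exact absurd (show (Gr.r x : Gr D B) ≤ Gr.l t from hx) (Gr.rl D)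
    | r t =>
      cases x with
      | l x => cases y with
        | l y => exact hD.total (show x ∈ (D : Set A) from hx) (show y ∈ (D : Set A) from hy)
        | r y => exact Or.inl hx
      | r x => cases y with
        | l y => exact Or.inr hy
        | r y => exact (hB t).1.total (show x ∈ Iic t from hx) (show y ∈ Iic t from hy)

/-- The combined coordinates. -/
def grE {X : Type v} (V1 : Set X) (e0 : X → Set A) (e1 : X → Set B) (x : X) : Set (Gr D B) :=
  {q | match q with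
    | .l a => (x ∈ V1 ∧ a ∈ D) ∨ (x ∉ V1 ∧ a ∈ e0 x)
    | .r b => x ∈ V1 ∧ b ∈ e1 x}

theorem gr_bij {X : Type v} {V0 V1 : Set X} {e0 : X → Set A} {e1 : X → Set B}
    (hD : IsChain (· ≤ ·) (D : Set A))
    (hdisj : ∀ x ∈ V0, x ∉ V1) (h0 : BijOn e0 V0 (Rays A)) (h1 : BijOn e1 V1 (Rays B)) :
    BijOn (grE D V1 e0 e1) (V0 ∪ V1) (Rays (Gr D B)) := by
  have hl : ∀ x ∈ V0, ∀ a, (Gr.l a : Gr D B) ∈ grE D V1 e0 e1 x ↔ a ∈ e0 x := by
    intro x hx a
    show (x ∈ V1 ∧ a ∈ D) ∨ (x ∉ V1 ∧ a ∈ e0 x) ↔ _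
    simp [hdisj x hx]
  have hl' : ∀ x ∈ V1, ∀ a, (Gr.l a : Gr D B) ∈ grE D V1 e0 e1 x ↔ a ∈ D := by
    intro x hx a
    show (x ∈ V1 ∧ a ∈ D) ∨ (x ∉ V1 ∧ a ∈ e0 x) ↔ _
    simp [hx]
  have hr : ∀ x ∈ V0, ∀ b, (Gr.r b : Gr D B) ∉ grE D V1 e0 e1 x := by
    intro x hx b h
    exact hdisj x hx h.1
  have hr' : ∀ x ∈ V1, ∀ b, (Gr.r b : Gr D B) ∈ grE D V1 e0 e1 x ↔ b ∈ e1 x := by
    intro x hx b
    exact ⟨fun h => h.2, fun h => ⟨hx, h⟩⟩
  refine ⟨?_, ?_, ?_⟩
  · rintro x (hx | hx)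
    · obtain ⟨⟨hlow, hch, hmax⟩, hne⟩ := h0.mapsTo hx
      refine ⟨⟨?_, ?_, ?_⟩, ?_⟩
      · intro p q hqp hp
        cases p with
        | l p => cases q with
          | l q =>
            rw [hl x hx] at hp ⊢
            exact hlow hqp hp
          | r q => exact (Gr.rl D hqp).elim
        | r p => exact absurd hp (hr x hx p)
      · intro p hp q hq _
        cases p with
        | l p => cases q with
          | l q =>
            rw [hl x hx] at hp hq
            exact hch.total hp hq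
          | r q => exact absurd hq (hr x hx q)
        | r p => exact absurd hp (hr x hx p)
      · intro p hp
        cases p with
        | l p =>
          rw [hl x hx] at hp
          obtain ⟨s, hs, hps⟩ := hmax p hp
          exact ⟨Gr.l s, (hl x hx s).2 hs, (Gr.ll' D).2 hps⟩
        | r p => exact absurd hp (hr x hx p)
      · obtain ⟨a, ha⟩ := hne
        exact ⟨Gr.l a, (hl x hx a).2 ha⟩
    · obtain ⟨⟨hlow, hch, hmax⟩, hne⟩ := h1.mapsTo hx
      refine ⟨⟨?_, ?_, ?_⟩, ?_⟩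
      · intro p q hqp hp
        cases p with
        | l p => cases q with
          | l q =>
            rw [hl' x hx] at hp ⊢
            exact D.lower hqp hp
          | r q => exact (Gr.rl D hqp).elim
        | r p => cases q with
          | l q => rw [hl' x hx]; exact hqp
          | r q =>
            rw [hr' x hx] at hp ⊢
            exact hlow hqp hp
      · intro p hp q hq _
        cases p with
        | l p => cases q with
          | l q =>
            rw [hl' x hx] at hp hq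
            exact hD.total hp hq
          | r q =>
            rw [hl' x hx] at hp
            exact Or.inl hp
        | r p => cases q with
          | l q =>
            rw [hl' x hx] at hq
            exact Or.inr hq
          | r q =>
            rw [hr' x hx] at hp hq
            exact hch.total hp hq
      · intro p hp
        cases p with
        | l p =>
          rw [hl' x hx] at hp
          obtain ⟨b, hb⟩ := hne
          exact ⟨Gr.r b, (hr' x hx b).2 hb, (Gr.lr' D).2 hp⟩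
        | r p =>
          rw [hr' x hx] at hp
          obtain ⟨s, hs, hps⟩ := hmax p hp
          exact ⟨Gr.r s, (hr' x hx s).2 hs, (Gr.rr' D).2 hps⟩
      · obtain ⟨a, ha⟩ := hne
        exact ⟨Gr.r a, (hr' x hx a).2 ha⟩
  · rintro x hx y hy hxy
    rcases hx with hx | hx <;> rcases hy with hy | hy
    · refine h0.injOn hx hy ?_
      ext a
      rw [← hl x hx, ← hl y hy, hxy]
    · obtain ⟨b, hb⟩ := (h1.mapsTo hy).2
      rw [← hr' y hy, ← hxy] at hb
      exact absurd hb (hr x hx b)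
    · obtain ⟨b, hb⟩ := (h1.mapsTo hx).2
      rw [← hr' x hx, hxy] at hb
      exact absurd hb (hr y hy b)
    · refine h1.injOn hx hy ?_
      ext a
      rw [← hr' x hx, ← hr' y hy, hxy]
  · rintro R ⟨⟨hlow, hch, hmax⟩, hne⟩
    by_cases h : ∃ b, (Gr.r b : Gr D B) ∈ R
    · have h2 : {b | (Gr.r b : Gr D B) ∈ R} ∈ Rays B := by
        refine ⟨⟨?_, ?_, ?_⟩, h⟩
        · intro p q hqp hp
          exact hlow (a := Gr.r p) (b := Gr.r q) hqp hp
        · intro p hp q hq _
          exact hch.total hp hq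
        · intro p hp
          obtain ⟨s, hs, hps⟩ := hmax _ hp
          cases s with
          | l s => exact (Gr.rl D hps.le).elim
          | r s => exact ⟨s, hs, (Gr.rr' D).1 hps⟩
      obtain ⟨x, hx, hxe⟩ := h1.surjOn h2
      refine ⟨x, Or.inr hx, ?_⟩
      ext p
      cases p with
      | l p =>
        rw [hl' x hx]
        obtain ⟨b, hb⟩ := h
        constructor
        · intro hp
          exact hlow (a := Gr.r b) (b := Gr.l p) hp hb
        · intro hp
          rcases hch.total hp hb with h3 | h3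
          · exact h3
          · exact (Gr.rl D h3).elim
      | r p =>
        rw [hr' x hx, hxe]
        rfl
    · have h2 : {a | (Gr.l a : Gr D B) ∈ R} ∈ Rays A := by
        refine ⟨⟨?_, ?_, ?_⟩, ?_⟩
        · intro p q hqp hp
          exact hlow (a := Gr.l p) (b := Gr.l q) hqp hp
        · intro p hp q hq _
          exact hch.total hp hq
        · intro p hp
          obtain ⟨s, hs, hps⟩ := hmax _ hp
          cases s with
          | l s => exact ⟨s, hs, (Gr.ll' D).1 hps⟩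
          | r s => exact absurd ⟨s, hs⟩ h
        · obtain ⟨s, hs⟩ := hne
          cases s with
          | l s => exact ⟨s, hs⟩
          | r s => exact absurd ⟨s, hs⟩ h
      obtain ⟨x, hx, hxe⟩ := h0.surjOn h2
      refine ⟨x, Or.inl hx, ?_⟩
      ext p
      cases p with
      | l p =>
        rw [hl x hx, hxe]
        rfl
      | r p =>
        exact ⟨fun hp => absurd hp (hr x hx p), fun hp => absurd ⟨p, hp⟩ h⟩

end Graft

/-! ### Disjoint unions of forests -/

section Sig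

variable {I : Type u} {S : I → Type u} [∀ i, PartialOrder (S i)]

theorem sig_forest (hS : ∀ i, IsForest (S i)) : IsForest (Σ i, S i) := by
  refine forest_of_wf ?_ ?_
  · rw [WellFounded.wellFounded_iff_has_min]
    rintro s ⟨⟨i, x⟩, hx⟩
    obtain ⟨m, hm, hmin⟩ := (wf_of_forest (hS i)).has_min {a | (⟨i, a⟩ : Σ i, S i) ∈ s} ⟨x, hx⟩
    refine ⟨⟨i, m⟩, hm, ?_⟩
    rintro ⟨j, y⟩ hy hlt
    rcases hlt with ⟨_, _, _, h⟩
    exact hmin y hy h
  · rintro ⟨i, t⟩ ⟨j, x⟩ hx ⟨k, y⟩ hy _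
    rcases hx with ⟨_, _, _, hx⟩
    rcases hy with ⟨_, _, _, hy⟩
    rcases (hS i t).1.total (show x ∈ Iic t from hx) (show y ∈ Iic t from hy) with h | h
    · exact Or.inl (Sigma.mk_le_mk_iff.2 h)
    · exact Or.inr (Sigma.mk_le_mk_iff.2 h)

/-- Coordinates for the disjoint union. -/
def sigE {X : Type v} (V : I → Set X) (e : ∀ i, X → Set (S i)) (x : X) : Set (Σ i, S i) :=
  {q | x ∈ V q.1 ∧ q.2 ∈ e q.1 x}

theorem sig_bij {X : Type v} {V : I → Set X} {e : ∀ i, X → Set (S i)}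
    (hdisj : ∀ i j x, x ∈ V i → x ∈ V j → i = j) (h : ∀ i, BijOn (e i) (V i) (Rays (S i))) :
    BijOn (sigE V e) (⋃ i, V i) (Rays (Σ i, S i)) := by
  have key : ∀ i x, x ∈ V i → ∀ q : Σ i, S i, q ∈ sigE V e x ↔ ∃ b ∈ e i x, q = ⟨i, b⟩ := by
    rintro i x hx ⟨j, b⟩
    constructor
    · rintro ⟨h1, h2⟩
      obtain rfl := hdisj _ _ _ hx h1
      exact ⟨b, h2, rfl⟩
    · rintro ⟨b', hb', hq⟩
      obtain ⟨rfl, h3⟩ := Sigma.mk.inj_iff.1 hq
      obtain rfl := eq_of_heq h3
      exact ⟨hx, hb'⟩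
  refine ⟨?_, ?_, ?_⟩
  · intro x hx
    obtain ⟨i, hx⟩ := mem_iUnion.1 hx
    obtain ⟨⟨hlow, hch, hmax⟩, hne⟩ := (h i).mapsTo hx
    refine ⟨⟨?_, ?_, ?_⟩, ?_⟩
    · intro p q hqp hp
      obtain ⟨b, hb, rfl⟩ := (key i x hx p).1 hp
      obtain ⟨j, c⟩ := q
      rcases hqp with ⟨_, _, _, hqp⟩
      exact (key i x hx _).2 ⟨c, hlow hqp hb, rfl⟩
    · intro p hp q hq _
      obtain ⟨b, hb, rfl⟩ := (key i x hx p).1 hp
      obtain ⟨c, hc, rfl⟩ := (key i x hx q).1 hq
      rcases hch.total hb hc with h1 | h1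
      · exact Or.inl (Sigma.mk_le_mk_iff.2 h1)
      · exact Or.inr (Sigma.mk_le_mk_iff.2 h1)
    · intro p hp
      obtain ⟨b, hb, rfl⟩ := (key i x hx p).1 hp
      obtain ⟨c, hc, hbc⟩ := hmax b hb
      exact ⟨⟨i, c⟩, (key i x hx _).2 ⟨c, hc, rfl⟩, Sigma.mk_lt_mk_iff.2 hbc⟩
    · obtain ⟨b, hb⟩ := hne
      exact ⟨⟨i, b⟩, (key i x hx _).2 ⟨b, hb, rfl⟩⟩
  · intro x hx y hy hxy
    obtain ⟨i, hx⟩ := mem_iUnion.1 hx
    obtain ⟨j, hy⟩ := mem_iUnion.1 hy
    have hij : i = j := by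
      obtain ⟨b, hb⟩ := ((h i).mapsTo hx).2
      have h1 : (⟨i, b⟩ : Σ i, S i) ∈ sigE V e x := (key i x hx _).2 ⟨b, hb, rfl⟩
      rw [hxy] at h1
      obtain ⟨c, -, hc⟩ := (key j y hy _).1 h1
      exact (Sigma.mk.inj_iff.1 hc).1
    subst hij
    refine (h i).injOn hx hy ?_
    ext b
    have h1 : ∀ z, z ∈ V i → (b ∈ e i z ↔ (⟨i, b⟩ : Σ i, S i) ∈ sigE V e z) := fun z hz =>
      ⟨fun hb => ⟨hz, hb⟩, fun hb => hb.2⟩
    rw [h1 x hx, h1 y hy, hxy]
  · rintro R ⟨⟨hlow, hch, hmax⟩, ⟨⟨i, b0⟩, hb0⟩⟩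
    have hi : ∀ q ∈ R, ∃ b, q = ⟨i, b⟩ := by
      rintro ⟨j, c⟩ hq
      rcases hch.total hq hb0 with h1 | h1
      · rcases h1 with ⟨_, _, _, h1⟩
        exact ⟨_, rfl⟩
      · rcases h1 with ⟨_, _, _, h1⟩
        exact ⟨_, rfl⟩
    have h2 : {b | (⟨i, b⟩ : Σ i, S i) ∈ R} ∈ Rays (S i) := by
      refine ⟨⟨?_, ?_, ?_⟩, ⟨b0, hb0⟩⟩
      · intro p q hqp hp
        exact hlow (Sigma.mk_le_mk_iff.2 hqp) hp
      · intro p hp q hq _
        rcases hch.total hp hq with h1 | h1
        · exact Or.inl (Sigma.mk_le_mk_iff.1 h1)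
        · exact Or.inr (Sigma.mk_le_mk_iff.1 h1)
      · intro p hp
        obtain ⟨s, hs, hps⟩ := hmax _ hp
        obtain ⟨c, rfl⟩ := hi s hs
        exact ⟨c, hs, Sigma.mk_lt_mk_iff.1 hps⟩
    obtain ⟨x, hx, hxe⟩ := (h i).surjOn h2
    refine ⟨x, mem_iUnion.2 ⟨i, hx⟩, ?_⟩
    ext q
    rw [key i x hx]
    constructor
    · rintro ⟨b, hb, rfl⟩
      rw [hxe] at hb
      exact hb
    · intro hq
      obtain ⟨b, rfl⟩ := hi q hq
      exact ⟨b, by rw [hxe]; exact hq, rfl⟩

end Sig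

/-! ### Closure properties of `QR` -/

theorem QR.isOpen {X : Type u} [TopologicalSpace X] {V : Set X} (h : QR V) : IsOpen V := by
  obtain ⟨S, _, e, ⟨⟨r, -⟩, -⟩, -, ho⟩ := h
  have : V = {x | x ∈ V ∧ r ∈ e x} ∪ {x | x ∈ V ∧ r ∉ e x} := by
    ext x
    by_cases hr : r ∈ e x <;> simp [hr]
  rw [this]
  exact (ho r).1.union (ho r).2

theorem qr_graft {X : Type u} [TopologicalSpace X] {A : Type u} [PartialOrder A]
    (hA : IsOrderTree A) (D : LowerSet A) (hD : IsChain (· ≤ ·) (D : Set A))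
    (hDn : (D : Set A).Nonempty) {V0 : Set X} {e0 : X → Set A} (h0 : BijOn e0 V0 (Rays A))
    {I : Type u} {V : I → Set X} (hV : ∀ i, QR (V i))
    (hdisj : ∀ i j x, x ∈ V i → x ∈ V j → i = j) (hdisj0 : ∀ x ∈ V0, x ∉ ⋃ i, V i)
    (hcl : ∀ i, IsOpen ((V0 ∪ ⋃ j, V j) \ V i))
    (hl : ∀ a, IsOpen {x | x ∈ (V0 ∪ ⋃ j, V j) ∧
        ((x ∈ (⋃ j, V j) ∧ a ∈ D) ∨ (x ∉ (⋃ j, V j) ∧ a ∈ e0 x))} ∧
      IsOpen {x | x ∈ (V0 ∪ ⋃ j, V j) ∧
        ¬ ((x ∈ (⋃ j, V j) ∧ a ∈ D) ∨ (x ∉ (⋃ j, V j) ∧ a ∈ e0 x))}) :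
    QR (V0 ∪ ⋃ i, V i) := by
  classical
  choose S hS e hT he ho using hV
  have hB : IsForest (Σ i, S i) := sig_forest fun i => (hT i).2
  have h1 := sig_bij hdisj he
  refine ⟨Gr D (Σ i, S i), inferInstance, grE D (⋃ i, V i) e0 (sigE V e), gr_tree D hA hB hD hDn,
    gr_bij D hD hdisj0 h0 h1, ?_⟩
  intro q
  cases q with
  | l a => exact hl a
  | r q =>
    obtain ⟨i, b⟩ := q
    have h2 : ∀ x, (Gr.r ⟨i, b⟩ : Gr D (Σ i, S i)) ∈ grE D (⋃ i, V i) e0 (sigE V e) x ↔
        x ∈ V i ∧ b ∈ e i x := by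
      intro x
      exact ⟨fun h => h.2, fun h => ⟨mem_iUnion.2 ⟨i, h.1⟩, h⟩⟩
    simp only [h2]
    constructor
    · convert (ho i b).1 using 1
      ext x
      constructor
      · rintro ⟨-, h⟩
        exact h
      · intro h
        exact ⟨Or.inr (mem_iUnion.2 ⟨i, h.1⟩), h⟩
    · convert (hcl i).union (ho i b).2 using 1
      ext x
      constructor
      · rintro ⟨h3, h4⟩
        by_cases hx : x ∈ V i
        · exact Or.inr ⟨hx, fun h => h4 ⟨hx, h⟩⟩
        · exact Or.inl ⟨h3, hx⟩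
      · rintro (⟨h3, h4⟩ | ⟨h3, h4⟩)
        · exact ⟨h3, fun h => h4 h.1⟩
        · exact ⟨Or.inr (mem_iUnion.2 ⟨i, h3⟩), fun h => h4 h.2⟩

theorem punit_tree : IsOrderTree PUnit.{u + 1} := by
  refine ⟨⟨PUnit.unit, fun t => le_rfl⟩, fun t => ⟨?_, ?_⟩⟩
  · intro x _ y _ h
    exact absurd (Subsingleton.elim x y) h
  · exact (wellFounded_lt (α := PUnit.{u + 1})).wellFoundedOn

theorem punit_rays : Rays PUnit.{u + 1} = ∅ := by
  ext R
  simp only [mem_empty_iff_false, iff_false]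
  rintro ⟨⟨-, -, h⟩, ⟨x, hx⟩⟩
  obtain ⟨y, -, hy⟩ := h x hx
  exact lt_irrefl _ hy

theorem qr_sum {X : Type u} [TopologicalSpace X] {I : Type u} {V : I → Set X}
    (hV : ∀ i, QR (V i)) (hdisj : ∀ i j x, x ∈ V i → x ∈ V j → i = j) : QR (⋃ i, V i) := by
  have ho : IsOpen (⋃ i, V i) := isOpen_iUnion fun i => (hV i).isOpen
  have h0 : BijOn (fun _ : X => (∅ : Set PUnit.{u + 1})) (∅ : Set X) (Rays PUnit.{u + 1}) := by
    rw [punit_rays]
    exact bijOn_empty _
  have hmain := qr_graft (X := X) punit_tree (⊤ : LowerSet PUnit.{u + 1})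
    (by
      intro x _ y _ h
      exact absurd (Subsingleton.elim x y) h)
    ⟨PUnit.unit, trivial⟩ h0 hV hdisj (fun x hx => absurd hx (notMem_empty x))
    (by
      intro i
      rw [empty_union]
      have h1 : (⋃ j, V j) \ V i = ⋃ j : {j // j ≠ i}, V j.1 := by
        ext x
        constructor
        · rintro ⟨h2, h3⟩
          obtain ⟨j, hj⟩ := mem_iUnion.1 h2
          exact mem_iUnion.2 ⟨⟨j, fun h => h3 (by rw [← h]; exact hj)⟩, hj⟩
        · intro h
          obtain ⟨⟨j, hji⟩, hj⟩ := mem_iUnion.1 h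
          exact ⟨mem_iUnion.2 ⟨j, hj⟩, fun h3 => hji (hdisj _ _ _ hj h3)⟩
      rw [h1]
      exact isOpen_iUnion fun j => (hV j.1).isOpen)
    (by
      intro a
      rw [empty_union]
      constructor
      · convert ho using 1
        ext x
        constructor
        · exact fun h => h.1
        · exact fun h => ⟨h, Or.inl ⟨h, trivial⟩⟩
      · convert isOpen_empty using 1
        ext x
        simp only [mem_empty_iff_false, iff_false]
        rintro ⟨h1, h2⟩
        exact h2 (Or.inl ⟨h1, trivial⟩))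
  rwa [empty_union] at hmain

theorem qr_empty {X : Type u} [TopologicalSpace X] : QR (∅ : Set X) := by
  refine ⟨PUnit, inferInstance, fun _ => ∅, punit_tree, ?_, ?_⟩
  · rw [punit_rays]
    exact bijOn_empty _
  · intro s
    simp

/-! ### Cones -/

section Cone

variable {T : Type u} [PartialOrder T]

/-- The part of the cone of `c` avoiding the cones of `F`. -/
abbrev Sub (c : T) (F : Set T) : Type u := {t : T // c ≤ t ∧ ∀ f ∈ F, ¬ f ≤ t}

theorem sub_tree (hT : IsOrderTree T) (c : T) (F : Set T) (hF : ∀ f ∈ F, c < f) :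
    IsOrderTree (Sub c F) := by
  refine ⟨⟨⟨c, le_rfl, fun f hf h => absurd (lt_of_lt_of_le (hF f hf) h) (lt_irrefl _)⟩,
    fun t => t.2.1⟩, ?_⟩
  refine forest_of_wf ?_ ?_
  · exact InvImage.wf (fun t : Sub c F => t.1) (wf_of_forest hT.2)
  · intro t x hx y hy _
    exact (hT.2 t.1).1.total (show x.1 ∈ Iic t.1 from hx) (show y.1 ∈ Iic t.1 from hy)

theorem sub_bij (hT : IsOrderTree T) (c : T) (F : Set T) :
    BijOn (fun (P : Ray False T) => {t : Sub c F | t.1 ∈ P.1})
      {P | c ∈ P.1 ∧ ∀ f ∈ F, f ∉ P.1} (Rays (Sub c F)) := by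
  refine ⟨?_, ?_, ?_⟩
  · rintro P ⟨hc, hF⟩
    have hsub : ∀ x ∈ P.1, c ≤ x → ∃ t : Sub c F, t.1 = x := fun x hx hcx =>
      ⟨⟨x, hcx, fun f hf hfx => hF f hf (P.2.1.1 hfx hx)⟩, rfl⟩
    refine ⟨⟨?_, ?_, ?_⟩, ?_⟩
    · intro x y hyx hx
      exact P.2.1.1 hyx hx
    · intro x hx y hy _
      exact P.2.1.2.1.total hx hy
    · intro x hx
      obtain ⟨s, hs, hxs⟩ := P.2.1.2.2 x.1 hx
      obtain ⟨t, rfl⟩ := hsub s hs (x.2.1.trans hxs.le)
      exact ⟨t, hs, hxs⟩
    · obtain ⟨t, ht⟩ := hsub c hc le_rfl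
      exact ⟨t, show t.1 ∈ P.1 by rw [ht]; exact hc⟩
  · rintro P ⟨hc, hF⟩ Q ⟨hc', hF'⟩ hPQ
    have key : ∀ P Q : Ray False T, c ∈ P.1 → (∀ f ∈ F, f ∉ P.1) →
        {t : Sub c F | t.1 ∈ P.1} = {t : Sub c F | t.1 ∈ Q.1} → P.1 ⊆ Q.1 := by
      intro P Q hc hF h x hx
      rcases P.2.1.2.1.total hc hx with hcx | hxc
      · have h1 : (⟨x, hcx, fun f hf hfx => hF f hf (P.2.1.1 hfx hx)⟩ : Sub c F) ∈
            {t : Sub c F | t.1 ∈ P.1} := hx
        rw [h] at h1
        exact h1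
      · have h1 : (⟨c, le_rfl, fun f hf hfx => hF f hf (P.2.1.1 hfx hc)⟩ : Sub c F) ∈
            {t : Sub c F | t.1 ∈ P.1} := hc
        rw [h] at h1
        exact Q.2.1.1 hxc h1
    exact Subtype.ext (subset_antisymm (key P Q hc hF hPQ) (key Q P hc' hF' hPQ.symm))
  · rintro R ⟨⟨hlow, hch, hmax⟩, ⟨r, hr⟩⟩
    refine ⟨⟨{x | ∃ y ∈ R, x ≤ y.1}, ⟨⟨?_, ?_, ?_⟩, Or.inr ⟨r.1, r, hr, le_rfl⟩⟩⟩, ⟨?_, ?_⟩, ?_⟩
    · rintro a b hba ⟨y, hy, hay⟩
      exact ⟨y, hy, hba.trans hay⟩
    · rintro a ⟨y, hy, hay⟩ b ⟨z, hz, hbz⟩ _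
      rcases hch.total hy hz with h | h
      · exact (hT.2 z.1).1.total (mem_Iic.2 (hay.trans h)) (mem_Iic.2 hbz)
      · exact (hT.2 y.1).1.total (mem_Iic.2 hay) (mem_Iic.2 (hbz.trans h))
    · rintro a ⟨y, hy, hay⟩
      obtain ⟨z, hz, hyz⟩ := hmax y hy
      exact ⟨z.1, ⟨z, hz, le_rfl⟩, lt_of_le_of_lt hay hyz⟩
    · exact ⟨r, hr, r.2.1⟩
    · rintro f hf ⟨y, hy, hfy⟩
      exact y.2.2 f hf hfy
    · ext t
      constructor
      · rintro ⟨y, hy, hty⟩
        exact hlow (show t ≤ y from hty) hy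
      · intro ht
        exact ⟨t, ht, le_rfl⟩

theorem isOpen_mem (t : T) : IsOpen {P : Ray False T | t ∈ P.1} := by
  have : {P : Ray False T | t ∈ P.1} = nb False {t} ∅ := by
    ext R
    simp [nb]
  rw [this]
  exact isOpen_nb (finite_singleton t) finite_empty

theorem isOpen_notMem (t : T) : IsOpen {P : Ray False T | t ∉ P.1} := by
  have : {P : Ray False T | t ∉ P.1} = nb False ∅ {t} := by
    ext R
    simp [nb]
  rw [this]
  exact isOpen_nb finite_empty (finite_singleton t)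

theorem qr_basic (hT : IsOrderTree T) (c : T) (F : Set T) (hF : ∀ f ∈ F, c < f)
    (ho : IsOpen {P : Ray False T | c ∈ P.1 ∧ ∀ f ∈ F, f ∉ P.1}) :
    QR {P : Ray False T | c ∈ P.1 ∧ ∀ f ∈ F, f ∉ P.1} := by
  refine ⟨Sub c F, inferInstance, _, sub_tree hT c F hF, sub_bij hT c F, fun s => ⟨?_, ?_⟩⟩
  · exact ho.inter (isOpen_mem s.1)
  · exact ho.inter (isOpen_notMem s.1)

/-- Two nodes of a ray whose down-sets agree are equal. -/
theorem top_unique {P : Ray False T} {s s' : T} (hs : s ∈ P.1) (hs' : s' ∈ P.1)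
    (h : Iio s = Iio s') : s = s' := by
  rcases P.2.1.2.1.total hs hs' with h1 | h1
  · rcases eq_or_lt_of_le h1 with h2 | h2
    · exact h2
    · have : s ∈ Iio s := by rw [h]; exact h2
      exact absurd this (lt_irrefl s)
  · rcases eq_or_lt_of_le h1 with h2 | h2
    · exact h2.symm
    · have : s' ∈ Iio s' := by rw [← h]; exact h2
      exact absurd this (lt_irrefl s')

/-- A ray properly containing a lower set contains a top of it. -/
theorem exists_top (hT : IsOrderTree T) {P : Ray False T} {R : Set T} (hR : IsLowerSet R)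
    (hRP : R ⊆ P.1) (hne : ¬ P.1 ⊆ R) : ∃ s ∈ P.1, Iio s = R := by
  obtain ⟨x, hx, hxR⟩ := not_subset.1 hne
  obtain ⟨s, ⟨hs, hsR⟩, hmin⟩ := (wf_of_forest hT.2).has_min {y | y ∈ P.1 ∧ y ∉ R} ⟨x, hx, hxR⟩
  refine ⟨s, hs, ?_⟩
  ext y
  constructor
  · intro hy
    by_contra hyR
    exact hmin y ⟨P.2.1.1 (le_of_lt hy) hs, hyR⟩ hy
  · intro hy
    rcases P.2.1.2.1.total (hRP hy) hs with h | h
    · refine lt_of_le_of_ne h ?_
      rintro rfl
      exact hsR hy
    · exact absurd (hR h hy) hsR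

/-- The cone of `c` without the rays containing a given ray. -/
theorem qr_cone (hT : IsOrderTree T) (c : T) (P0 : Ray False T) (hc : c ∈ P0.1) :
    QR {P : Ray False T | c ∈ P.1 ∧ ¬ P0.1 ⊆ P.1} := by
  classical
  have hW : IsOpen {P : Ray False T | c ∈ P.1 ∧ ¬ P0.1 ⊆ P.1} := by
    have : {P : Ray False T | c ∈ P.1 ∧ ¬ P0.1 ⊆ P.1} =
        {P : Ray False T | c ∈ P.1} ∩ ⋃ x ∈ P0.1, {P : Ray False T | x ∉ P.1} := by
      ext P
      simp only [mem_inter_iff, mem_ofPred_eq, mem_iUnion, not_subset, exists_prop]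
    rw [this]
    exact (isOpen_mem c).inter (isOpen_biUnion fun x _ => isOpen_notMem x)
  -- the sequence
  have hnext : ∀ x : P0.1, ∃ y : P0.1, x.1 < y.1 := by
    intro x
    obtain ⟨y, hy, hxy⟩ := P0.2.1.2.2 x.1 x.2
    exact ⟨⟨y, hy⟩, hxy⟩
  choose nx hnx using hnext
  let t' : ℕ → P0.1 := fun n => nx^[n] ⟨c, hc⟩
  let t : ℕ → T := fun n => (t' n).1
  have ht0 : t 0 = c := rfl
  have htP : ∀ n, t n ∈ P0.1 := fun n => (t' n).2
  have hlt : ∀ n, t n < t (n + 1) := by
    intro n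
    have : t' (n + 1) = nx (t' n) := Function.iterate_succ_apply' nx n _
    show (t' n).1 < (t' (n + 1)).1
    rw [this]
    exact hnx _
  have hmono : StrictMono t := strictMono_nat_of_lt_succ hlt
  -- first exit
  have hexit : ∀ P : Ray False T, c ∈ P.1 → (∃ n, t n ∉ P.1) → ∃ n, t n ∈ P.1 ∧ t (n + 1) ∉ P.1 := by
    intro P hcP h
    have h1 := Nat.find_spec h
    have h2 : Nat.find h ≠ 0 := by
      intro h3
      rw [h3] at h1
      exact h1 hcP
    obtain ⟨k, hk⟩ := Nat.exists_eq_succ_of_ne_zero h2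
    refine ⟨k, ?_, ?_⟩
    · by_contra hcon
      exact Nat.find_min h (by omega) hcon
    · rw [hk] at h1
      exact h1
  by_cases hcof : ∀ x ∈ P0.1, ∃ n, x ≤ t n
  · -- the sequence is cofinal
    let V : ULift.{u} ℕ → Set (Ray False T) := fun n =>
      {P | t n.down ∈ P.1 ∧ ∀ f ∈ ({t (n.down + 1)} : Set T), f ∉ P.1}
    have hVeq : {P : Ray False T | c ∈ P.1 ∧ ¬ P0.1 ⊆ P.1} = ⋃ n, V n := by
      ext P
      simp only [mem_iUnion]
      constructor
      · rintro ⟨hcP, hP⟩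
        obtain ⟨x, hx, hxP⟩ := not_subset.1 hP
        obtain ⟨n, hn⟩ := hcof x hx
        obtain ⟨k, hk1, hk2⟩ := hexit P hcP ⟨n, fun h => hxP (P.2.1.1 hn h)⟩
        refine ⟨⟨k⟩, hk1, ?_⟩
        rintro f rfl
        exact hk2
      · rintro ⟨⟨n⟩, hn1, hn2⟩
        refine ⟨?_, fun h => hn2 _ rfl (h (htP (n + 1)))⟩
        have : c ≤ t n := by rw [← ht0]; exact hmono.monotone (Nat.zero_le n)
        exact P.2.1.1 this hn1
    rw [hVeq]
    refine qr_sum (fun n => ?_) ?_
    · refine qr_basic hT _ _ ?_ ?_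
      · rintro f rfl
        exact hlt _
      · have : {P : Ray False T | t n.down ∈ P.1 ∧ ∀ f ∈ ({t (n.down + 1)} : Set T), f ∉ P.1} =
            {P : Ray False T | t n.down ∈ P.1} ∩ {P : Ray False T | t (n.down + 1) ∉ P.1} := by
          ext P
          simp
        rw [this]
        exact (isOpen_mem _).inter (isOpen_notMem _)
    · rintro ⟨i⟩ ⟨j⟩ P ⟨hi1, hi2⟩ ⟨hj1, hj2⟩
      have hi2' : t (i + 1) ∉ P.1 := hi2 _ rfl
      have hj2' : t (j + 1) ∉ P.1 := hj2 _ rfl
      have hi1' : t i ∈ P.1 := hi1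
      have hj1' : t j ∈ P.1 := hj1
      rcases lt_trichotomy i j with h | h | h
      · exact absurd (P.2.1.1 (hmono.monotone (by omega : i + 1 ≤ j)) hj1') hi2'
      · rw [h]
      · exact absurd (P.2.1.1 (hmono.monotone (by omega : j + 1 ≤ i)) hi1') hj2'
  · -- the sequence is bounded
    push Not at hcof
    obtain ⟨s, ⟨hs, hsn⟩, hmin⟩ := (wf_of_forest hT.2).has_min
      {x | x ∈ P0.1 ∧ ∀ n, ¬ x ≤ t n} hcof
    have hts : ∀ n, t n < s := by
      intro n
      rcases P0.2.1.2.1.total (htP n) hs with h | h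
      · refine lt_of_le_of_ne h ?_
        intro h'
        exact hsn n h'.symm.le
      · exact absurd h (hsn n)
    have hIio : ∀ x, x < s ↔ ∃ n, x ≤ t n := by
      intro x
      constructor
      · intro hx
        by_contra hcon
        push Not at hcon
        exact hmin x ⟨P0.2.1.1 hx.le hs, hcon⟩ hx
      · rintro ⟨n, hn⟩
        exact lt_of_le_of_lt hn (hts n)
    -- the ray `Iio s`
    have hpray : IsRay (Iio s) := by
      refine ⟨isLowerSet_Iio s, (hT.2 s).1.mono Iio_subset_Iic_self, ?_⟩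
      intro x hx
      obtain ⟨n, hn⟩ := (hIio x).1 hx
      exact ⟨t (n + 1), hts _, lt_of_le_of_lt hn (hlt n)⟩
    let pR : Ray False T := ⟨Iio s, hpray, Or.inr ⟨c, by rw [← ht0]; exact hts 0⟩⟩
    let F0 : Set T := {f | Iio f = P0.1}
    have hF0 : ∀ f ∈ F0, s < f := by
      intro f hf
      have : s ∈ Iio f := by
        rw [show Iio f = P0.1 from hf]
        exact hs
      exact this
    let A : Type u := Sub s F0
    let D : LowerSet A := ⟨{a | a.1 ∈ P0.1}, fun a b hba ha => P0.2.1.1 hba ha⟩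
    have hDc : IsChain (· ≤ ·) (D : Set A) := by
      intro a ha b hb _
      exact P0.2.1.2.1.total (show a.1 ∈ P0.1 from ha) (show b.1 ∈ P0.1 from hb)
    have hDn : (D : Set A).Nonempty :=
      ⟨⟨s, le_rfl, fun f hf h => absurd (lt_of_lt_of_le (hF0 f hf) h) (lt_irrefl _)⟩, hs⟩
    have hspR : s ∉ pR.1 := fun h => lt_irrefl s (show s < s from h)
    let V0 : Set (Ray False T) := {P | P = pR ∨ (s ∈ P.1 ∧ ¬ P0.1 ⊆ P.1)}
    let σ : Ray False T → Ray False T := fun P => if P = pR then P0 else P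
    have hF0P : ∀ P : Ray False T, s ∈ P.1 → ((∀ f ∈ F0, f ∉ P.1) ↔ (P = P0 ∨ ¬ P0.1 ⊆ P.1)) := by
      intro P hsP
      constructor
      · intro h
        by_contra hcon
        push Not at hcon
        obtain ⟨f, hf, hfP⟩ := exists_top hT P0.2.1.1 hcon.2 fun h' =>
          hcon.1 (Subtype.ext (subset_antisymm h' hcon.2))
        exact h f hfP hf
      · rintro (rfl | h)
        · intro f hf hfP
          have h1 : f ∈ Iio f := by
            rw [show Iio f = P.1 from hf]
            exact hfP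
          exact lt_irrefl f h1
        · intro f hf hfP
          apply h
          rw [← show Iio f = P0.1 from hf]
          intro x hx
          exact P.2.1.1 (le_of_lt hx) hfP
    have hσ : BijOn σ V0 {P : Ray False T | s ∈ P.1 ∧ ∀ f ∈ F0, f ∉ P.1} := by
      have hne : ∀ P : Ray False T, s ∈ P.1 → P ≠ pR := by
        rintro P h rfl
        exact hspR h
      refine ⟨?_, ?_, ?_⟩
      · rintro P (rfl | ⟨h1, h2⟩)
        · have : σ pR = P0 := if_pos rfl
          rw [this]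
          exact ⟨hs, (hF0P P0 hs).2 (Or.inl rfl)⟩
        · have : σ P = P := if_neg (hne P h1)
          rw [this]
          exact ⟨h1, (hF0P P h1).2 (Or.inr h2)⟩
      · rintro P hP Q hQ hPQ
        rcases hP with rfl | ⟨h1, h2⟩ <;> rcases hQ with rfl | ⟨h3, h4⟩
        · rfl
        · have h5 : σ pR = P0 := if_pos rfl
          have h6 : σ Q = Q := if_neg (hne Q h3)
          rw [h5, h6] at hPQ
          exact absurd (by rw [hPQ]) h4
        · have h5 : σ pR = P0 := if_pos rfl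
          have h6 : σ P = P := if_neg (hne P h1)
          rw [h5, h6] at hPQ
          exact absurd (by rw [hPQ]) h2
        · have h5 : σ P = P := if_neg (hne P h1)
          have h6 : σ Q = Q := if_neg (hne Q h3)
          rw [h5, h6] at hPQ
          exact hPQ
      · rintro P ⟨h1, h2⟩
        rcases (hF0P P h1).1 h2 with rfl | h3
        · exact ⟨pR, Or.inl rfl, if_pos rfl⟩
        · exact ⟨P, Or.inr ⟨h1, h3⟩, if_neg (hne P h1)⟩
    have h0 : BijOn ((fun (P : Ray False T) => {a : Sub s F0 | a.1 ∈ P.1}) ∘ σ) V0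
        (Rays (Sub s F0)) := (sub_bij hT s F0).comp hσ
    -- the pieces below `s`
    let J : Type u := {i : T // (∃ n, i = t n) ∨ (Iio i = Iio s ∧ i ≠ s)}
    let V : J → Set (Ray False T) := fun i =>
      {P | i.1 ∈ P.1 ∧ ∀ f ∈ {f | ∃ n, f = t n ∧ i.1 < f}, f ∉ P.1}
    have hVclopen : ∀ i, IsClopen (V i) := by
      rintro ⟨i, hi⟩
      rcases hi with ⟨n, rfl⟩ | ⟨hi1, hi2⟩
      · have : V ⟨t n, Or.inl ⟨n, rfl⟩⟩ =
            {P : Ray False T | t n ∈ P.1} ∩ {P : Ray False T | t (n + 1) ∉ P.1} := by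
          ext P
          constructor
          · rintro ⟨h1, h2⟩
            exact ⟨h1, h2 _ ⟨n + 1, rfl, hlt n⟩⟩
          · rintro ⟨h1, h2⟩
            refine ⟨h1, ?_⟩
            rintro f ⟨m, rfl, hm⟩ hmP
            have hnm : n < m := hmono.lt_iff_lt.1 hm
            exact h2 (P.2.1.1 (hmono.monotone (by omega : n + 1 ≤ m)) hmP)
        rw [this]
        refine IsClopen.inter ⟨?_, isOpen_mem _⟩ ⟨?_, isOpen_notMem _⟩
        · rw [← isOpen_compl_iff]
          exact isOpen_notMem _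
        · rw [← isOpen_compl_iff]
          convert isOpen_mem (t (n + 1)) using 1
          ext P
          simp
      · have : V ⟨i, Or.inr ⟨hi1, hi2⟩⟩ = {P : Ray False T | i ∈ P.1} := by
          ext P
          constructor
          · rintro ⟨h1, h2⟩
            exact h1
          · intro h1
            refine ⟨h1, ?_⟩
            rintro f ⟨m, rfl, hm⟩ _
            have h3 : t m ∈ Iio i := by rw [hi1]; exact hts m
            exact absurd (lt_trans hm h3) (lt_irrefl _)
        rw [this]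
        refine ⟨?_, isOpen_mem _⟩
        rw [← isOpen_compl_iff]
        exact isOpen_notMem _
    have hVqr : ∀ i, QR (V i) := by
      intro i
      refine qr_basic hT i.1 _ ?_ (hVclopen i).2
      rintro f ⟨n, rfl, h⟩
      exact h
    have hdisj : ∀ i j : J, ∀ P, P ∈ V i → P ∈ V j → i = j := by
      have key : ∀ i j : J, ∀ P, P ∈ V i → P ∈ V j → ¬ i.1 < j.1 := by
        rintro ⟨i, hi⟩ ⟨j, hj⟩ P ⟨hi1, hi2⟩ ⟨hj1, hj2⟩ hij
        have hij' : i < j := hij
        have hj1' : j ∈ P.1 := hj1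
        rcases hj with ⟨n, rfl⟩ | ⟨hj3, hj4⟩
        · exact hi2 _ ⟨n, rfl, hij'⟩ hj1'
        · have his : i < s := by
            have : i ∈ Iio s := by rw [← hj3]; exact hij'
            exact this
          rcases hi with ⟨n, rfl⟩ | ⟨hi3, hi4⟩
          · have h1 : t (n + 1) ∈ Iio j := by rw [hj3]; exact hts _
            exact hi2 _ ⟨n + 1, rfl, hlt n⟩ (P.2.1.1 (le_of_lt h1) hj1')
          · have : i ∈ Iio i := by rw [hi3]; exact his
            exact lt_irrefl i this
      intro i j P hi hj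
      apply Subtype.ext
      rcases P.2.1.2.1.total hi.1 hj.1 with h | h
      · rcases eq_or_lt_of_le h with h | h
        · exact h
        · exact absurd h (key i j P hi hj)
      · rcases eq_or_lt_of_le h with h | h
        · exact h.symm
        · exact absurd h (key j i P hj hi)
    have hVs : ∀ P, P ∈ (⋃ i, V i) → s ∉ P.1 := by
      intro P hP hsP
      obtain ⟨⟨i, hi⟩, hi1, hi2⟩ := mem_iUnion.1 hP
      have hi1' : i ∈ P.1 := hi1
      rcases hi with ⟨n, rfl⟩ | ⟨hi3, hi4⟩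
      · exact hi2 _ ⟨n + 1, rfl, hlt n⟩ (P.2.1.1 (hts _).le hsP)
      · exact hi4 (top_unique hi1' hsP hi3)
    have hVp : pR ∉ ⋃ i, V i := by
      intro hP
      obtain ⟨⟨i, hi⟩, hi1, hi2⟩ := mem_iUnion.1 hP
      have hi1' : i < s := hi1
      rcases hi with ⟨n, rfl⟩ | ⟨hi3, hi4⟩
      · exact hi2 _ ⟨n + 1, rfl, hlt n⟩ (hts _)
      · have : i ∈ Iio i := by rw [hi3]; exact hi1'
        exact lt_irrefl i this
    have hVW : ∀ P : Ray False T, P ∈ (⋃ i, V i) ↔ (c ∈ P.1 ∧ s ∉ P.1 ∧ P ≠ pR) := by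
      intro P
      constructor
      · intro hP
        refine ⟨?_, hVs P hP, fun h => hVp (by rw [← h]; exact hP)⟩
        obtain ⟨⟨i, hi⟩, hi1, hi2⟩ := mem_iUnion.1 hP
        have hi1' : i ∈ P.1 := hi1
        rcases hi with ⟨n, rfl⟩ | ⟨hi3, hi4⟩
        · exact P.2.1.1 (hmono.monotone (Nat.zero_le n)) hi1'
        · have : c ∈ Iio i := by rw [hi3]; exact hts 0
          exact P.2.1.1 (le_of_lt this) hi1'
      · rintro ⟨h1, h2, h3⟩
        by_cases h4 : ∃ n, t n ∉ P.1
        · obtain ⟨n, hn1, hn2⟩ := hexit P h1 h4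
          refine mem_iUnion.2 ⟨⟨t n, Or.inl ⟨n, rfl⟩⟩, hn1, ?_⟩
          rintro f ⟨m, rfl, hm⟩ hmP
          have hnm : n < m := hmono.lt_iff_lt.1 hm
          exact hn2 (P.2.1.1 (hmono.monotone (by omega : n + 1 ≤ m)) hmP)
        · push Not at h4
          have h5 : Iio s ⊆ P.1 := by
            intro x hx
            obtain ⟨n, hn⟩ := (hIio x).1 hx
            exact P.2.1.1 hn (h4 n)
          obtain ⟨i, hi, his⟩ := exists_top hT (isLowerSet_Iio s) h5 fun h' =>
            h3 (Subtype.ext (subset_antisymm h' h5))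
          have hne : i ≠ s := by
            rintro rfl
            exact h2 hi
          refine mem_iUnion.2 ⟨⟨i, Or.inr ⟨his, hne⟩⟩, hi, ?_⟩
          rintro f ⟨m, rfl, hm⟩ _
          have h3 : t m ∈ Iio i := by rw [his]; exact hts m
          exact absurd (lt_trans hm h3) (lt_irrefl _)
    have hWeq : {P : Ray False T | c ∈ P.1 ∧ ¬ P0.1 ⊆ P.1} = V0 ∪ ⋃ i, V i := by
      ext P
      constructor
      · rintro ⟨h1, h2⟩
        by_cases h3 : P = pR
        · exact Or.inl (Or.inl h3)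
        by_cases h4 : s ∈ P.1
        · exact Or.inl (Or.inr ⟨h4, h2⟩)
        · exact Or.inr ((hVW P).2 ⟨h1, h4, h3⟩)
      · rintro ((rfl | ⟨h1, h2⟩) | h)
        · exact ⟨hts 0, fun h => hspR (h hs)⟩
        · exact ⟨P.2.1.1 (hts 0).le h1, h2⟩
        · obtain ⟨h1, h2, -⟩ := (hVW P).1 h
          exact ⟨h1, fun h => h2 (h hs)⟩
    rw [hWeq]
    refine qr_graft (sub_tree hT s F0 hF0) D hDc hDn h0 hVqr hdisj ?_ ?_ ?_
    · rintro P (rfl | ⟨h1, h2⟩)
      · exact hVp
      · exact fun h => hVs P h h1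
    · intro i
      rw [← hWeq]
      exact hW.inter (hVclopen i).1.isOpen_compl
    · intro a
      rw [← hWeq]
      have key : ∀ P : Ray False T, c ∈ P.1 →
          (((P ∈ (⋃ j, V j) ∧ a ∈ D) ∨ (P ∉ (⋃ j, V j) ∧
            a ∈ ((fun (P : Ray False T) => {a : Sub s F0 | a.1 ∈ P.1}) ∘ σ) P)) ↔
            ((a.1 ∈ P0.1 ∧ s ∉ P.1) ∨ a.1 ∈ P.1)) := by
        intro P hcP
        by_cases h3 : P = pR
        · have h4 : σ P = P0 := if_pos h3
          have h5 : P ∉ (⋃ j, V j) := by rw [h3]; exact hVp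
          have h6 : s ∉ P.1 := by rw [h3]; exact hspR
          have h7 : a.1 ∉ P.1 := fun h => h6 (P.2.1.1 a.2.1 h)
          have h8 : a ∈ ((fun (P : Ray False T) => {a : Sub s F0 | a.1 ∈ P.1}) ∘ σ) P ↔
              a.1 ∈ P0.1 := by
            show a.1 ∈ (σ P).1 ↔ _
            rw [h4]
          rw [h8]
          simp only [h5, h6, h7, false_and, false_or, not_false_eq_true, true_and, and_true,
            or_false]
        · have h4 : σ P = P := if_neg h3
          have h8 : a ∈ ((fun (P : Ray False T) => {a : Sub s F0 | a.1 ∈ P.1}) ∘ σ) P ↔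
              a.1 ∈ P.1 := by
            show a.1 ∈ (σ P).1 ↔ _
            rw [h4]
          rw [h8]
          by_cases h5 : s ∈ P.1
          · have h6 : P ∉ (⋃ j, V j) := fun h => hVs P h h5
            simp only [h5, h6, false_and, false_or, not_false_eq_true, true_and, not_true_eq_false,
              and_false]
          · have h6 : P ∈ (⋃ j, V j) := (hVW P).2 ⟨hcP, h5, h3⟩
            have h7 : a.1 ∉ P.1 := fun h => h5 (P.2.1.1 a.2.1 h)
            have h9 : a ∈ D ↔ a.1 ∈ P0.1 := Iff.rfl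
            rw [h9]
            simp only [h5, h6, h7, not_true_eq_false, false_and, or_false, not_false_eq_true,
              true_and, and_true]
      constructor
      · have : {P : Ray False T | P ∈ {P : Ray False T | c ∈ P.1 ∧ ¬ P0.1 ⊆ P.1} ∧
            ((P ∈ (⋃ j, V j) ∧ a ∈ D) ∨ (P ∉ (⋃ j, V j) ∧
            a ∈ ((fun (P : Ray False T) => {a : Sub s F0 | a.1 ∈ P.1}) ∘ σ) P))} =
            {P : Ray False T | c ∈ P.1 ∧ ¬ P0.1 ⊆ P.1} ∩
              ((if a.1 ∈ P0.1 then {P : Ray False T | s ∉ P.1} else ∅) ∪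
                {P : Ray False T | a.1 ∈ P.1}) := by
          ext P
          constructor
          · rintro ⟨h1, h2⟩
            refine ⟨h1, ?_⟩
            rcases (key P h1.1).1 h2 with h3 | h3
            · left
              rw [if_pos h3.1]
              exact h3.2
            · exact Or.inr h3
          · rintro ⟨h1, h2⟩
            refine ⟨h1, (key P h1.1).2 ?_⟩
            rcases h2 with h3 | h3
            · left
              by_cases h4 : a.1 ∈ P0.1
              · rw [if_pos h4] at h3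
                exact ⟨h4, h3⟩
              · rw [if_neg h4] at h3
                exact h3.elim
            · exact Or.inr h3
        rw [this]
        refine hW.inter (IsOpen.union ?_ (isOpen_mem _))
        split_ifs
        · exact isOpen_notMem _
        · exact isOpen_empty
      · have : {P : Ray False T | P ∈ {P : Ray False T | c ∈ P.1 ∧ ¬ P0.1 ⊆ P.1} ∧
            ¬ ((P ∈ (⋃ j, V j) ∧ a ∈ D) ∨ (P ∉ (⋃ j, V j) ∧
            a ∈ ((fun (P : Ray False T) => {a : Sub s F0 | a.1 ∈ P.1}) ∘ σ) P))} =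
            {P : Ray False T | c ∈ P.1 ∧ ¬ P0.1 ⊆ P.1} ∩
              ((if a.1 ∈ P0.1 then {P : Ray False T | s ∈ P.1} else univ) ∩
                {P : Ray False T | a.1 ∉ P.1}) := by
          ext P
          constructor
          · rintro ⟨h1, h2⟩
            rw [key P h1.1] at h2
            push Not at h2
            refine ⟨h1, ?_, h2.2⟩
            split_ifs with h4
            · exact h2.1 h4
            · trivial
          · rintro ⟨h1, h2, h3⟩
            refine ⟨h1, ?_⟩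
            rw [key P h1.1]
            push Not
            refine ⟨fun h4 => ?_, h3⟩
            rw [if_pos h4] at h2
            exact h2
        rw [this]
        refine hW.inter (IsOpen.inter ?_ (isOpen_notMem _))
        split_ifs
        · exact isOpen_mem _
        · exact isOpen_univ

end Cone

end Pool.Agent.Q150.RaySpace
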