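import Pool.Agent.Q150.RSkelDefs

/-!
# Retractional skeletons: limits along directed sets
-/

set_option autoImplicit false

open Set Topology Filter Uniformity

namespace Pool.Agent.Q150.RSkel

section

variable {K : Type*} [UniformSpace K] [CompactSpace K] [T2Space K] {Γ : Type*} [PartialOrder Γ]
  {r : Γ → K → K}

omit [CompactSpace K] [T2Space K] in
theorem c1 (h : RetractionalSkeleton r) {s t : Γ} (hst : s ≤ t) (x : K) : r s (r t x) = r s x :=
  (congrFun (h.comp s t hst).1 x).symm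

omit [CompactSpace K] [T2Space K] in
theorem c2 (h : RetractionalSkeleton r) {s t : Γ} (hst : s ≤ t) (x : K) : r t (r s x) = r s x :=
  (congrFun (h.comp s t hst).2 x).symm

/-- uniform convergence along increasing sequences -/
theorem unif_seq (h : RetractionalSkeleton r) {s : ℕ → Γ} (hs : Monotone s) {t : Γ}
    (ht : IsLUB (range s) t) {V : Set (K × K)} (hV : V ∈ 𝓤 K) : ∃ N, ∀ n, N ≤ n → ∀ x, (r (s n) x, r t x) ∈ V := by
  by_contra hcon
  push Not at hcon
  have hst : ∀ n, s n ≤ t := fun n => ht.1 ⟨n, rfl⟩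
  have hfreq : ∃ᶠ n in atTop, ∃ x, (r (s n) x, r t x) ∉ V := by
    rw [frequently_atTop]
    intro N
    obtain ⟨n, hn, x, hx⟩ := hcon N
    exact ⟨n, hn, x, hx⟩
  have hne : (atTop ⊓ 𝓟 {n : ℕ | ∃ x, (r (s n) x, r t x) ∉ V}).NeBot := by
    rw [← frequently_mem_iff_neBot]
    exact hfreq
  let 𝒰 : Ultrafilter ℕ := Ultrafilter.of (atTop ⊓ 𝓟 {n : ℕ | ∃ x, (r (s n) x, r t x) ∉ V})
  have h𝒰 : (𝒰 : Filter ℕ) ≤ atTop ⊓ 𝓟 {n : ℕ | ∃ x, (r (s n) x, r t x) ∉ V} := Ultrafilter.of_le _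
  have h1 : (𝒰 : Filter ℕ) ≤ atTop := h𝒰.trans inf_le_left
  have h2 : ∀ᶠ n in (𝒰 : Filter ℕ), ∃ x, (r (s n) x, r t x) ∉ V := h𝒰 (mem_inf_of_right (mem_principal_self _))
  obtain ⟨x₀⟩ : Nonempty K := by
    obtain ⟨n, x, _⟩ := h2.exists
    exact ⟨x⟩
  have h3 : ∀ n, ∃ x, (∃ x, (r (s n) x, r t x) ∉ V) → (r (s n) x, r t x) ∉ V := by
    intro n
    by_cases hx : ∃ x, (r (s n) x, r t x) ∉ V
    · obtain ⟨x, hx⟩ := hx
      exact ⟨x, fun _ => hx⟩
    · exact ⟨x₀, fun h => absurd h hx⟩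
  choose x hx using h3
  obtain ⟨y, hy⟩ : ∃ y, Tendsto (fun n => r t (x n)) 𝒰 (𝓝 y) := by
    obtain ⟨y, -, hy⟩ := isCompact_univ.ultrafilter_le_nhds (𝒰.map fun n => r t (x n)) (by simp)
    exact ⟨y, hy⟩
  obtain ⟨z, hz⟩ : ∃ z, Tendsto (fun n => r (s n) (x n)) 𝒰 (𝓝 z) := by
    obtain ⟨y, -, hy⟩ := isCompact_univ.ultrafilter_le_nhds (𝒰.map fun n => r (s n) (x n)) (by simp)
    exact ⟨y, hy⟩
  have h4 : ∀ m, r (s m) z = r (s m) y := by
    intro m
    have l1 : Tendsto (fun n => r (s m) (r (s n) (x n))) 𝒰 (𝓝 (r (s m) z)) :=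
      ((h.continuous (s m)).tendsto z).comp hz
    have l2 : Tendsto (fun n => r (s m) (r t (x n))) 𝒰 (𝓝 (r (s m) y)) :=
      ((h.continuous (s m)).tendsto y).comp hy
    refine tendsto_nhds_unique (l1.congr' ?_) l2
    filter_upwards [h1 (eventually_ge_atTop m)] with n hn
    rw [c1 h (hs hn), c1 h (hst m)]
  have h5 : r t z = r t y := by
    refine tendsto_nhds_unique (h.seq_lim s hs t ht z) ?_
    simp only [h4]
    exact h.seq_lim s hs t ht y
  have h6 : r t y = y := by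
    refine tendsto_nhds_unique (((h.continuous t).tendsto y).comp hy) ?_
    refine hy.congr fun n => ?_
    simp only [Function.comp]
    rw [c1 h le_rfl]
  have h7 : r t z = z := by
    refine tendsto_nhds_unique (((h.continuous t).tendsto z).comp hz) ?_
    refine hz.congr fun n => ?_
    simp only [Function.comp]
    rw [c2 h (hst n)]
  have h8 : z = y := by rw [← h7, h5, h6]
  subst h8
  have h9 : Tendsto (fun n => (r (s n) (x n), r t (x n))) 𝒰 (𝓝 (z, z)) := by
    rw [nhds_prod_eq]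
    exact hz.prodMk hy
  have h10 : V ∈ 𝓝 (z, z) := nhds_le_uniformity z hV
  obtain ⟨n, hn1, hn2⟩ := ((h9.eventually h10).and h2).exists
  exact hx n hn2 hn1

/-- Cauchy property along directed sets -/
theorem cauchy_dir (h : RetractionalSkeleton r) {G : Set Γ} (hne : G.Nonempty)
    {V : Set (K × K)} (hV : V ∈ 𝓤 K) : ∃ a ∈ G, ∀ b ∈ G, a ≤ b → ∀ x, (r a x, r b x) ∈ V := by
  by_contra hcon
  push Not at hcon
  choose! f hf using hcon
  obtain ⟨a₀, ha₀⟩ := hne
  let s : ℕ → Γ := fun n => f^[n] a₀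
  have hs1 : ∀ n, s (n + 1) = f (s n) := fun n => Function.iterate_succ_apply' f n a₀
  have hsG : ∀ n, s n ∈ G := by
    intro n
    induction n with
    | zero => exact ha₀
    | succ n ih =>
      rw [hs1]
      exact (hf _ ih).1
  have hmono : Monotone s := monotone_nat_of_le_succ fun n => by
    rw [hs1]
    exact (hf _ (hsG n)).2.1
  obtain ⟨t, ht⟩ := h.sigmaComplete s hmono
  obtain ⟨W, hW, hWs, hWV⟩ := comp_symm_mem_uniformity_sets hV
  obtain ⟨N, hN⟩ := unif_seq h hmono ht hW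
  obtain ⟨x, hx⟩ := (hf _ (hsG N)).2.2
  apply hx
  rw [← hs1]
  exact hWV ⟨r t x, hN N le_rfl x, hWs.symm _ _ (hN (N + 1) (Nat.le_succ N) x)⟩

/-- uniform limit of the retractions along a directed set -/
def IsLim (r : Γ → K → K) (G : Set Γ) (R : K → K) : Prop :=
  ∀ V ∈ 𝓤 K, ∃ a ∈ G, ∀ b ∈ G, a ≤ b → ∀ x, (r b x, R x) ∈ V

theorem exists_isLim (h : RetractionalSkeleton r) {G : Set Γ} (hG : DirectedOn (· ≤ ·) G) (hne : G.Nonempty) :
    ∃ R, IsLim r G R := by
  have key : ∀ x : K, ∃ y, ∀ U ∈ 𝓝 y, ∀ a ∈ G, ∃ b ∈ G, a ≤ b ∧ r b x ∈ U := by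
    intro x
    by_contra hcon
    push Not at hcon
    choose U hU a ha hb using hcon
    obtain ⟨T, hT⟩ := isCompact_univ.elim_nhds_subcover U (fun y _ => hU y)
    obtain ⟨b, hb1, hb2⟩ : ∃ b ∈ G, ∀ y ∈ T, a y ≤ b := by
      clear hT
      induction T using Finset.cons_induction with
      | empty =>
        obtain ⟨b, hb⟩ := hne
        exact ⟨b, hb, by simp⟩
      | cons y T hy ih =>
        obtain ⟨b, hb1, hb2⟩ := ih
        obtain ⟨c, hc, h1, h2⟩ := hG b hb1 (a y) (ha y)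
        refine ⟨c, hc, fun y' hy' => ?_⟩
        rcases Finset.mem_cons.mp hy' with h | h
        · rw [h]; exact h2
        · exact (hb2 y' h).trans h1
    obtain ⟨y, hy, hyU⟩ := mem_iUnion₂.mp (hT.2 (mem_univ (r b x)))
    exact hb y b hb1 (hb2 y hy) hyU
  choose R hR using key
  refine ⟨R, fun V hV => ?_⟩
  obtain ⟨W, hW, hWs, hWV⟩ := comp_symm_mem_uniformity_sets hV
  obtain ⟨W', hW', hWs', hWV'⟩ := comp_symm_mem_uniformity_sets hW
  obtain ⟨a, ha, haG⟩ := cauchy_dir h hne hW'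
  refine ⟨a, ha, fun b hb hab x => ?_⟩
  obtain ⟨c, hc, hac, hcx⟩ := hR x _ (UniformSpace.ball_mem_nhds (R x) hW) a ha
  have e1 : (r b x, r a x) ∈ W' := hWs'.symm _ _ (haG b hb hab x)
  have e2 : (r a x, r c x) ∈ W' := haG c hc hac x
  have e3 : (r b x, r c x) ∈ W := hWV' ⟨_, e1, e2⟩
  exact hWV ⟨_, e3, hWs.symm _ _ hcx⟩

variable {G H : Set Γ} {R R' : K → K}

omit [CompactSpace K] [T2Space K] in
theorem IsLim.continuous (h : RetractionalSkeleton r) (hR : IsLim r G R) : Continuous R := by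
  apply continuous_of_uniform_approx_of_continuous
  intro V hV
  obtain ⟨a, ha, haG⟩ := hR _ (symm_le_uniformity hV)
  exact ⟨r a, h.continuous a, fun x => haG a ha le_rfl x⟩

omit [CompactSpace K] [T2Space K] in
theorem IsLim.mem_closed (hG : DirectedOn (· ≤ ·) G) (hR : IsLim r G R) {C : Set K} (hC : IsClosed C) {a : Γ}
    (ha : a ∈ G) {x : K} (hx : ∀ b ∈ G, a ≤ b → r b x ∈ C) : R x ∈ C := by
  by_contra hcon
  obtain ⟨V, hV, hVC⟩ := UniformSpace.mem_nhds_iff.mp (hC.isOpen_compl.mem_nhds hcon)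
  obtain ⟨c, hc, hcG⟩ := hR _ (symm_le_uniformity hV)
  obtain ⟨b, hb, hab, hcb⟩ := hG a ha c hc
  exact hVC (show (R x, r b x) ∈ V from hcG b hb hcb x) (hx b hb hab)

omit [CompactSpace K] in
theorem IsLim.congr (hR : IsLim r G R) {x y : K} (hxy : ∀ a ∈ G, r a x = r a y) : R x = R y := by
  apply eq_of_uniformity
  intro V hV
  obtain ⟨W, hW, hWs, hWV⟩ := comp_symm_mem_uniformity_sets hV
  obtain ⟨a, ha, haG⟩ := hR W hW
  refine hWV ⟨r a x, hWs.symm _ _ (haG a ha le_rfl x), ?_⟩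
  rw [hxy a ha]
  exact haG a ha le_rfl y

omit [CompactSpace K] in
theorem IsLim.fix (h : RetractionalSkeleton r) (hG : DirectedOn (· ≤ ·) G) (hR : IsLim r G R) {a : Γ} (ha : a ∈ G)
    (x : K) : R (r a x) = r a x :=
  hR.mem_closed hG (C := {r a x}) isClosed_singleton ha fun b _ hab => c2 h hab x

omit [CompactSpace K] in
theorem IsLim.r_comp (h : RetractionalSkeleton r) (hG : DirectedOn (· ≤ ·) G) (hR : IsLim r G R) {a : Γ} (ha : a ∈ G)
    (x : K) : r a (R x) = r a x :=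
  hR.mem_closed hG (C := {z | r a z = r a x}) (isClosed_eq (h.continuous a) continuous_const) ha
    fun b _ hab => c1 h hab x

omit [CompactSpace K] in
theorem IsLim.comp_big (h : RetractionalSkeleton r) (hG : DirectedOn (· ≤ ·) G) (hR : IsLim r G R)
    (hH : DirectedOn (· ≤ ·) H) (hne : H.Nonempty) (hR' : IsLim r H R') (hHG : H ⊆ G) (x : K) : R (R' x) = R' x := by
  obtain ⟨a, ha⟩ := hne
  exact hR'.mem_closed hH (C := {z | R z = z}) (isClosed_eq (hR.continuous h) continuous_id) ha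
    fun b hb _ => hR.fix h hG (hHG hb) x

omit [CompactSpace K] in
theorem IsLim.comp_small (h : RetractionalSkeleton r) (hG : DirectedOn (· ≤ ·) G) (hR : IsLim r G R)
    (hR' : IsLim r H R') (hHG : H ⊆ G) (x : K) : R' (R x) = R' x :=
  hR'.congr fun a ha => hR.r_comp h hG (hHG ha) x

omit [CompactSpace K] in
theorem IsLim.idem (h : RetractionalSkeleton r) (hG : DirectedOn (· ≤ ·) G) (hne : G.Nonempty) (hR : IsLim r G R)
    (x : K) : R (R x) = R x := hR.comp_big h hG hG hne hR Subset.rfl x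

theorem star_aux (h : RetractionalSkeleton r) {T : Type*} [MetricSpace T] {τ : K → T} (hτ : Continuous τ)
    (hG : DirectedOn (· ≤ ·) G) (hR : IsLim r G R) :
    ∃ a : ℕ → Γ, (∀ n, a n ∈ G) ∧ ∀ (S : Set Γ) (R' : K → K), DirectedOn (· ≤ ·) S → S ⊆ G → (∀ n, a n ∈ S) →
      IsLim r S R' → ∀ x, τ (R x) = τ (R' x) := by
  have hτu : UniformContinuous τ := CompactSpace.uniformContinuous_of_continuous hτ
  have hV : ∀ n : ℕ, {p : K × K | dist (τ p.1) (τ p.2) < 1 / ((n : ℝ) + 1)} ∈ 𝓤 K := by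
    intro n
    have := hτu (Metric.dist_mem_uniformity (show (0 : ℝ) < 1 / ((n : ℝ) + 1) by positivity))
    exact this
  choose a ha haG using fun n => hR _ (hV n)
  refine ⟨a, ha, fun S R' hS hSG haS hR' x => ?_⟩
  have h1 : ∀ n : ℕ, dist (τ (R x)) (τ (R' x)) < 2 * (1 / ((n : ℝ) + 1)) := by
    intro n
    have e1 : dist (τ (r (a n) x)) (τ (R x)) < 1 / ((n : ℝ) + 1) := haG n (a n) (ha n) le_rfl x
    have e2 : dist (τ (r (a n) (R' x))) (τ (R (R' x))) < 1 / ((n : ℝ) + 1) := haG n (a n) (ha n) le_rfl (R' x)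
    rw [hR'.r_comp h hS (haS n), hR.comp_big h hG hS ⟨_, haS n⟩ hR' hSG] at e2
    calc dist (τ (R x)) (τ (R' x)) ≤ dist (τ (R x)) (τ (r (a n) x)) + dist (τ (r (a n) x)) (τ (R' x)) :=
          dist_triangle _ _ _
      _ < 1 / ((n : ℝ) + 1) + 1 / ((n : ℝ) + 1) := by
        rw [dist_comm (τ (R x))]
        exact add_lt_add e1 e2
      _ = _ := by ring
  by_contra hne
  have hpos : 0 < dist (τ (R x)) (τ (R' x)) := dist_pos.mpr hne
  obtain ⟨n, hn⟩ := exists_nat_one_div_lt (half_pos hpos)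
  have := h1 n
  linarith

/-- the key lemma: countably many indices determine `r t ∘ R` -/
theorem star (h : RetractionalSkeleton r) (t : Γ) (hG : DirectedOn (· ≤ ·) G) (hR : IsLim r G R) :
    ∃ a : ℕ → Γ, (∀ n, a n ∈ G) ∧ ∀ (S : Set Γ) (R' : K → K), DirectedOn (· ≤ ·) S → S ⊆ G → (∀ n, a n ∈ S) →
      IsLim r S R' → ∀ x, r t (R x) = r t (R' x) := by
  have := h.metrizable t
  let _ : MetricSpace (range (r t)) := TopologicalSpace.metrizableSpaceMetric (range (r t))
  have hτ : Continuous (fun x => ⟨r t x, x, rfl⟩ : K → range (r t)) := (h.continuous t).subtype_mk _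
  obtain ⟨a, ha, haS⟩ := star_aux h hτ hG hR
  exact ⟨a, ha, fun S R' hS hSG haS' hR' x => congrArg Subtype.val (haS S R' hS hSG haS' hR' x)⟩

/-! ### generated directed sets -/

/-- the directed set generated by `B` -/
inductive Gen (u : Γ → Γ → Γ) (γ : Γ) (B : Set Γ) : Γ → Prop
  | base : Gen u γ B γ
  | mem {s : Γ} (hs : s ∈ B) : Gen u γ B s
  | up {s t : Γ} (hs : Gen u γ B s) (ht : Gen u γ B t) : Gen u γ B (u s t)

/-- the directed set generated by `B` as a set -/
def gen (u : Γ → Γ → Γ) (γ : Γ) (B : Set Γ) : Set Γ := {s | Gen u γ B s}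

variable {u : Γ → Γ → Γ} {γ : Γ}

omit [PartialOrder Γ] in
theorem gen_mono {B C : Set Γ} (hBC : B ⊆ C) : gen u γ B ⊆ gen u γ C := by
  intro s hs
  change Gen u γ C s
  have hs' : Gen u γ B s := hs
  clear hs
  induction hs' with
  | base => exact Gen.base
  | mem hs => exact Gen.mem (hBC hs)
  | up _ _ ih1 ih2 => exact Gen.up ih1 ih2

omit [PartialOrder Γ] in
theorem gen_finite {B : Set Γ} {s : Γ} (hs : s ∈ gen u γ B) : ∃ F : Set Γ, F.Finite ∧ F ⊆ B ∧ s ∈ gen u γ F := by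
  have hs' : Gen u γ B s := hs
  clear hs
  induction hs' with
  | base => exact ⟨∅, finite_empty, empty_subset _, Gen.base⟩
  | @mem s hs => exact ⟨{s}, finite_singleton s, singleton_subset_iff.mpr hs, Gen.mem rfl⟩
  | up _ _ ih1 ih2 =>
    obtain ⟨F, hF, hFB, h1⟩ := ih1
    obtain ⟨F', hF', hFB', h2⟩ := ih2
    exact ⟨F ∪ F', hF.union hF', union_subset hFB hFB', Gen.up (gen_mono subset_union_left h1)
      (gen_mono subset_union_right h2)⟩

omit [PartialOrder Γ] in
theorem gen_iUnion {B : ℕ → Set Γ} (hB : Monotone B) {s : Γ} (hs : s ∈ gen u γ (⋃ n, B n)) :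
    ∃ n, s ∈ gen u γ (B n) := by
  have hs' : Gen u γ (⋃ n, B n) s := hs
  clear hs
  induction hs' with
  | base => exact ⟨0, Gen.base⟩
  | mem hs =>
    obtain ⟨n, hn⟩ := mem_iUnion.mp hs
    exact ⟨n, Gen.mem hn⟩
  | up _ _ ih1 ih2 =>
    obtain ⟨n, hn⟩ := ih1
    obtain ⟨m, hm⟩ := ih2
    exact ⟨max n m, Gen.up (gen_mono (hB (le_max_left _ _)) hn) (gen_mono (hB (le_max_right _ _)) hm)⟩

theorem gen_directed (hu : ∀ s t, s ≤ u s t ∧ t ≤ u s t) (B : Set Γ) : DirectedOn (· ≤ ·) (gen u γ B) :=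
  fun _ hs _ ht => ⟨_, Gen.up hs ht, (hu _ _).1, (hu _ _).2⟩

omit [PartialOrder Γ] in
theorem gen_nonempty (B : Set Γ) : (gen u γ B).Nonempty := ⟨γ, Gen.base⟩

omit [PartialOrder Γ] in
theorem gen_countable {B : Set Γ} (hB : B.Countable) : (gen u γ B).Countable := by
  let L : ℕ → Set Γ := fun n => Nat.rec (insert γ B) (fun _ C => C ∪ image2 u C C) n
  have hL0 : L 0 = insert γ B := rfl
  have hL1 : ∀ n, L (n + 1) = L n ∪ image2 u (L n) (L n) := fun n => rfl
  have hLc : ∀ n, (L n).Countable := by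
    intro n
    induction n with
    | zero => exact hB.insert γ
    | succ n ih =>
      rw [hL1]
      exact ih.union (ih.image2 ih u)
  have hLm : Monotone L := monotone_nat_of_le_succ fun n => by
    rw [hL1]
    exact subset_union_left
  refine (countable_iUnion hLc).mono fun s hs => ?_
  have hs' : Gen u γ B s := hs
  clear hs
  induction hs' with
  | base => exact mem_iUnion.mpr ⟨0, Or.inl rfl⟩
  | mem hs => exact mem_iUnion.mpr ⟨0, Or.inr hs⟩
  | up _ _ ih1 ih2 =>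
    obtain ⟨n, hn⟩ := mem_iUnion.mp ih1
    obtain ⟨m, hm⟩ := mem_iUnion.mp ih2
    refine mem_iUnion.mpr ⟨max n m + 1, ?_⟩
    rw [hL1]
    exact Or.inr ⟨_, hLm (le_max_left _ _) hn, _, hLm (le_max_right _ _) hm, rfl⟩

/-- countable directed sets: the limit is a member of the skeleton -/
theorem countable_lim (h : RetractionalSkeleton r) (hG : DirectedOn (· ≤ ·) G) (hne : G.Nonempty)
    (hGc : G.Countable) (hR : IsLim r G R) : ∃ t, (∀ a ∈ G, a ≤ t) ∧ ∀ x, R x = r t x := by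
  obtain ⟨g, hg⟩ := hGc.exists_eq_range hne
  have hgG : ∀ n, g n ∈ G := fun n => by rw [hg]; exact ⟨n, rfl⟩
  choose! w hw using fun (a : Γ) (ha : a ∈ G) (b : Γ) (hb : b ∈ G) => hG a ha b hb
  let v : ℕ → Γ := fun n => Nat.rec (g 0) (fun n a => w a (g (n + 1))) n
  have hv1 : ∀ n, v (n + 1) = w (v n) (g (n + 1)) := fun n => rfl
  have hvG : ∀ n, v n ∈ G := by
    intro n
    induction n with
    | zero => exact hgG 0
    | succ n ih =>
      rw [hv1]
      exact (hw _ ih _ (hgG _)).1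
  have hmono : Monotone v := monotone_nat_of_le_succ fun n => by
    rw [hv1]
    exact (hw _ (hvG n) _ (hgG _)).2.1
  have hgv : ∀ n, g n ≤ v n := by
    intro n
    cases n with
    | zero => exact le_rfl
    | succ n =>
      rw [hv1]
      exact (hw _ (hvG n) _ (hgG _)).2.2
  obtain ⟨t, ht⟩ := h.sigmaComplete v hmono
  refine ⟨t, ?_, fun x => ?_⟩
  · intro a ha
    rw [hg] at ha
    obtain ⟨n, rfl⟩ := ha
    exact (hgv n).trans (ht.1 ⟨n, rfl⟩)
  · refine tendsto_nhds_unique (f := fun n => r (v n) x) (l := atTop) ?_ (h.seq_lim v hmono t ht x)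
    rw [Uniform.tendsto_nhds_left]
    intro V hV
    obtain ⟨a, ha, haG⟩ := hR V hV
    rw [hg] at ha
    obtain ⟨m, rfl⟩ := ha
    rw [mem_map]
    filter_upwards [eventually_ge_atTop m] with n hn
    exact haG (v n) (hvG n) ((hgv m).trans (hmono hn)) x

/-! ### the system of all limits -/

/-- the standing data -/
structure Data (r : Γ → K → K) (u : Γ → Γ → Γ) (γ : Γ) (R : Set Γ → K → K) : Prop where
  sk : RetractionalSkeleton r
  hu : ∀ s t, s ≤ u s t ∧ t ≤ u s t
  hR : ∀ B, IsLim r (gen u γ B) (R B)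

namespace Data

variable {R : Set Γ → K → K} (D : Data r u γ R)

include D

omit [CompactSpace K] [T2Space K] in
theorem dir (B : Set Γ) : DirectedOn (· ≤ ·) (gen u γ B) := gen_directed D.hu B

omit [CompactSpace K] in
theorem fix {B : Set Γ} {s : Γ} (hs : s ∈ gen u γ B) (x : K) : R B (r s x) = r s x :=
  (D.hR B).fix D.sk (D.dir B) hs x

omit [CompactSpace K] in
theorem fix' {B : Set Γ} {s : Γ} (hs : s ∈ B) (x : K) : R B (r s x) = r s x := D.fix (Gen.mem hs) x

omit [CompactSpace K] in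
theorem big {B C : Set Γ} (hCB : C ⊆ B) (x : K) : R B (R C x) = R C x :=
  (D.hR B).comp_big D.sk (D.dir B) (D.dir C) (gen_nonempty C) (D.hR C) (gen_mono hCB) x

omit [CompactSpace K] in
theorem small {B C : Set Γ} (hCB : C ⊆ B) (x : K) : R C (R B x) = R C x :=
  (D.hR B).comp_small D.sk (D.dir B) (D.hR C) (gen_mono hCB) x

theorem starS (t : Γ) (B : Set Γ) : ∃ S : Set Γ, S ⊆ B ∧ S.Countable ∧
    ∀ S' : Set Γ, S ⊆ S' → S' ⊆ B → ∀ x, r t (R B x) = r t (R S' x) := by
  obtain ⟨a, ha, haS⟩ := star D.sk t (D.dir B) (D.hR B)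
  choose F hF1 hF2 hF3 using fun n => gen_finite (ha n)
  refine ⟨⋃ n, F n, iUnion_subset hF2, countable_iUnion fun n => (hF1 n).countable, fun S' hS hS' x => ?_⟩
  exact haS (gen u γ S') (R S') (D.dir S') (gen_mono hS')
    (fun n => gen_mono ((subset_iUnion F n).trans hS) (hF3 n)) (D.hR S') x

theorem bound (t : Γ) (S : Set Γ) (hS : S.Countable) : ∃ w, t ≤ w ∧ ∀ g ∈ gen u γ S, g ≤ w := by
  obtain ⟨w, hw, _⟩ := countable_lim D.sk (D.dir (insert t S)) (gen_nonempty _) (gen_countable (hS.insert t))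
    (D.hR (insert t S))
  exact ⟨w, hw t (Gen.mem (mem_insert t S)), fun g hg => hw g (gen_mono (subset_insert t S) hg)⟩

theorem member {S : Set Γ} (hS : S.Countable) : ∃ t, ∀ x, R S x = r t x := by
  obtain ⟨t, _, ht⟩ := countable_lim D.sk (D.dir S) (gen_nonempty _) (gen_countable hS) (D.hR S)
  exact ⟨t, ht⟩

/-- capturing the range of a member of the skeleton by a countable set -/
theorem capture (s : Γ) (B : Set Γ) (hB : ∀ x, r s x = x → R B x = x) :
    ∃ A ⊆ B, A.Countable ∧ ∀ x, R A (r s x) = r s x := by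
  choose Sf hSf1 hSf2 hSf3 using fun t => D.starS t B
  choose! bd hbd using fun (t : Γ) (S : Set Γ) (hS : S.Countable) => D.bound t S hS
  let p : ℕ → Γ × Set Γ := fun n => Nat.rec (s, Sf s) (fun _ q => (bd q.1 q.2, q.2 ∪ Sf (bd q.1 q.2))) n
  have hp0 : p 0 = (s, Sf s) := rfl
  have hp1 : ∀ n, p (n + 1) = (bd (p n).1 (p n).2, (p n).2 ∪ Sf (bd (p n).1 (p n).2)) := fun n => rfl
  have hc : ∀ n, (p n).2.Countable := by
    intro n
    induction n with
    | zero => exact hSf2 s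
    | succ n ih =>
      rw [hp1]
      exact ih.union (hSf2 _)
  have hB' : ∀ n, (p n).2 ⊆ B := by
    intro n
    induction n with
    | zero => exact hSf1 s
    | succ n ih =>
      rw [hp1]
      exact union_subset ih (hSf1 _)
  have hS' : ∀ n, Sf (p n).1 ⊆ (p n).2 := by
    intro n
    cases n with
    | zero => exact Subset.rfl
    | succ n =>
      rw [hp1]
      exact subset_union_right
  have hmono : Monotone fun n => (p n).1 := monotone_nat_of_le_succ fun n => by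
    change (p n).1 ≤ (p (n + 1)).1
    rw [hp1]
    exact (hbd _ _ (hc n)).1
  have hmonoS : Monotone fun n => (p n).2 := monotone_nat_of_le_succ fun n => by
    change (p n).2 ≤ (p (n + 1)).2
    rw [hp1]
    exact subset_union_left
  obtain ⟨t, ht⟩ := D.sk.sigmaComplete _ hmono
  have htn : ∀ n, (p n).1 ≤ t := fun n => ht.1 ⟨n, rfl⟩
  let S : Set Γ := ⋃ n, (p n).2
  have hSB : S ⊆ B := iUnion_subset hB'
  have hgen : ∀ g ∈ gen u γ S, g ≤ t := by
    intro g hg
    obtain ⟨n, hn⟩ := gen_iUnion hmonoS hg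
    have h1 : g ≤ (p (n + 1)).1 := by
      rw [hp1]
      exact (hbd _ _ (hc n)).2 g hn
    exact h1.trans (htn (n + 1))
  refine ⟨S, hSB, countable_iUnion hc, fun x => ?_⟩
  have h1 : ∀ z, r t (R B z) = r t (R S z) := by
    intro z
    refine tendsto_nhds_unique (D.sk.seq_lim _ hmono t ht (R B z)) ?_
    have h2 : ∀ n, r (p n).1 (R B z) = r (p n).1 (R S z) := fun n =>
      hSf3 (p n).1 S ((hS' n).trans (subset_iUnion (fun n => (p n).2) n)) hSB z
    simp only [h2]
    exact D.sk.seq_lim _ hmono t ht (R S z)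
  have h2 : ∀ z, r t (R S z) = R S z := by
    intro z
    exact (D.hR S).mem_closed (D.dir S) (C := {z | r t z = z}) (isClosed_eq (D.sk.continuous t) continuous_id)
      Gen.base fun b hb _ => c2 D.sk (hgen b hb) z
  have h3 : r t (r s x) = r s x := c2 D.sk (htn 0) x
  have h4 : R B (r s x) = r s x := hB _ (c1 D.sk le_rfl x)
  rw [← h2, ← h1, h4, h3]

end Data

end

end Pool.Agent.Q150.RSkel
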