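import Mathlib

/-!
# Retractional skeletons: definitions
-/

set_option autoImplicit false

open Set Topology Filter

namespace Pool.Agent.Q150.RSkel

/-- `(r s)_{s ∈ Γ}` is a retractional skeleton on the space `K` -/
structure RetractionalSkeleton {K : Type*} [TopologicalSpace K] {Γ : Type*} [PartialOrder Γ]
    (r : Γ → K → K) : Prop where
  nonempty : Nonempty Γ
  directed : ∀ s t : Γ, ∃ w, s ≤ w ∧ t ≤ w
  sigmaComplete : ∀ s : ℕ → Γ, Monotone s → ∃ t, IsLUB (range s) t
  continuous : ∀ s, Continuous (r s)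
  retraction : ∀ s, r s ∘ r s = r s
  metrizable : ∀ s, TopologicalSpace.MetrizableSpace (range (r s))
  comp : ∀ s t, s ≤ t → r s = r s ∘ r t ∧ r s = r t ∘ r s
  seq_lim : ∀ s : ℕ → Γ, Monotone s → ∀ t, IsLUB (range s) t → ∀ x,
    Tendsto (fun n => r (s n) x) atTop (𝓝 (r t x))
  lim : ∀ x, Tendsto (fun s => r s x) atTop (𝓝 x)

/-- the set induced by the skeleton -/
def induced {K : Type*} {Γ : Type*} (r : Γ → K → K) : Set K := ⋃ s, range (r s)

end Pool.Agent.Q150.RSkel
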