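import Mathlib

/-!
Strong d-spaces: definitions, the spaces `XI I` attached to sets `I` of free ultrafilters on `ℕ`, and two
disjoint sets of free ultrafilters which are both dense.
-/

set_option autoImplicit false

open Set Topology Filter

universe u v

namespace Pool.Agent.Q150.SDSpace

/-- the specialization order: `x ≤ y` iff `x ∈ closure {y}` -/
def sle {X : Type u} [TopologicalSpace X] (x y : X) : Prop := x ∈ closure ({y} : Set X)

/-- strong `d`-spaces: `T₀` spaces such that for every (nonempty) directed set `D`, every point `x` and every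
open set `U` with `(⋂_{d ∈ D} ↑d) ∩ ↑x ⊆ U` there is `d ∈ D` with `↑d ∩ ↑x ⊆ U` -/
def StrongDSpace (X : Type u) [TopologicalSpace X] : Prop :=
  T0Space X ∧ ∀ D : Set X, D.Nonempty → DirectedOn sle D → ∀ (x : X) (U : Set X), IsOpen U →
    (∀ z, (∀ d ∈ D, sle d z) → sle x z → z ∈ U) → ∃ d ∈ D, ∀ z, sle d z → sle x z → z ∈ U

theorem sle_iff {X : Type u} [TopologicalSpace X] {x y : X} :
    sle x y ↔ ∀ U : Set X, IsOpen U → x ∈ U → y ∈ U := by
  unfold sle
  rw [mem_closure_iff]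
  refine forall_congr' fun U => forall_congr' fun _ => forall_congr' fun _ => ?_
  constructor
  · rintro ⟨z, hz, rfl⟩; exact hz
  · intro h; exact ⟨y, h, rfl⟩

theorem sle_iff_specializes {X : Type u} [TopologicalSpace X] {x y : X} : sle x y ↔ y ⤳ x :=
  specializes_iff_mem_closure.symm

/-- a way to see that a space is not a strong `d`-space -/
theorem not_strong {X : Type u} [TopologicalSpace X] (c : ℕ → X) (hc : ∀ m n, m ≤ n → sle (c m) (c n)) (x : X)
    (U : Set X) (hU : IsOpen U) (h1 : ∀ z, (∀ n, sle (c n) z) → sle x z → z ∈ U)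
    (h2 : ∀ n, ∃ z, sle (c n) z ∧ sle x z ∧ z ∉ U) : ¬ StrongDSpace X := by
  rintro ⟨-, h⟩
  obtain ⟨_, ⟨n, rfl⟩, hd⟩ := h (range c) ⟨c 0, 0, rfl⟩ (by
    rintro _ ⟨m, rfl⟩ _ ⟨n, rfl⟩
    exact ⟨c (max m n), ⟨_, rfl⟩, hc _ _ (le_max_left _ _), hc _ _ (le_max_right _ _)⟩) x U hU
    (fun z hz hxz => h1 z (fun n => hz _ ⟨n, rfl⟩) hxz)
  obtain ⟨z, hz1, hz2, hz3⟩ := h2 n
  exact hz3 (hd z hz1 hz2)

/-- the points of the space attached to a set `I` of ultrafilters: an increasing sequence `d n` with supremum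
`s`, a point `x`, points `p i` (`i ∈ I`) and `e m` (`m ∈ ℕ`) -/
inductive XI (I : Set (Ultrafilter ℕ)) : Type
  | d (n : ℕ) : XI I
  | s : XI I
  | x : XI I
  | p (i : I) : XI I
  | e (m : ℕ) : XI I

namespace XI

variable {I : Set (Ultrafilter ℕ)}

/-- the trace of a set on the points `e m` -/
def tr (U : Set (XI I)) : Set ℕ := {m | XI.e m ∈ U}

instance : TopologicalSpace (XI I) where
  IsOpen U := (∀ n, XI.d n ∈ U → (∀ m, n ≤ m → XI.d m ∈ U) ∧ XI.s ∈ U ∧ ∀ m, n ≤ m → XI.e m ∈ U) ∧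
    (XI.s ∈ U → (∃ n, XI.d n ∈ U) ∧ ∀ i, XI.p i ∈ U) ∧
    (XI.x ∈ U → (∀ i, XI.p i ∈ U) ∧ ∀ m, XI.e m ∈ U) ∧
    ∀ i : I, XI.p i ∈ U → tr U ∈ i.1
  isOpen_univ := ⟨fun _ _ => ⟨fun _ _ => mem_univ _, mem_univ _, fun _ _ => mem_univ _⟩,
    fun _ => ⟨⟨0, mem_univ _⟩, fun _ => mem_univ _⟩, fun _ => ⟨fun _ => mem_univ _, fun _ => mem_univ _⟩,
    fun i _ => by
      have : tr (univ : Set (XI I)) = univ := by ext m; simp [tr]
      rw [this]; exact Filter.univ_mem⟩
  isOpen_inter := by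
    rintro U V ⟨a1, a2, a3, a4⟩ ⟨b1, b2, b3, b4⟩
    refine ⟨fun n hn => ?_, fun hs => ?_, fun hx => ?_, fun i hi => ?_⟩
    · obtain ⟨h1, h2, h3⟩ := a1 n hn.1
      obtain ⟨k1, k2, k3⟩ := b1 n hn.2
      exact ⟨fun m hm => ⟨h1 m hm, k1 m hm⟩, ⟨h2, k2⟩, fun m hm => ⟨h3 m hm, k3 m hm⟩⟩
    · obtain ⟨⟨n, hn⟩, h⟩ := a2 hs.1
      obtain ⟨⟨k, hk⟩, h'⟩ := b2 hs.2
      exact ⟨⟨max n k, (a1 n hn).1 _ (le_max_left _ _), (b1 k hk).1 _ (le_max_right _ _)⟩, fun i => ⟨h i, h' i⟩⟩
    · exact ⟨fun i => ⟨(a3 hx.1).1 i, (b3 hx.2).1 i⟩, fun m => ⟨(a3 hx.1).2 m, (b3 hx.2).2 m⟩⟩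
    · exact Filter.inter_mem (a4 i hi.1) (b4 i hi.2)
  isOpen_sUnion := by
    intro S hS
    refine ⟨?_, ?_, ?_, ?_⟩
    · rintro n ⟨U, hU, hn⟩
      obtain ⟨h1, h2, h3⟩ := (hS U hU).1 n hn
      exact ⟨fun m hm => ⟨U, hU, h1 m hm⟩, ⟨U, hU, h2⟩, fun m hm => ⟨U, hU, h3 m hm⟩⟩
    · rintro ⟨U, hU, hs⟩
      obtain ⟨⟨n, hn⟩, h⟩ := (hS U hU).2.1 hs
      exact ⟨⟨n, U, hU, hn⟩, fun i => ⟨U, hU, h i⟩⟩
    · rintro ⟨U, hU, hx⟩
      obtain ⟨h1, h2⟩ := (hS U hU).2.2.1 hx
      exact ⟨fun i => ⟨U, hU, h1 i⟩, fun m => ⟨U, hU, h2 m⟩⟩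
    · rintro i ⟨U, hU, hi⟩
      exact Filter.mem_of_superset ((hS U hU).2.2.2 i hi) fun m hm => ⟨U, hU, hm⟩

theorem isOpen_iff {U : Set (XI I)} : IsOpen U ↔
    (∀ n, XI.d n ∈ U → (∀ m, n ≤ m → XI.d m ∈ U) ∧ XI.s ∈ U ∧ ∀ m, n ≤ m → XI.e m ∈ U) ∧
    (XI.s ∈ U → (∃ n, XI.d n ∈ U) ∧ ∀ i, XI.p i ∈ U) ∧
    (XI.x ∈ U → (∀ i, XI.p i ∈ U) ∧ ∀ m, XI.e m ∈ U) ∧
    ∀ i : I, XI.p i ∈ U → tr U ∈ i.1 := Iff.rfl

/-- the explicit form of the specialization order -/
def le : XI I → XI I → Prop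
  | XI.d n, XI.d m => n ≤ m
  | XI.d _, XI.s => True
  | XI.d _, XI.x => False
  | XI.d _, XI.p _ => True
  | XI.d n, XI.e m => n ≤ m
  | XI.s, XI.s => True
  | XI.s, XI.p _ => True
  | XI.s, _ => False
  | XI.x, XI.x => True
  | XI.x, XI.p _ => True
  | XI.x, XI.e _ => True
  | XI.x, _ => False
  | XI.p i, XI.p j => i = j
  | XI.p _, _ => False
  | XI.e m, XI.e n => m = n
  | XI.e _, _ => False

/-- free ultrafilters only -/
def Free (I : Set (Ultrafilter ℕ)) : Prop := ∀ i ∈ I, ∀ A : Set ℕ, Aᶜ.Finite → A ∈ i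

/-- a basic open set: `p i` together with the points `e m`, `m ∈ A` -/
def W (i : I) (A : Set ℕ) : Set (XI I) := {z | z = XI.p i ∨ ∃ m ∈ A, z = XI.e m}

theorem isOpen_W (i : I) {A : Set ℕ} (hA : A ∈ i.1) : IsOpen (W i A) := by
  rw [isOpen_iff]
  refine ⟨?_, ?_, ?_, ?_⟩
  · rintro n (h | ⟨m, -, h⟩) <;> cases h
  · rintro (h | ⟨m, -, h⟩) <;> cases h
  · rintro (h | ⟨m, -, h⟩) <;> cases h
  · rintro j (h | ⟨m, -, h⟩)
    · cases h
      exact Filter.mem_of_superset hA fun m hm => Or.inr ⟨m, hm, rfl⟩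
    · cases h

theorem isOpen_e (m : ℕ) : IsOpen ({XI.e m} : Set (XI I)) := by
  rw [isOpen_iff]
  refine ⟨?_, ?_, ?_, ?_⟩
  · rintro n h; cases h
  · intro h; cases h
  · intro h; cases h
  · rintro j h; cases h

theorem isOpen_up_d (hI : Free I) (n : ℕ) : IsOpen {z : XI I | le (XI.d n) z} := by
  rw [isOpen_iff]
  refine ⟨?_, ?_, ?_, ?_⟩
  · intro k hk
    exact ⟨fun m hm => le_trans (show n ≤ k from hk) hm, trivial, fun m hm => le_trans (show n ≤ k from hk) hm⟩
  · intro _
    exact ⟨⟨n, le_refl n⟩, fun _ => trivial⟩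
  · intro h; exact absurd h (by simp [le])
  · intro i _
    refine hI i.1 i.2 _ ((finite_lt_nat n).subset ?_)
    intro m hm
    by_contra hcon
    exact hm (show n ≤ m from not_lt.mp hcon)

theorem isOpen_up_x (hI : Free I) : IsOpen {z : XI I | le XI.x z} := by
  rw [isOpen_iff]
  refine ⟨?_, ?_, ?_, ?_⟩
  · intro k hk; exact absurd hk (by simp [le])
  · intro h; exact absurd h (by simp [le])
  · intro _; exact ⟨fun _ => trivial, fun _ => trivial⟩
  · intro i _
    refine hI i.1 i.2 _ ?_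
    convert finite_empty
    ext m
    simp only [mem_compl_iff, mem_empty_iff_false, iff_false, not_not]
    exact trivial

theorem sle_iff_le (hI : Free I) {a b : XI I} : sle a b ↔ le a b := by
  rw [sle_iff]
  constructor
  · intro h
    cases a with
    | d n => exact h _ (isOpen_up_d hI n) (le_refl n)
    | s =>
      cases b with
      | d m =>
        have h1 : m + 1 ≤ m := h _ (isOpen_up_d hI (m + 1)) trivial
        omega
      | s => trivial
      | x => exact absurd (h _ (isOpen_up_d hI 0) trivial) (by simp [le])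
      | p i => trivial
      | e m =>
        have h1 : m + 1 ≤ m := h _ (isOpen_up_d hI (m + 1)) trivial
        omega
    | x => exact h _ (isOpen_up_x hI) trivial
    | p i =>
      have h1 := h _ (isOpen_W i Filter.univ_mem) (Or.inl rfl)
      rcases h1 with h1 | ⟨m, -, h1⟩
      · subst h1; exact rfl
      · subst h1
        have h2 := h _ (isOpen_W i (hI i.1 i.2 ({m}ᶜ) (by simp))) (Or.inl rfl)
        rcases h2 with h2 | ⟨k, hk, h2⟩
        · cases h2
        · cases h2; exact absurd rfl hk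
    | e m =>
      have h1 := h _ (isOpen_e m) rfl
      cases h1
      exact rfl
  · intro h U hU ha
    obtain ⟨h1, h2, h3, h4⟩ := isOpen_iff.mp hU
    cases a with
    | d n =>
      cases b with
      | d m => exact (h1 n ha).1 m h
      | s => exact (h1 n ha).2.1
      | x => exact absurd h (by simp [le])
      | p i => exact (h2 (h1 n ha).2.1).2 i
      | e m => exact (h1 n ha).2.2 m h
    | s =>
      cases b with
      | s => exact ha
      | p i => exact (h2 ha).2 i
      | d m => exact absurd h (by simp [le])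
      | x => exact absurd h (by simp [le])
      | e m => exact absurd h (by simp [le])
    | x =>
      cases b with
      | x => exact ha
      | p i => exact (h3 ha).1 i
      | e m => exact (h3 ha).2 m
      | d m => exact absurd h (by simp [le])
      | s => exact absurd h (by simp [le])
    | p i =>
      cases b with
      | p j =>
        have : i = j := h
        subst this; exact ha
      | d m => exact absurd h (by simp [le])
      | s => exact absurd h (by simp [le])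
      | x => exact absurd h (by simp [le])
      | e m => exact absurd h (by simp [le])
    | e n =>
      cases b with
      | e m =>
        have : n = m := h
        subst this; exact ha
      | d m => exact absurd h (by simp [le])
      | s => exact absurd h (by simp [le])
      | x => exact absurd h (by simp [le])
      | p i => exact absurd h (by simp [le])

theorem le_trans' (hI : Free I) {a b c : XI I} (h1 : le a b) (h2 : le b c) : le a c := by
  rw [← sle_iff_le hI, sle_iff] at *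
  exact fun U hU ha => h2 U hU (h1 U hU ha)

theorem t0 (hI : Free I) : T0Space (XI I) := by
  refine ⟨fun a b h => ?_⟩
  have h1 : le a b := (sle_iff_le hI).mp (sle_iff_specializes.mpr h.specializes')
  have h2 : le b a := (sle_iff_le hI).mp (sle_iff_specializes.mpr h.specializes)
  cases a <;> cases b <;> simp_all [le]
  omega

/-- `I` is dense in the space of free ultrafilters -/
def DenseU (I : Set (Ultrafilter ℕ)) : Prop := ∀ A : Set ℕ, (∀ i ∈ I, A ∈ i) → Aᶜ.Finite

theorem strong (hI : Free I) (hd : DenseU I) : StrongDSpace (XI I) := by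
  refine ⟨t0 hI, fun D hne hdir y U hU hyp => ?_⟩
  have hdir' : ∀ a ∈ D, ∀ b ∈ D, ∃ c ∈ D, le a c ∧ le b c := by
    intro a ha b hb
    obtain ⟨c, hc, h1, h2⟩ := hdir a ha b hb
    exact ⟨c, hc, (sle_iff_le hI).mp h1, (sle_iff_le hI).mp h2⟩
  simp only [sle_iff_le hI] at hyp ⊢
  by_cases hmax : ∃ g ∈ D, ∀ d ∈ D, le d g
  · obtain ⟨g, hg, hgm⟩ := hmax
    exact ⟨g, hg, fun z hz hyz => hyp z (fun d hd => le_trans' hI (hgm d hd) hz) hyz⟩
  push Not at hmax
  have hE : ∀ m, XI.e m ∉ D := by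
    intro m hm
    obtain ⟨b, hb, hbn⟩ := hmax _ hm
    obtain ⟨c, hc, h1, h2⟩ := hdir' _ hm b hb
    cases c with
    | e k =>
      have : m = k := h1
      subst this
      exact hbn h2
    | d m => exact absurd h1 (by simp [le])
    | s => exact absurd h1 (by simp [le])
    | x => exact absurd h1 (by simp [le])
    | p i => exact absurd h1 (by simp [le])
  have hP : ∀ i, XI.p i ∉ D := by
    intro m hm
    obtain ⟨b, hb, hbn⟩ := hmax _ hm
    obtain ⟨c, hc, h1, h2⟩ := hdir' _ hm b hb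
    cases c with
    | p k =>
      have : m = k := h1
      subst this
      exact hbn h2
    | d m => exact absurd h1 (by simp [le])
    | s => exact absurd h1 (by simp [le])
    | x => exact absurd h1 (by simp [le])
    | e i => exact absurd h1 (by simp [le])
  have hS : XI.s ∉ D := by
    intro hm
    obtain ⟨b, hb, hbn⟩ := hmax _ hm
    obtain ⟨c, hc, h1, h2⟩ := hdir' _ hm b hb
    cases c with
    | p k => exact hP _ hc
    | d m => exact absurd h1 (by simp [le])
    | s => exact hbn h2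
    | x => exact absurd h1 (by simp [le])
    | e i => exact absurd h1 (by simp [le])
  have hX : XI.x ∉ D := by
    intro hm
    obtain ⟨b, hb, hbn⟩ := hmax _ hm
    obtain ⟨c, hc, h1, h2⟩ := hdir' _ hm b hb
    cases c with
    | p k => exact hP _ hc
    | d m => exact absurd h1 (by simp [le])
    | s => exact absurd h1 (by simp [le])
    | x => exact hbn h2
    | e i => exact hE _ hc
  have hform : ∀ a ∈ D, ∃ n, a = XI.d n := by
    intro a ha
    cases a with
    | d n => exact ⟨n, rfl⟩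
    | s => exact absurd ha hS
    | x => exact absurd ha hX
    | p i => exact absurd ha (hP i)
    | e m => exact absurd ha (hE m)
  have hunb : ∀ N : ℕ, ∃ n, N ≤ n ∧ XI.d n ∈ D := by
    intro N
    induction N with
    | zero =>
      obtain ⟨a, ha⟩ := hne
      obtain ⟨n, rfl⟩ := hform a ha
      exact ⟨n, Nat.zero_le _, ha⟩
    | succ N ih =>
      obtain ⟨n, hn, hnD⟩ := ih
      obtain ⟨b, hb, hbn⟩ := hmax _ hnD
      obtain ⟨k, rfl⟩ := hform b hb
      have : ¬ k ≤ n := hbn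
      exact ⟨k, by omega, hb⟩
  have hs : ∀ a ∈ D, le a XI.s := by
    intro a ha
    obtain ⟨n, rfl⟩ := hform a ha
    trivial
  have hp : ∀ i, ∀ a ∈ D, le a (XI.p i) := by
    intro i a ha
    obtain ⟨n, rfl⟩ := hform a ha
    trivial
  obtain ⟨o1, o2, o3, o4⟩ := isOpen_iff.mp hU
  -- the case where `s ∈ U`
  have hsU : XI.s ∈ U → ∃ d ∈ D, ∀ z, le d z → le y z → z ∈ U := by
    intro hs
    obtain ⟨⟨n, hn⟩, hpU⟩ := o2 hs
    obtain ⟨k, hk, hkD⟩ := hunb n
    refine ⟨_, hkD, fun z hz _ => ?_⟩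
    have hkU := (o1 n hn).1 k hk
    cases z with
    | d m => exact (o1 k hkU).1 m hz
    | s => exact hs
    | x => exact absurd hz (by simp [le])
    | p i => exact hpU i
    | e m => exact (o1 k hkU).2.2 m hz
  cases y with
  | d k => exact hsU (hyp _ hs trivial)
  | s => exact hsU (hyp _ hs trivial)
  | x =>
    have h1 : ∀ i, XI.p i ∈ U := fun i => hyp _ (hp i) trivial
    have h2 : (tr U)ᶜ.Finite := hd _ fun i hi => o4 ⟨i, hi⟩ (h1 ⟨i, hi⟩)
    obtain ⟨N, hN⟩ := h2.bddAbove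
    obtain ⟨k, hk, hkD⟩ := hunb (N + 1)
    refine ⟨_, hkD, fun z hz hxz => ?_⟩
    cases z with
    | d m => exact absurd hxz (by simp [le])
    | s => exact absurd hxz (by simp [le])
    | x => exact absurd hz (by simp [le])
    | p i => exact h1 i
    | e m =>
      by_contra hcon
      have h3 : m ≤ N := hN (show m ∈ (tr U)ᶜ from hcon)
      have h4 : k ≤ m := hz
      omega
  | p i =>
    have h1 : XI.p i ∈ U := hyp _ (hp i) rfl
    obtain ⟨a, ha⟩ := hne
    refine ⟨a, ha, fun z _ hz => ?_⟩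
    cases z with
    | p j =>
      have : i = j := hz
      subst this; exact h1
    | d m => exact absurd hz (by simp [le])
    | s => exact absurd hz (by simp [le])
    | x => exact absurd hz (by simp [le])
    | e m => exact absurd hz (by simp [le])
  | e m =>
    obtain ⟨k, hk, hkD⟩ := hunb (m + 1)
    refine ⟨_, hkD, fun z hz hmz => ?_⟩
    cases z with
    | e j =>
      have h3 : m = j := hmz
      have h4 : k ≤ j := hz
      omega
    | d m => exact absurd hmz (by simp [le])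
    | s => exact absurd hmz (by simp [le])
    | x => exact absurd hmz (by simp [le])
    | p m => exact absurd hmz (by simp [le])

end XI

section ultra

/-- a countable set carrying an independent family indexed by all sets of natural numbers -/
abbrev EE : Type := Finset ℕ × Finset (Finset ℕ)

open Classical in
/-- the members of the independent family -/
noncomputable def BB (S : Set ℕ) : Set EE := {e | e.1.filter (· ∈ S) ∈ e.2}

open Classical in
theorem exists_indep (c : Set ℕ → Bool) (𝒦 : Finset (Set ℕ)) (R : Finset EE) :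
    ∃ e : EE, e ∉ R ∧ ∀ S ∈ 𝒦, (e ∈ BB S ↔ c S = true) := by
  -- points distinguishing the members of 𝒦
  have hn : ∀ p : Set ℕ × Set ℕ, ∃ n : ℕ, p.1 ≠ p.2 → ¬ (n ∈ p.1 ↔ n ∈ p.2) := by
    intro p
    by_cases h : p.1 = p.2
    · exact ⟨0, fun h' => absurd h h'⟩
    · by_contra hcon
      push Not at hcon
      exact h (Set.ext fun n => by
        have := (hcon n).2
        tauto)
  choose ν hν using hn
  let F0 : Finset ℕ := (𝒦 ×ˢ 𝒦).image ν
  let N : ℕ := R.sup (fun e => e.1.card) + 1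
  let F : Finset ℕ := F0 ∪ Finset.range N
  have hinj : ∀ S ∈ 𝒦, ∀ T ∈ 𝒦, F.filter (· ∈ S) = F.filter (· ∈ T) → S = T := by
    intro S hS T hT hST
    by_contra hne
    have h1 := hν (S, T) hne
    apply h1
    have h2 : ν (S, T) ∈ F := Finset.mem_union_left _ (Finset.mem_image.mpr ⟨(S, T), Finset.mem_product.mpr ⟨hS, hT⟩, rfl⟩)
    have h3 := Finset.ext_iff.mp hST (ν (S, T))
    simp only [Finset.mem_filter, h2, true_and] at h3
    exact h3
  refine ⟨(F, (𝒦.filter (fun S => c S = true)).image (fun S => F.filter (· ∈ S))), ?_, ?_⟩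
  · intro hR
    have h1 : F.card ≤ R.sup (fun e => e.1.card) := Finset.le_sup (f := fun e : EE => e.1.card) hR
    have h2 : N ≤ F.card := by
      calc N = (Finset.range N).card := (Finset.card_range N).symm
        _ ≤ F.card := Finset.card_le_card Finset.subset_union_right
    omega
  · intro S hS
    simp only [BB, mem_ofPred_eq, Finset.mem_image, Finset.mem_filter]
    constructor
    · rintro ⟨T, ⟨hT, hcT⟩, hTS⟩
      rw [← hinj T hT S hS hTS]
      exact hcT
    · intro hc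
      exact ⟨S, ⟨hS, hc⟩, rfl⟩

open Classical in
theorem exists_ultra (c : Set ℕ → Bool) : ∃ 𝒲 : Ultrafilter EE, (∀ A : Set EE, Aᶜ.Finite → A ∈ 𝒲) ∧
    ∀ S, (BB S ∈ 𝒲 ↔ c S = true) := by
  let C : Set ℕ → Set EE := fun S => if c S = true then BB S else (BB S)ᶜ
  obtain ⟨𝒲, h𝒲⟩ := Ultrafilter.exists_ultrafilter_of_finite_inter_nonempty
    ({A : Set EE | Aᶜ.Finite} ∪ range C) (by
    intro T hT
    -- choose indices
    have hch : ∀ t : Set EE, ∃ S : Set ℕ, t ∈ T → (tᶜ.Finite ∨ t = C S) := by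
      intro t
      by_cases ht : t ∈ T
      · rcases hT ht with h | ⟨S, h⟩
        · exact ⟨∅, fun _ => Or.inl h⟩
        · exact ⟨S, fun _ => Or.inr h.symm⟩
      · exact ⟨∅, fun h => absurd h ht⟩
    choose σ hσ using hch
    have hRf : (⋃ t ∈ T.filter (fun t => tᶜ.Finite), tᶜ).Finite := by
      refine Set.Finite.biUnion (Finset.finite_toSet _) ?_
      intro t ht
      exact (Finset.mem_filter.mp ht).2
    obtain ⟨e, heR, he⟩ := exists_indep c (T.image σ) hRf.toFinset
    refine ⟨e, fun t ht => ?_⟩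
    rcases hσ t ht with h | h
    · by_contra hcon
      apply heR
      rw [Set.Finite.mem_toFinset]
      exact mem_biUnion (Finset.mem_filter.mpr ⟨ht, h⟩) hcon
    · rw [h]
      have h1 := he (σ t) (Finset.mem_image_of_mem σ ht)
      by_cases hc : c (σ t) = true
      · simp only [C, hc, if_true]
        exact h1.mpr hc
      · simp only [C, hc]
        exact fun h2 => hc (h1.mp h2))
  refine ⟨𝒲, fun A hA => h𝒲 (Or.inl hA), fun S => ?_⟩
  have h1 : C S ∈ 𝒲 := h𝒲 (Or.inr ⟨S, rfl⟩)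
  by_cases hc : c S = true
  · simp only [C, hc, if_true] at h1
    exact ⟨fun _ => hc, fun _ => h1⟩
  · simp only [C, hc] at h1
    refine ⟨fun h2 => ?_, fun h => absurd h hc⟩
    exact absurd h2 (Ultrafilter.compl_mem_iff_notMem.mp h1)

open Classical in
/-- For an infinite set `A` and a family of ultrafilters indexed by `Set ℕ` there is a free ultrafilter
that contains `A` and does not belong to the family. -/
theorem exists_diag {A : Set ℕ} (hA : A.Infinite) (g : Set ℕ → Ultrafilter ℕ) :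
    ∃ 𝒱 : Ultrafilter ℕ, (∀ B : Set ℕ, Bᶜ.Finite → B ∈ 𝒱) ∧ A ∈ 𝒱 ∧ ∀ S, 𝒱 ≠ g S := by
  haveI : Infinite A := hA.to_subtype
  obtain ⟨φ₀⟩ : Nonempty (EE ↪ A) := by
    obtain ⟨f, hf⟩ := exists_injective_nat EE
    exact ⟨(⟨f, hf⟩ : EE ↪ ℕ).trans (Infinite.natEmbedding A)⟩
  let φ : EE → ℕ := fun e => (φ₀ e).1
  have hφ : Function.Injective φ := Subtype.val_injective.comp φ₀.injective
  have hφA : ∀ e, φ e ∈ A := fun e => (φ₀ e).2
  obtain ⟨𝒲, hfree, h𝒲⟩ := exists_ultra (fun S => decide (φ '' BB S ∉ g S))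
  refine ⟨𝒲.map φ, fun B hB => ?_, ?_, fun S hS => ?_⟩
  · rw [Ultrafilter.mem_map]
    refine hfree _ ?_
    rw [← preimage_compl]
    exact hB.preimage hφ.injOn
  · rw [Ultrafilter.mem_map]
    have : φ ⁻¹' A = univ := eq_univ_of_forall hφA
    rw [this]; exact Filter.univ_mem
  · have h1 := h𝒲 S
    simp only [decide_eq_true_eq] at h1
    have h2 : φ '' BB S ∈ 𝒲.map φ ↔ BB S ∈ 𝒲 := by
      rw [Ultrafilter.mem_map, preimage_image_eq _ hφ]
    rw [hS, h1] at h2
    tauto

theorem exists_free {A : Set ℕ} (hA : A.Infinite) :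
    ∃ 𝒱 : Ultrafilter ℕ, (∀ B : Set ℕ, Bᶜ.Finite → B ∈ 𝒱) ∧ A ∈ 𝒱 := by
  obtain ⟨𝒱, h1, h2, -⟩ := exists_diag hA (fun _ => pure 0)
  exact ⟨𝒱, h1, h2⟩

open Classical in
/-- two disjoint dense sets of free ultrafilters -/
theorem exists_two : ∃ I J : Set (Ultrafilter ℕ), XI.Free I ∧ XI.Free J ∧ XI.DenseU I ∧ XI.DenseU J ∧
    Disjoint I J := by
  have hg : ∀ A : Set ℕ, ∃ 𝒱 : Ultrafilter ℕ, A.Infinite → (∀ B : Set ℕ, Bᶜ.Finite → B ∈ 𝒱) ∧ A ∈ 𝒱 := by
    intro A
    by_cases hA : A.Infinite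
    · obtain ⟨𝒱, h⟩ := exists_free hA
      exact ⟨𝒱, fun _ => h⟩
    · exact ⟨pure 0, fun h => absurd h hA⟩
  choose g hg using hg
  have hk : ∀ A : Set ℕ, ∃ 𝒱 : Ultrafilter ℕ, A.Infinite →
      (∀ B : Set ℕ, Bᶜ.Finite → B ∈ 𝒱) ∧ A ∈ 𝒱 ∧ ∀ S, 𝒱 ≠ g S := by
    intro A
    by_cases hA : A.Infinite
    · obtain ⟨𝒱, h⟩ := exists_diag hA g
      exact ⟨𝒱, fun _ => h⟩
    · exact ⟨pure 0, fun h => absurd h hA⟩
  choose k hk using hk
  refine ⟨{i | ∃ A : Set ℕ, A.Infinite ∧ i = g A}, {i | ∃ A : Set ℕ, A.Infinite ∧ i = k A}, ?_, ?_, ?_, ?_, ?_⟩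
  · rintro _ ⟨A, hA, rfl⟩
    exact (hg A hA).1
  · rintro _ ⟨A, hA, rfl⟩
    exact (hk A hA).1
  · intro A h
    by_contra hcon
    have h1 := h _ ⟨Aᶜ, hcon, rfl⟩
    exact Ultrafilter.compl_mem_iff_notMem.mp (hg Aᶜ hcon).2 h1
  · intro A h
    by_contra hcon
    have h1 := h _ ⟨Aᶜ, hcon, rfl⟩
    exact Ultrafilter.compl_mem_iff_notMem.mp (hk Aᶜ hcon).2.1 h1
  · rw [Set.disjoint_left]
    rintro _ ⟨A, hA, rfl⟩ ⟨B, hB, h⟩
    exact (hk B hB).2.2 A h.symm

end ultra

section pairs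

/-- the index sets of a pair -/
def KK (I J : Set (Ultrafilter ℕ)) : Bool → Set (Ultrafilter ℕ)
  | false => I
  | true => J

theorem sle_pi {ι : Type v} {X : ι → Type u} [∀ i, TopologicalSpace (X i)] {x y : ∀ i, X i} :
    sle x y ↔ ∀ i, sle (x i) (y i) := by
  simp only [sle_iff_specializes, specializes_pi]

/-- a point above all `d n` and above `x` is some `p i` -/
theorem XI.eq_p {I : Set (Ultrafilter ℕ)} (hI : XI.Free I) {z : XI I} (h1 : ∀ n, sle (XI.d n) z)
    (h2 : sle XI.x z) : ∃ i, z = XI.p i := by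
  simp only [XI.sle_iff_le hI] at h1 h2
  cases z with
  | d m => exact absurd h2 (by simp [XI.le])
  | s => exact absurd h2 (by simp [XI.le])
  | x => exact absurd (h1 0) (by simp [XI.le])
  | p i => exact ⟨i, rfl⟩
  | e m =>
    have : m + 1 ≤ m := h1 (m + 1)
    omega

theorem exists_sep {i j : Ultrafilter ℕ} (h : i ≠ j) : ∃ A : Set ℕ, A ∈ i ∧ Aᶜ ∈ j := by
  by_contra hcon
  push Not at hcon
  apply h
  apply Ultrafilter.coe_injective
  refine le_antisymm ?_ ?_
  · intro A hA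
    by_contra hAi
    have h1 := hcon Aᶜ (Ultrafilter.compl_mem_iff_notMem.mpr hAi)
    rw [compl_compl] at h1
    exact h1 hA
  · intro A hA
    by_contra hAj
    exact hcon A hA (Ultrafilter.compl_mem_iff_notMem.mpr hAj)

end pairs

end Pool.Agent.Q150.SDSpace
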